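import Pool.Agent.CRL.Bkw

/-!
Campaign CRL, module Bdd: the number of variables is bounded.
-/

set_option autoImplicit false

namespace Pool.Agent.CRL

open Pool.Agent.CRR Pool.Agent.CRN Pool.Agent.CRK

theorem Bdd_ev {R : Type} [NonUnitalRing R] (L : List (ℤ × List ℕ)) (v : ℕ → R)
    (h : ∀ p ∈ L, wp (p.2.map v) = 0) : ev L v = 0 := by
  induction L with
  | nil => rfl
  | cons p L ih =>
    rw [Wrd_ev_cons, h p List.mem_cons_self, ih fun q hq => h q (List.mem_cons_of_mem _ hq),
      smul_zero, add_zero]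

theorem Bdd_len (s b : ℕ) (w : List ℕ) (h : ∀ k, k < b → s + k ∈ w) :
    b ≤ (w.filter fun i => decide (s ≤ i ∧ i < s + b)).length := by
  have hnd : ((List.range b).map fun k => s + k).Nodup :=
    List.Nodup.map (fun x y h => Nat.add_left_cancel h) List.nodup_range
  have hsub : ((List.range b).map fun k => s + k) ⊆
      w.filter fun i => decide (s ≤ i ∧ i < s + b) := by
    intro i hi
    obtain ⟨k, hk, rfl⟩ := List.mem_map.1 hi
    have hk' : k < b := List.mem_range.1 hk
    refine List.mem_filter.2 ⟨h k hk', ?_⟩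
    have h1 : s ≤ s + k ∧ s + k < s + b := ⟨by omega, by omega⟩
    exact decide_eq_true h1
  have hle := (List.subperm_of_subset hnd hsub).length_le
  rwa [List.length_map, List.length_range] at hle

theorem thm_Bdd (hBnd : St_Bnd) (hWrx : St_Wrx) : St_Bdd := by
  intro n p R _ _ hC
  obtain ⟨M, hM5, hM⟩ := hBnd n p R hC
  refine ⟨M, hM5, fun s b H φ hφ => ?_⟩
  by_contra hlt
  push Not at hlt
  obtain ⟨v, hv, hne⟩ := hφ.ne
  obtain ⟨L, hL1, hL2⟩ := hWrx R φ hφ.tm ((Finset.range b).image (fun k => s + k))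
  apply hne
  rw [Bkw_ev hφ hL2 v hv]
  refine Bdd_ev L v fun q hq => ?_
  refine hM ((q.2.filter fun i => decide (s ≤ i ∧ i < s + b)).map v) (q.2.map v)
    (List.Sublist.map v List.filter_sublist) ?_ ?_
  · intro x hx
    obtain ⟨i, hi, rfl⟩ := List.mem_map.1 hx
    have h1 : s ≤ i ∧ i < s + b := of_decide_eq_true (List.mem_filter.1 hi).2
    have h2 : s + (i - s) = i := by omega
    rw [← h2]
    exact hv.2 (i - s) (by omega)
  · rw [List.length_map]
    refine hlt.trans_le (Bdd_len s b q.2 fun k hk => ?_)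
    exact (hL1 q hq).2 _ (Finset.mem_image.2 ⟨k, Finset.mem_range.2 hk, rfl⟩)

end Pool.Agent.CRL
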