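import Pool.Agent.CRL.St
import Pool.Agent.CRK.Wrd
import Pool.Agent.CRK.Cvm

/-!
Campaign CRL, module Bgb: the function of a ring of functional type is in the second class.
-/

set_option autoImplicit false

namespace Pool.Agent.CRL

open Pool.Agent.CRR Pool.Agent.CRN Pool.Agent.CRK

section

variable {R : Type} [NonUnitalRing R]

/-- The value of the combination `L` at a sequence. -/
def BgbF (L : List (ℤ × List ℕ)) (s b : ℕ) (v : ℕ → R) : R :=
  Val L (fun i : Fin s => v i) (fun k : Fin b => v (s + k))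

theorem Bgb_ev (L : List (ℤ × List ℕ)) : TmF (R := R) (fun v => ev L v) := by
  induction L with
  | nil => exact TmF.zero
  | cons p L ih =>
    have h : (fun v : ℕ → R => ev (p :: L) v) = fun v => p.1 • wp (p.2.map v) + ev L v := by
      funext v
      exact Wrd_ev_cons p L v
    rw [h]
    exact (Cvm_tmf_zsmul (Cvm_tmf_wp _) _).add ih

theorem Bgb_comp {φ : (ℕ → R) → R} (h : TmF φ)
    {u : ℕ → (ℕ → R) → R} (hu : ∀ i, TmF (u i)) : TmF (fun v => φ (fun i => u i v)) := by
  obtain ⟨t, ht⟩ := h
  have key : ∀ t : RTerm, ∃ t' : RTerm, ∀ v, t'.eval v = t.eval (fun i => u i v) := by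
    intro t
    induction t with
    | var i => exact hu i
    | add t t' h1 h2 =>
      obtain ⟨w, hw⟩ := h1
      obtain ⟨w', hw'⟩ := h2
      exact ⟨.add w w', fun v => by rw [RTerm.eval, RTerm.eval, hw, hw']⟩
    | neg t h1 =>
      obtain ⟨w, hw⟩ := h1
      exact ⟨.neg w, fun v => by rw [RTerm.eval, RTerm.eval, hw]⟩
    | mul t t' h1 h2 =>
      obtain ⟨w, hw⟩ := h1
      obtain ⟨w', hw'⟩ := h2
      exact ⟨.mul w w', fun v => by rw [RTerm.eval, RTerm.eval, hw, hw']⟩
  obtain ⟨t', ht'⟩ := key t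
  exact ⟨t', fun v => by rw [ht', ht]⟩

theorem Bgb_vv (hVvx : St_Vvx) (s b : ℕ) (v : ℕ → R) :
    vv (fun i : Fin s => v i) (fun k : Fin b => v (s + k)) =
      fun i => if i < s + b then v i else 0 := by
  obtain ⟨h1, h2⟩ := hVvx 0 R s b
  funext i
  by_cases h : i < s + b
  · rw [if_pos h]
    exact h2 v i h
  · rw [if_neg h]
    exact (h1 _ _).2.2.1 i (not_lt.1 h)

theorem Bgb_tm (hVvx : St_Vvx) (L : List (ℤ × List ℕ)) (s b : ℕ) : TmF (R := R) (BgbF L s b) := by
  have h : (BgbF L s b : (ℕ → R) → R) =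
      fun v => ev L (fun i => if i < s + b then v i else 0) := by
    funext v
    rw [BgbF, Val, Bgb_vv hVvx]
  rw [h]
  refine Bgb_comp (φ := fun v => ev L v) (u := fun i v => if i < s + b then v i else 0)
    (Bgb_ev L) fun i => ?_
  by_cases h1 : i < s + b
  · simp only [h1, if_true]
    exact TmF.var i
  · simp only [h1, if_false]
    exact TmF.zero

theorem Bgb_upd (L : List (ℤ × List ℕ)) (s b : ℕ) (v : ℕ → R) (k : ℕ) (hk : k < b) (y : R) :
    BgbF L s b (Function.update v (s + k) y) =
      Val L (fun i : Fin s => v i) (Function.update (fun k : Fin b => v (s + k)) ⟨k, hk⟩ y) := by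
  rw [BgbF]
  congr 1
  · funext i
    exact Function.update_of_ne (by have := i.2; omega) _ _
  · funext j
    rw [Function.update_apply, Function.update_apply]
    by_cases h : j = ⟨k, hk⟩
    · subst h
      rw [if_pos rfl, if_pos rfl]
    · rw [if_neg h, if_neg]
      intro h1
      exact h (Fin.ext (by simpa using h1))

end

theorem thm_Bgb (hVvx : St_Vvx) : St_Bgb := by
  intro n p R _ _ _ hF
  obtain ⟨H, hH, s, b, L, _, _, hL, _, hv, t0, x0, ht0, hx0, hne⟩ := hF
  obtain ⟨h1, h2⟩ := hVvx n R s b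
  refine ⟨H, s, b, BgbF L s b, hH, ?_⟩
  have hvec : ∀ v : ℕ → R, Vec n s b v → Frame R n s (fun i : Fin s => v i) ∧
      ∀ k : Fin b, Nl (v (s + k)) := fun v hv => ⟨hv.1, fun k => hv.2 k k.2⟩
  exact
    { tm := Bgb_tm hVvx L s b
      dep := by
        intro v v' h
        rw [BgbF, BgbF]
        congr 1
        · funext i
          exact h i (by have := i.2; omega)
        · funext k
          exact h (s + k) (by have := k.2; omega)
      val := fun v hV => (hv _ _ (hvec v hV).1 (hvec v hV).2).1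
      van := fun v hV S hS hm => (hv _ _ (hvec v hV).1 (hvec v hV).2).2.2.2 S hS
        (fun i => hm i (by have := i.2; omega)) (fun k => hm (s + k) (by have := k.2; omega))
      ne := by
        refine ⟨vv t0 x0, (h1 t0 x0).2.2.2.1 ht0 hx0, ?_⟩
        have e1 : (fun i : Fin s => vv t0 x0 i) = t0 := funext (h1 t0 x0).1
        have e2 : (fun k : Fin b => vv t0 x0 (s + k)) = x0 := funext (h1 t0 x0).2.1
        rw [BgbF, e1, e2]
        exact hne
      zer := by
        intro v _ k hk h0
        rw [BgbF, Val]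
        refine Wrd_ev_zero L _ fun q hq => ⟨s + k, (hL q hq).2 k hk, ?_⟩
        rw [Bgb_vv hVvx]
        exact (if_pos (by omega)).trans h0
      add := by
        intro v hV k hk y z hy hz
        rw [Bgb_upd L s b v k hk, Bgb_upd L s b v k hk, Bgb_upd L s b v k hk]
        exact ((hv _ _ (hvec v hV).1 (hvec v hV).2).2.1 ⟨k, hk⟩ y z hy hz).2
      sq := by
        intro v hV k hk y z hy hz
        rw [Bgb_upd L s b v k hk]
        exact ((hv _ _ (hvec v hV).1 (hvec v hV).2).2.1 ⟨k, hk⟩ y z hy hz).1 }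

end Pool.Agent.CRL
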