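import Pool.Agent.CRL.St
import Pool.Agent.CRK.Wrd
import Pool.Agent.CRK.Gdb
import Pool.Agent.CRK.Cvm
import Pool.Agent.CRN.Crg

/-!
Campaign CRL, module Bkw: the criterion, `b ≥ 1`.
-/

set_option autoImplicit false

namespace Pool.Agent.CRL

open Pool.Agent.CRR Pool.Agent.CRN Pool.Agent.CRK

section

variable {R : Type} [NonUnitalRing R]

theorem Bkw_tmf (L : List (ℤ × List ℕ)) : TmF (R := R) (fun v => ev L v) := by
  induction L with
  | nil => exact TmF.zero
  | cons p L ih =>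
    have h : (fun v : ℕ → R => ev (p :: L) v) = fun v => p.1 • wp (p.2.map v) + ev L v := by
      funext v
      exact Wrd_ev_cons p L v
    rw [h]
    exact (Cvm_tmf_zsmul (Cvm_tmf_wp p.2) p.1).add ih

theorem Bkw_vec {n s b : ℕ} {v : ℕ → R} (hv : Vec n s b v) (A : Finset ℕ)
    (hA : A ⊆ (Finset.range b).image (fun k => s + k)) : Vec n s b (zr (A : Set ℕ) v) := by
  classical
  refine ⟨?_, fun k hk => ?_⟩
  · have h1 : (fun i : Fin s => zr (A : Set ℕ) v i) = fun i : Fin s => v i := by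
      funext i
      have h2 : (i : ℕ) ∉ (A : Set ℕ) := by
        intro h3
        obtain ⟨k, _, hk⟩ := Finset.mem_image.1 (hA (Finset.mem_coe.1 h3))
        omega
      simp only [zr, if_neg h2]
    rw [h1]
    exact hv.1
  · simp only [zr]
    split
    · simp [Nl]
    · exact hv.2 k hk

theorem Bkw_ev {n s b : ℕ} {H : AddSubgroup R} {φ : (ℕ → R) → R} (hφ : Ga n s b H φ)
    {L : List (ℤ × List ℕ)} (hL : ∀ v : ℕ → R, (∀ A : Finset ℕ,
      A ⊆ (Finset.range b).image (fun k => s + k) → A.Nonempty → φ (zr (A : Set ℕ) v) = 0) →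
      φ v = ev L v) (v : ℕ → R) (hv : Vec n s b v) : φ v = ev L v := by
  classical
  refine hL v fun A hA hne => ?_
  obtain ⟨j, hj⟩ := hne
  obtain ⟨k, hk, rfl⟩ := Finset.mem_image.1 (hA hj)
  refine hφ.zer _ (Bkw_vec hv A hA) k (Finset.mem_range.1 hk) ?_
  have h1 : s + k ∈ (A : Set ℕ) := Finset.mem_coe.2 hj
  simp only [zr, if_pos h1]

end

theorem thm_Bkw (hWrx : St_Wrx) (hPch : St_Pch) (hAlv : St_Alv) (hOre : St_Ore) (hTav : St_Tav)
    (hGvt : St_Gvt) (hGvf : St_Gvf) (hRtn : St_Rtn) : St_Bkw := by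
  intro n p R _ _ hC H s b φ hH hφ hb
  obtain ⟨K, hK3, hKper, hKrest⟩ := hTav n p hC.n4 hC.pp
  have h1 := hKper R hC.inM
  obtain ⟨horth, hid, htm, hsub⟩ := hKrest R hC
  obtain ⟨α, β, v₀, hv₀⟩ := hPch n p R hC s b H φ hφ
  obtain ⟨o, ho⟩ := hOre n p R hC s (fun i => v₀ i) hv₀.vec.1
  obtain ⟨g1, g2, g3, g4, -, -⟩ := hGvt n p K R hC htm hsub s b o α β
  obtain ⟨r1, r2⟩ := hRtn n p K R hC h1 s b φ α β v₀ hv₀ o ho
  have hfr := hGvf n p K R hC horth hid s (fun i => v₀ i) hv₀.vec.1 o ho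
  obtain ⟨L, hL1, hL2⟩ := hWrx R φ hφ.tm ((Finset.range b).image (fun k => s + k))
  have hev := Bkw_ev hφ.toGa hL2
  have hvec : ∀ v : ℕ → R, (∀ i : Fin s, dv n K o v i ≠ 0) →
      Vec n s b (fun i => gv n K s b o α β v i) := by
    intro v hv
    refine ⟨?_, fun k hk => g3 v k hk⟩
    have h2 : (fun i : Fin s => gv n K s b o α β v i) = fun i : Fin s => ta n K v i := by
      funext i
      simp only [gv, i.2, if_true]
    rw [h2]
    exact hfr v hv
  have hzero : ∀ v : ℕ → R, ¬ (∀ i : Fin s, dv n K o v i ≠ 0) →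
      ev L (fun i => gv n K s b o α β v i) = 0 := by
    intro v hv
    push Not at hv
    obtain ⟨i, hi⟩ := hv
    obtain ⟨k, hk, hkα⟩ := (hAlv n p R hC H hH s b φ hφ α β v₀ hv₀).1 hb i
    refine Wrd_ev_zero L _ fun q hq => ?_
    refine ⟨s + k, (hL1 q hq).2 (s + k) ?_, g4 v k i hk hkα hi⟩
    exact Finset.mem_image.2 ⟨k, Finset.mem_range.2 hk, rfl⟩
  refine CRN.thm_Crg R H hH (fun v => ev L (fun i => gv n K s b o α β v i)) ?_ ?_ ?_ ?_
  · exact Gdb_comp (Bkw_tmf L) g1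
  · intro v
    by_cases hv : ∀ i : Fin s, dv n K o v i ≠ 0
    · simp only [← hev _ (hvec v hv)]
      exact hφ.val _ (hvec v hv)
    · simp only [hzero v hv]
      exact H.zero_mem
  · refine ⟨v₀, ?_⟩
    have h2 : (fun i => gv n K s b o α β v₀ i) = v₀ := funext r1
    simp only [h2, ← hev v₀ hv₀.vec]
    exact hv₀.ne
  · intro S hS v hvS
    by_cases hv : ∀ i : Fin s, dv n K o v i ≠ 0
    · simp only [← hev _ (hvec v hv)]
      exact hφ.van _ (hvec v hv) S hS fun i _ => g2 S v hvS i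
    · exact hzero v hv

end Pool.Agent.CRL
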