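import Pool.Agent.CRL.St
import Pool.Agent.CRK.Gdb
import Pool.Agent.CRN.Crg

/-!
Campaign CRL, module Bkz: the criterion, `b = 0`.
-/

set_option autoImplicit false

namespace Pool.Agent.CRL

open Pool.Agent.CRR Pool.Agent.CRN Pool.Agent.CRK

theorem Bkz_left {R : Type} [NonUnitalRing R] (e t y : R) (h : e * t = t)
    (hy : y ∈ NonUnitalSubring.closure {t}) : e * y = y := by
  induction hy using NonUnitalSubring.closure_induction with
  | mem x hx =>
    rw [Set.mem_singleton_iff] at hx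
    rw [hx, h]
  | zero => rw [mul_zero]
  | add x y _ _ hx hy => rw [mul_add, hx, hy]
  | neg x _ hx => rw [mul_neg, hx]
  | mul x y _ _ hx _ => rw [← mul_assoc, hx]

theorem thm_Bkz (hPch : St_Pch) (hAlv : St_Alv) (hOre : St_Ore) (hTav : St_Tav)
    (hGvt : St_Gvt) (hGvf : St_Gvf) (hRtn : St_Rtn) (hFpr : St_Fpr) : St_Bkz := by
  intro n p R _ _ hC H s φ hH hφ
  obtain ⟨K, hK3, hKper, hKrest⟩ := hTav n p hC.n4 hC.pp
  have h1 := hKper R hC.inM
  obtain ⟨horth, hid, htm, hsub⟩ := hKrest R hC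
  obtain ⟨α, β, v₀, hv₀⟩ := hPch n p R hC s 0 H φ hφ
  obtain rfl : s = 1 := (hAlv n p R hC H hH s 0 φ hφ α β v₀ hv₀).2 rfl
  obtain ⟨o, ho⟩ := hOre n p R hC 1 (fun i => v₀ i) hv₀.vec.1
  obtain ⟨g1, g2, g3, g4, g5, g6⟩ := hGvt n p K R hC htm hsub 1 0 o α β
  obtain ⟨r1, r2⟩ := hRtn n p K R hC h1 1 0 φ α β v₀ hv₀ o ho
  have hfr := hGvf n p K R hC horth hid 1 (fun i => v₀ i) hv₀.vec.1 o ho
  have hvec : ∀ v : ℕ → R, dv n K o v 0 ≠ 0 → Vec n 1 0 (fun i => gv n K 1 0 o α β v i) := by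
    intro v hv
    refine ⟨?_, fun k hk => absurd hk (Nat.not_lt_zero k)⟩
    have h2 : (fun i : Fin 1 => gv n K 1 0 o α β v i) = fun i : Fin 1 => ta n K v i := by
      funext i
      simp only [gv, i.2, if_true]
    rw [h2]
    refine hfr v fun i => ?_
    obtain rfl : i = 0 := Subsingleton.elim _ _
    exact hv
  refine CRN.thm_Crg R H hH
    (fun v => dv n K o v 0 * φ (fun i => gv n K 1 0 o α β v i)) ?_ ?_ ?_ ?_
  · exact (g5 0).mul (Gdb_comp hφ.tm g1)
  · intro v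
    by_cases hv : dv n K o v 0 = 0
    · simp only [hv, zero_mul]
      exact H.zero_mem
    · exact (hH.1 _ _ (hφ.val _ (hvec v hv))).1
  · refine ⟨v₀, ?_⟩
    have h2 : (fun i => gv n K 1 0 o α β v₀ i) = v₀ := funext r1
    have h3 : dv n K o v₀ 0 = om n (v₀ 0) := r2 0
    simp only [h2, h3]
    have h4 : φ v₀ ∈ NonUnitalSubring.closure {v₀ 0} := by
      refine hφ.tm.mem _ _ fun i => ?_
      rcases Nat.eq_zero_or_pos i with rfl | hi
      · exact NonUnitalSubring.subset_closure rfl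
      · rw [hv₀.out i (by omega)]
        exact zero_mem _
    have h5 : om n (v₀ 0) * v₀ 0 = v₀ 0 :=
      ((hFpr n p R hC 1 (fun i => v₀ i) hv₀.vec.1).2.1 0).2.1
    rw [Bkz_left _ _ _ h5 h4]
    exact hv₀.ne
  · intro S hS v hvS
    by_cases hv : dv n K o v 0 = 0
    · simp only [hv, zero_mul]
    · simp only [hφ.van _ (hvec v hv) S hS fun i _ => g2 S v hvS i, mul_zero]

end Pool.Agent.CRL
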