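import Pool.Agent.CRL.St
import Pool.Agent.CRN.Jnl
import Pool.Agent.CRK.Ida
import Pool.Agent.CRK.Idb
import Pool.Agent.CRK.Hig
import Pool.Agent.CRK.Kan
import Pool.Agent.CRK.Sra
import Pool.Agent.CRK.Sxd
import Pool.Agent.CRK.Sxe
import Pool.Agent.CRK.Sxa
import Pool.Agent.CRK.Sxb
import Pool.Agent.CRK.Wrd

/-!
Campaign CRL (problem MP_1bb14d_al): products with many factors in the radical vanish.
-/

set_option autoImplicit false

namespace Pool.Agent.CRL

open Pool.Agent.CRR Pool.Agent.CRN Pool.Agent.CRK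

theorem Bnd_sxb : St_Sxb := by
  have ida : St_Ida := thm_Ida
  have idb : St_Idb := thm_Idb ida
  have hig : St_Hig := thm_Hig ida
  have kan : St_Kan := thm_Kan ida hig
  have sra : St_Sra := thm_Sra ida hig
  have sxd : St_Sxd := thm_Sxd ida idb hig kan sra
  have sxe : St_Sxe := thm_Sxe ida hig sra sxd
  exact thm_Sxb (thm_Sxa ida sra sxe)

section lists

variable {R : Type} [NonUnitalRing R]

theorem Bnd_prn (x : ℕ → R) (k : ℕ) : wp ((List.range (k + 1)).map x) = prn x k := by
  induction k with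
  | zero => rfl
  | succ k ih =>
    rw [List.range_succ, List.map_append, Wrd_wp_append _ _ (by simp) (by simp), ih]
    rfl

theorem Bnd_prn_zero (x : ℕ → R) (m k : ℕ) (h : prn x m = 0) (hk : m ≤ k) : prn x k = 0 := by
  induction k, hk using Nat.le_induction with
  | base => exact h
  | succ k _ ih =>
    show prn x k * x (k + 1) = 0
    rw [ih, zero_mul]

theorem Bnd_list (l : List R) (m : ℕ) (hl : m < l.length)
    (h : prn (fun i => l.getD i 0) m = 0) : wp l = 0 := by
  obtain ⟨k, hk⟩ : ∃ k, l.length = k + 1 := ⟨l.length - 1, by omega⟩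
  have h1 : l = (List.range (k + 1)).map (fun i => l.getD i 0) := by
    apply List.ext_getElem
    · rw [List.length_map, List.length_range, hk]
    · intro i h1 h2
      rw [List.getElem_map, List.getElem_range, List.getD_eq_getElem _ _ h1]
  rw [h1, Bnd_prn]
  exact Bnd_prn_zero _ m k h (by omega)

theorem Bnd_getD {J : AddSubgroup R} {l : List R} (h : ∀ x ∈ l, x ∈ J) (i : ℕ) :
    l.getD i 0 ∈ J := by
  by_cases hi : i < l.length
  · rw [List.getD_eq_getElem _ _ hi]
    exact h _ (List.getElem_mem hi)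
  · rw [List.getD_eq_default _ _ (by omega)]
    exact zero_mem _

/-- an ideal as a ring -/
def BndS (J : AddSubgroup R) (hJ : Idl R J) : NonUnitalSubring R where
  carrier := J
  add_mem' := fun ha hb => J.add_mem ha hb
  zero_mem' := J.zero_mem
  neg_mem' := fun ha => J.neg_mem ha
  mul_mem' := fun {a b} _ hb => (hJ a b hb).1

theorem Bnd_wp_val (S : NonUnitalSubring R) (l : List S) :
    wp (l.map Subtype.val) = ((wp l : S) : R) := by
  induction l with
  | nil => rfl
  | cons a l ih =>
    cases l with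
    | nil => rfl
    | cons b l =>
      show (a : R) * wp ((b :: l).map Subtype.val) = ((a * wp (b :: l) : S) : R)
      rw [ih]
      rfl

end lists

theorem Bnd_card {R : Type} [NonUnitalRing R] [Finite R] (h : (Nat.card R).Coprime 6) (x : R)
    (hx : (6 : ℤ) • x = 0) : x = 0 := by
  have h1 : addOrderOf x ∣ Nat.card R := addOrderOf_dvd_natCard x
  have h2 : addOrderOf x ∣ 6 := by
    apply addOrderOf_dvd_of_nsmul_eq_zero
    have : (6 : ℤ) • x = (6 : ℕ) • x := by
      rw [← natCast_zsmul]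
      rfl
    rw [← this]
    exact hx
  have h3 : addOrderOf x = 1 := Nat.dvd_one.1 (h ▸ Nat.dvd_gcd h1 h2)
  exact AddMonoid.addOrderOf_eq_one_iff.1 h3

theorem thm_Bnd (hJil : St_Jil) (hLis : St_Lis) : St_Bnd := by
  intro n p R _ _ hCy
  obtain ⟨J, hJI, hJ⟩ := hJil n hCy.n4 R hCy.inM hCy.nt
  have key : ∀ M : ℕ, (∀ l' : List R, (∀ x ∈ l', x ∈ J) → M < l'.length → wp l' = 0) →
      ∀ l1 l : List R, l1.Sublist l → (∀ x ∈ l1, Nl x) → M < l1.length → wp l = 0 := by
    intro M hM l1 l hs h1 hl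
    have hne : l1 ≠ [] := by
      rintro rfl
      exact absurd hl (Nat.not_lt_zero _)
    obtain ⟨l', h2, h3, h4⟩ := hLis R J hJI l1 l hs hne fun x hx => (hJ x).2 (h1 x hx)
    rw [← h4]
    exact hM l' h3 (by omega)
  by_cases h6 : (Nat.card R).Coprime 6
  · refine ⟨5, fun _ => rfl, key 5 ?_⟩
    intro l' hl' hlen
    have hN6 : N6 (BndS J hJI) := by
      refine ⟨fun x => ?_, fun x hx => ?_⟩
      · apply Subtype.ext
        exact (hJ x.1).1 x.2
      · apply Subtype.ext
        apply Bnd_card h6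
        have := congrArg (Subtype.val : BndS J hJI → R) hx
        exact this
    obtain ⟨l2, rfl⟩ : ∃ l2 : List (BndS J hJI), l2.map Subtype.val = l' := by
      have hl2 : ∀ x ∈ l', x ∈ BndS J hJI := hl'
      refine ⟨l'.pmap (fun x hx => (⟨x, hx⟩ : BndS J hJI)) hl2, ?_⟩
      rw [List.map_pmap]
      simp
    rw [Bnd_wp_val, Bnd_sxb (BndS J hJI) hN6 l2 (by rw [List.length_map] at hlen; omega)]
    rfl
  · obtain ⟨m, hm⟩ := thm_Jnl R J hJI fun x hx => (hJ x).1 hx
    refine ⟨m, fun h => absurd h h6, key m ?_⟩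
    intro l' hl' hlen
    exact Bnd_list l' m hlen (hm _ fun i => Bnd_getD hl' i)

end Pool.Agent.CRL
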