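import Pool.Agent.CRL.St

/-!
Campaign CRL, module Chi: the map `x ↦ e x e` is multiplicative modulo nil elements.
-/

set_option autoImplicit false

namespace Pool.Agent.CRL

open Pool.Agent.CRR Pool.Agent.CRN Pool.Agent.CRK

theorem thm_Chi (hPrl : St_Prl) : St_Chi := by
  intro n hn R _ hM hT e he x y
  have he1 := he.1
  have he0 := he.2.1
  have h1 : e * (x * y) * e - (e * x * e) * (e * y * e) =
      (e * x - e * x * e) * (y * e - e * y * e) := by
    have e1 : e * x * e * (e * y * e) = e * x * e * (y * e) := by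
      rw [mul_assoc (e * x) e (e * y * e), ← mul_assoc e (e * y) e, ← mul_assoc e e y, he1,
        mul_assoc e y e, ← mul_assoc (e * x) e (y * e)]
    have e2 : e * x * (e * y * e) = e * x * e * (y * e) := by
      rw [mul_assoc e y e, ← mul_assoc (e * x) e (y * e)]
    rw [sub_mul, mul_sub, mul_sub, e1, e2]
    rw [show e * (x * y) * e = e * x * (y * e) by simp only [mul_assoc]]
    abel
  have ha1 : e * (e * x - e * x * e) = e * x - e * x * e := by
    rw [mul_sub, ← mul_assoc, he1, ← mul_assoc, ← mul_assoc, he1]
  have ha2 : (e * x - e * x * e) * e = 0 := by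
    rw [sub_mul, mul_assoc (e * x) e e, he1, sub_self]
  have hb2 : (y * e - e * y * e) * e = y * e - e * y * e := by
    rw [sub_mul, mul_assoc y e e, he1, mul_assoc (e * y) e e, he1]
  set a := e * x - e * x * e with ha
  set b := y * e - e * y * e with hb
  rw [h1]
  rcases hPrl n hn R hM e he (a * b) (by rw [← mul_assoc, ha1]) (by rw [mul_assoc, hb2]) with
    h | ⟨z, z1, z2, z3, z4⟩
  · exact h
  · exfalso
    apply hT
    refine ⟨a, b * z, ?_, ?_, ?_⟩
    · calc a * a = a * (e * a) := by rw [ha1]
        _ = (a * e) * a := (mul_assoc _ _ _).symm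
        _ = 0 := by rw [ha2, zero_mul]
    · rw [← mul_assoc a b z, z3, ha1]
    · intro h0
      rw [h0, zero_mul, zero_mul] at z3
      exact he0 z3.symm

end Pool.Agent.CRL
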