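import Pool.Agent.CRL.St

/-!
Campaign CRL, module Chn: the ideal of the `x` with `e x e` nil.
-/

set_option autoImplicit false

namespace Pool.Agent.CRL

open Pool.Agent.CRR Pool.Agent.CRN Pool.Agent.CRK

theorem thm_Chn (hPrl : St_Prl) (hSnl : St_Snl) (hChi : St_Chi) : St_Chn := by
  intro n hn R _ hM hT e he
  have he1 := he.1
  have he0 := he.2.1
  have hl : ∀ x : R, e * (e * x * e) = e * x * e := fun x => by
    rw [← mul_assoc, ← mul_assoc, he1]
  have hr : ∀ x : R, e * x * e * e = e * x * e := fun x => by rw [mul_assoc (e * x), he1]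
  have hA : ∀ x y : R, Nl (e * x * e) → Nl (e * y * e) → Nl (e * (x + y) * e) := by
    intro x y hx hy
    rw [mul_add, add_mul]
    exact (hSnl n hn R hM e he _ _ (hl x) (hr x) (hl y) (hr y) hx).2 hy
  have hml : ∀ x y : R, e * ((e * x * e) * (e * y * e)) * e = (e * x * e) * (e * y * e) := by
    intro x y
    rw [← mul_assoc e, hl, mul_assoc, hr]
  -- `e (x y) e` is nil if the product of the components is nil
  have hP : ∀ x y : R, Nl ((e * x * e) * (e * y * e)) → Nl (e * (x * y) * e) := by
    intro x y h
    have h1 := hChi n hn R hM hT e he x y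
    have h2 : e * (x * y - (e * x * e) * (e * y * e)) * e =
        e * (x * y) * e - (e * x * e) * (e * y * e) := by
      rw [mul_sub, sub_mul, hml]
    have h3 := hA ((e * x * e) * (e * y * e)) (x * y - (e * x * e) * (e * y * e))
      (by rw [hml]; exact h) (by rw [h2]; exact h1)
    rwa [add_sub_cancel] at h3
  have hB : ∀ r x : R, Nl (e * x * e) → Nl (e * (r * x) * e) ∧ Nl (e * (x * r) * e) := by
    intro r x hx
    have h1 := (hSnl n hn R hM e he _ _ (hl x) (hr x) (hl r) (hr r) hx).1
    exact ⟨hP r x h1.2, hP x r h1.1⟩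
  refine ⟨hA, hB, fun x hx => ?_⟩
  rcases hPrl n hn R hM e he (e * x * e) (hl x) (hr x) with h | ⟨z, z1, z2, z3, z4⟩
  · exact h
  · exfalso
    have hz : e * z * e = z := by rw [z1, z2]
    -- `Nl (e y e)` and `y = z y'` ...
    have hneg : ∀ y : R, Nl (e * y * e) → Nl (e * (-y) * e) := by
      intro y hy
      have : Nl (-(e * y * e)) := by
        unfold Nl at hy ⊢
        simp [hy]
      simpa using this
    have key : ∀ y : R, Nl (e * (x * y) * e) → Nl (e * y * e) := by
      intro y hy
      have h1 := (hB z (x * y) hy).1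
      -- `e (z (x y)) e` is congruent to `z (e x e) (e y e)`
      have h2 := hChi n hn R hM hT e he x y
      have h3 : e * ((e * x * e) * (e * y * e)) * e = (e * x * e) * (e * y * e) := hml x y
      have h4 : Nl (e * ((e * x * e) * (e * y * e)) * e) := by
        have h5 : e * (x * y - (e * x * e) * (e * y * e)) * e =
            e * (x * y) * e - (e * x * e) * (e * y * e) := by rw [mul_sub, sub_mul, hml]
        have h6 := hA (x * y) (-(x * y - (e * x * e) * (e * y * e))) hy
          (hneg _ (by rw [h5]; exact h2))
        rwa [← sub_eq_add_neg, sub_sub_cancel] at h6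
      have h7 := (hB z _ h4).1
      have h8 : z * ((e * x * e) * (e * y * e)) = e * y * e := by
        rw [← mul_assoc, z4, hl]
      rw [h8, hl, hr] at h7
      exact h7
    have h0 : Nl (e * (x * (x * x)) * e) := by
      have : x * (x * x) = 0 := by rw [← mul_assoc]; exact hx
      rw [this, mul_zero, zero_mul]
      simp [Nl]
    have h1 := key x (key (x * x) h0)
    have h2 := (hSnl n hn R hM e he _ _ (hl x) (hr x) z1 z2 h1).1.1
    rw [z3] at h2
    apply he0
    have h3 : e * e * e = 0 := h2
    rwa [he1, he1] at h3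

end Pool.Agent.CRL
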