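import Pool.Agent.CRL.St

/-!
Campaign CRL, module Prt (helper38): a generator of the residue field of a primitive idempotent.
-/

set_option autoImplicit false

namespace Pool.Agent.CRL

open Pool.Agent.CRR Pool.Agent.CRN Pool.Agent.CRK

theorem Prt_map {R Q : Type} [NonUnitalRing R] [NonUnitalRing Q] (q : R →ₙ+* Q) (x : R) (m : ℕ) :
    q (pw x m) = pw (q x) m := by
  induction m with
  | zero => rfl
  | succ m ih =>
    show q (pw x m * x) = pw (q x) m * q x
    rw [map_mul, ih]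

theorem thm_Prt (hPrf : St_Prf) (hQuo : St_Quo) (hPrl : St_Prl) : St_Prt := by
  intro n p R _ _ hC e he
  obtain ⟨r, hr⟩ := hC.pr
  obtain ⟨Q, _, _, q, hq, hk, -, -⟩ := hQuo n hC.n4 R hC.inM hC.nt
  have hee := he.1
  have lift : ∀ y : Q, q e * y = y → y * q e = y → ∃ x, e * x = x ∧ x * e = x ∧ q x = y := by
    intro y h1 h2
    obtain ⟨x, rfl⟩ := hq y
    refine ⟨e * x * e, ?_, ?_, ?_⟩
    · rw [← mul_assoc, ← mul_assoc, hee]
    · rw [mul_assoc, hee]
    · rw [map_mul, map_mul, h1, h2]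
  have hF : Fld Q (q e) := by
    refine ⟨by rw [← map_mul, hee], ?_, ?_⟩
    · intro h
      have h1 : Nl e := (hk e).1 h
      have h2 : e * e * e = 0 := h1
      rw [hee, hee] at h2
      exact he.2.1 h2
    · intro y h1 h2 h3
      obtain ⟨x, hx1, hx2, rfl⟩ := lift y h1 h2
      rcases hPrl n hC.n4 R hC.inM e he x hx1 hx2 with h | ⟨z, hz1, hz2, hz3, -⟩
      · exact absurd ((hk x).2 h) h3
      · exact ⟨q z, by rw [← map_mul, hz1], by rw [← map_mul, hz2], by rw [← map_mul, hz3]⟩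
  have hrQ : ∀ y : Q, (p ^ r) • y = 0 := by
    intro y
    obtain ⟨x, rfl⟩ := hq y
    rw [← map_nsmul, hr, map_zero]
  obtain ⟨t', m, h1, h2, h3, h4, h5, h6, h7⟩ := hPrf Q p r hC.pp hrQ (q e) hF
  obtain ⟨t, ht1, ht2, rfl⟩ := lift t' h1 h2
  refine ⟨t, m, ht1, ht2, fun h => h3 ((hk t).2 h), h4, h5, ?_, ?_⟩
  · rw [← hk, map_sub, Prt_map, h6, sub_self]
  · intro x hx1 hx2
    rcases h7 (q x) (by rw [← map_mul, hx1]) (by rw [← map_mul, hx2]) with h | ⟨k, h⟩
    · exact Or.inl ((hk x).1 h)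
    · right
      exact ⟨k, by rw [← hk, map_sub, Prt_map, h, sub_self]⟩

end Pool.Agent.CRL
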