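import Pool.Agent.CRL.St
import Pool.Agent.CRN.Pws

/-!
Campaign CRL, module Tei (helper38): the power which makes the order of an element prime to `p`.
-/

set_option autoImplicit false

namespace Pool.Agent.CRL

open Pool.Agent.CRR Pool.Agent.CRN Pool.Agent.CRK

theorem Tei_pp {R : Type} [NonUnitalRing R] (x : R) (a b : ℕ) :
    pw (pw x a) b = pw x (a + b * (a + 1)) := by
  induction b with
  | zero => rw [Nat.zero_mul, Nat.add_zero]; rfl
  | succ b ih =>
    show pw (pw x a) b * pw x a = _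
    rw [ih, Pws_mul]
    congr 1
    ring

theorem Tei_comm {R : Type} [NonUnitalRing R] (x : R) (a b : ℕ) :
    pw (pw x a) b = pw (pw x b) a := by
  rw [Tei_pp, Tei_pp]
  congr 1
  ring

theorem Tei_idem {R : Type} [NonUnitalRing R] (e : R) (he : e * e = e) (a : ℕ) : pw e a = e := by
  induction a with
  | zero => rfl
  | succ a ih =>
    show pw e a * e = e
    rw [ih, he]

theorem Tei_gcd (P : ℕ → Prop) (h0 : P 0) (ha : ∀ a b, P a → P b → P (a + b))
    (hs : ∀ a b, P a → P (a + b) → P b) (m n : ℕ) : P m → P n → P (Nat.gcd m n) := by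
  have hm : ∀ a k, P a → P (a * k) := by
    intro a k h
    induction k with
    | zero => exact h0
    | succ k ih =>
      rw [Nat.mul_succ]
      exact ha _ _ ih h
  induction m, n using Nat.gcd.induction with
  | H0 n => intro _ h; rwa [Nat.gcd_zero_left]
  | H1 m n hm0 ih =>
    intro h1 h2
    rw [Nat.gcd_rec]
    apply ih _ h1
    apply hs (m * (n / m)) _ (hm _ _ h1)
    rwa [Nat.div_add_mod]

theorem Tei_add {R : Type} [NonUnitalRing R] (x : R) (a b : ℕ) (h : pw x a = x) :
    pw x (a + b) = pw x b := by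
  cases b with
  | zero => exact h
  | succ b =>
    rw [← Nat.add_assoc, ← Pws_mul, h]
    show pw x 0 * pw x b = _
    rw [Pws_mul, Nat.zero_add]

theorem Tei_dvd {R : Type} [NonUnitalRing R] (x : R) (m n l : ℕ) (hm : pw x m = x)
    (hn : pw x n = x) (hl : Nat.gcd m n ∣ l) : pw x l = x := by
  have h1 := Tei_gcd (fun a => pw x a = x) rfl (fun a b ha hb => by rw [Tei_add x a b ha]; exact hb)
    (fun a b ha hb => by rw [← Tei_add x a b ha]; exact hb) m n hm hn
  obtain ⟨k, rfl⟩ := hl
  induction k with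
  | zero => rfl
  | succ k ih =>
    rw [Nat.mul_succ, Nat.add_comm, Tei_add x _ _ h1]
    exact ih

theorem thm_Tei : St_Tei := by
  intro n p hn hp
  have hN : n - 3 ≠ 0 := by omega
  have hAB : p ^ (n - 3).factorization p * ((n - 3) / p ^ (n - 3).factorization p) = n - 3 :=
    Nat.ordProj_mul_ordCompl_eq_self (n - 3) p
  have hcop : Nat.Coprime p ((n - 3) / p ^ (n - 3).factorization p) :=
    Nat.coprime_ordCompl hp hN
  set A := p ^ (n - 3).factorization p with hA
  set B := (n - 3) / p ^ (n - 3).factorization p with hB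
  have hc : Nat.Coprime A B := by
    rw [hA]
    exact hcop.pow_left _
  obtain ⟨k0, hk1, hk2⟩ := Nat.chineseRemainder hc 0 1
  have hA0 : 0 < A := pow_pos hp.pos _
  have hB0 : 0 < B := by
    rcases Nat.eq_zero_or_pos B with h | h
    · rw [h, Nat.mul_zero] at hAB
      exact absurd hAB.symm hN
    · exact h
  have hK3 : 3 ≤ k0 + 3 * (A * B) := by
    have : 1 ≤ A * B := Nat.mul_pos hA0 hB0
    omega
  have hKA : A ∣ k0 + 3 * (A * B) := by
    apply Nat.dvd_add
    · exact (Nat.modEq_zero_iff_dvd).1 hk1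
    · exact Dvd.intro (3 * B) (by ring)
  have hKB : B ∣ (k0 + 3 * (A * B)) - 1 := by
    have h1 : 1 ≡ k0 + 3 * (A * B) [MOD B] := by
      have h2 : k0 + 3 * (A * B) ≡ 1 + 0 [MOD B] := by
        apply Nat.ModEq.add hk2
        rw [Nat.modEq_zero_iff_dvd]
        exact Dvd.intro_left (3 * A) (by ring)
      exact h2.symm
    exact (Nat.modEq_iff_dvd' (by omega)).1 h1
  refine ⟨k0 + 3 * (A * B), hK3, ?_⟩
  generalize k0 + 3 * (A * B) = K at hK3 hKA hKB
  obtain ⟨k, rfl⟩ : ∃ k, K = k + 1 := ⟨K - 1, by omega⟩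
  rw [Nat.add_sub_cancel] at hKB ⊢
  intro R _ hR
  refine ⟨?_, ?_, ?_⟩
  · intro x
    refine ⟨B, hB0, hcop.symm, ?_⟩
    rw [Tei_pp]
    obtain ⟨c, hc'⟩ := hKA
    have h1 : k + B * (k + 1) = 2 + (k - 2) + c * (n - 3) := by
      rw [hc', ← hAB]
      have : 2 + (k - 2) = k := by omega
      rw [this]
      ring
    rw [h1, Pws_addj hn hR]
    congr 1
    omega
  · intro x m hm hmp hx
    have h2 : pw x (2 * m) = x := by
      rw [two_mul, Tei_add x m m hx, hx]
    have h3 : pw x (n - 3) = x := by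
      have h4 := Pws_addj hn hR x (2 * m - 2) 1
      have h5 : 2 + (2 * m - 2) = 2 * m := by omega
      rw [h5, h2, one_mul, Tei_add x _ _ h2] at h4
      exact h4
    apply Tei_dvd x m (n - 3) k hx h3
    refine dvd_trans ?_ hKB
    have h6 : Nat.Coprime (Nat.gcd m (n - 3)) A := by
      rw [hA]
      exact (Nat.Coprime.coprime_dvd_left (Nat.gcd_dvd_left _ _) hmp).pow_right _
    apply h6.dvd_of_dvd_mul_left
    rw [hAB]
    exact Nat.gcd_dvd_right _ _
  · intro x
    show pw (pw x k) (3 * (n - 3) - 1) = pw x (3 * (n - 3) - 1)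
    rw [Tei_comm]
    exact Tei_idem _ (thm_Pws n hn R hR x).1 _

end Pool.Agent.CRL
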