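import Pool.Agent.CRL.St
import Pool.Agent.CRL.Tei
import Pool.Agent.CRL.Prt
import Pool.Agent.CRN.Pws

/-!
Campaign CRL, module Cnt (helper38): counting the residue ring.
-/

set_option autoImplicit false

namespace Pool.Agent.CRL

open Pool.Agent.CRR Pool.Agent.CRN Pool.Agent.CRK

/-- The combination with the exponents `f i`. -/
def Cnt_C {Q : Type} [NonUnitalRing Q] {s : ℕ} (y : Fin s → Q) (f : Fin s → ℕ) : Q :=
  ∑ i, if f i = 0 then 0 else pw (y i) (f i - 1)

theorem Cnt_per {Q : Type} [NonUnitalRing Q] (y g : Q) (o : ℕ) (ho : 1 ≤ o)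
    (h : pw y (o - 1) = g) (hg : y * g = y) (a j : ℕ) : pw y (a + o * j) = pw y a := by
  induction j with
  | zero => rw [Nat.mul_zero, Nat.add_zero]
  | succ j ih =>
    have h1 : a + o * (j + 1) = (a + o * j) + (o - 1) + 1 := by
      rw [Nat.mul_succ]
      omega
    rw [h1, ← Pws_mul, h, Pws_i2 y g hg, ih]

/-- Equal powers give a smaller exponent. -/
theorem Cnt_eq {n : ℕ} (hn : 4 ≤ n) {Q : Type} [NonUnitalRing Q] (hQ : InM n Q) (y : Q)
    (hy : om n y * y = y) (a d : ℕ) (ha : 1 ≤ a) (hd : 1 ≤ d)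
    (h : pw y (a - 1) = pw y (a + d - 1)) : pw y (d - 1) = om n y := by
  have hid : om n y * om n y = om n y := (thm_Pws n hn Q hQ y).1
  have h1 : pw y (3 * (n - 3) * a - 1) = om n y := by
    have h2 := Tei_pp y (3 * (n - 3) - 1) (a - 1)
    have h3 : pw (om n y) (a - 1) = om n y := Tei_idem _ hid _
    have h4 : 3 * (n - 3) - 1 + (a - 1) * (3 * (n - 3) - 1 + 1) = 3 * (n - 3) * a - 1 := by
      obtain ⟨a', rfl⟩ : ∃ a', a = a' + 1 := ⟨a - 1, by omega⟩
      obtain ⟨w, hw⟩ : ∃ w, 3 * (n - 3) = w + 1 := ⟨3 * (n - 3) - 1, by omega⟩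
      rw [hw, Nat.add_sub_cancel, Nat.add_sub_cancel]
      have h5 : (w + 1) * (a' + 1) = w + a' * (w + 1) + 1 := by ring
      rw [h5, Nat.add_sub_cancel]
    rw [h4] at h2
    rw [← h2]
    exact h3
  have hlt : a < 3 * (n - 3) * a := by
    have h6 : 3 ≤ 3 * (n - 3) := by omega
    have h7 : 3 * a ≤ 3 * (n - 3) * a := Nat.mul_le_mul_right a h6
    omega
  obtain ⟨c, hc⟩ : ∃ c, 3 * (n - 3) * a = a + c + 1 := ⟨3 * (n - 3) * a - a - 1, by omega⟩
  have h8 : pw y (a - 1) * pw y c = om n y := by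
    rw [Pws_mul, ← h1]
    congr 1
    omega
  have h9 : pw y (a + d - 1) * pw y c = pw y (d - 1) := by
    have h10 : pw y (3 * (n - 3) * a - 1) * pw y (d - 1) = pw y (d - 1) := by
      rw [h1]
      exact Pws_i1 y _ hy _
    rw [Pws_mul] at h10 ⊢
    rw [← h10]
    congr 1
    omega
  rw [← h9, ← h8, h]

theorem thm_Cnt (hGen : St_Gen) (hQuo : St_Quo) (hFpr : St_Fpr) : St_Cnt := by
  intro n p R _ _ hC s t hF o ho τ hτ1 hτ2 hτ3 hτ4 x
  have hn := hC.n4
  have hR := hC.inM
  obtain ⟨Q, _, _, q, hq, hk, hQ, -⟩ := hQuo n hn R hR hC.nt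
  obtain ⟨-, hf1, -⟩ := hFpr n p R hC s t hF
  have hqom : ∀ z : R, q (om n z) = om n (q z) := fun z => Prt_map q z _
  -- surjectivity for `t`
  have hsur : ∀ y : Q, ∃ f : (i : Fin s) → Fin (o i + 1),
      Cnt_C (fun i => q (t i)) (fun i => (f i : ℕ)) = y := by
    intro y
    obtain ⟨z, rfl⟩ := hq y
    obtain ⟨c, hc1, hc2⟩ := hGen n p R hC s t hF z
    have hz : q z = ∑ i, q (c i) := by
      have := (hk _).2 hc2
      rwa [map_sub, map_sum, sub_eq_zero] at this
    have hex : ∀ i, ∃ k : Fin (o i + 1),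
        (if (k : ℕ) = 0 then 0 else pw (q (t i)) ((k : ℕ) - 1)) = q (c i) := by
      intro i
      rcases hc1 i with h | ⟨k, h⟩
      · refine ⟨⟨0, by omega⟩, ?_⟩
        rw [h, map_zero]
        simp
      · have ho1 := (ho i).one
        have hlt : k % o i < o i := Nat.mod_lt _ (by omega)
        refine ⟨⟨k % o i + 1, by omega⟩, ?_⟩
        rw [if_neg (Nat.succ_ne_zero _), h, Prt_map]
        show pw (q (t i)) (k % o i + 1 - 1) = _
        rw [Nat.add_sub_cancel]
        have h1 : pw (q (t i)) (o i - 1) = q (om n (t i)) := by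
          have := (hk _).2 (ho i).nl
          rwa [map_sub, Prt_map, sub_eq_zero] at this
        have h2 : q (t i) * q (om n (t i)) = q (t i) := by rw [← map_mul, (hf1 i).1]
        rw [← Cnt_per (q (t i)) _ (o i) ho1 h1 h2 (k % o i) (k / o i), Nat.mod_add_div]
    choose f hf using hex
    exact ⟨f, by rw [hz]; exact Finset.sum_congr rfl fun i _ => hf i⟩
  -- injectivity for `τ`
  have hnil : ∀ i k, pw (q (τ i)) k ≠ 0 := by
    intro i k h
    rw [← Prt_map] at h
    have h1 : pw (pw (τ i) k) 2 = 0 := (hk _).1 h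
    rw [Tei_pp] at h1
    exact hτ3 i ((thm_Pws n hn R hR (τ i)).2.2.2.2.1 _ h1)
  have hg1 : ∀ i, om n (q (τ i)) * q (τ i) = q (τ i) := by
    intro i
    rw [← hqom, ← map_mul, ← (thm_Pws n hn R hR (τ i)).2.1, hτ2]
  have hg2 : ∀ i j, i ≠ j → om n (q (τ i)) * q (τ j) = 0 := by
    intro i j hij
    rw [← hqom, ← map_mul, (thm_Pws n hn R hR (τ i)).2.2.2.2.2.2.1 _ (hτ1 i j hij), map_zero]
  have hlt : ∀ i a d, 1 ≤ a → 1 ≤ d → d < o i →
      pw (q (τ i)) (a - 1) ≠ pw (q (τ i)) (a + d - 1) := by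
    intro i a d ha hd hdo h
    have h1 := Cnt_eq hn hQ (q (τ i)) (hg1 i) a d ha hd h
    apply hτ4 i d hd hdo
    rw [← hk, map_sub, Prt_map, hqom, h1, sub_self]
  have hinj : Function.Injective (fun f : (i : Fin s) → Fin (o i + 1) =>
      Cnt_C (fun i => q (τ i)) (fun i => (f i : ℕ))) := by
    intro f f' hff
    have hmul : ∀ (g : Fin s → ℕ) (i : Fin s), om n (q (τ i)) * Cnt_C (fun i => q (τ i)) g =
        if g i = 0 then 0 else pw (q (τ i)) (g i - 1) := by
      intro g i
      rw [Cnt_C, Finset.mul_sum, Finset.sum_eq_single i]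
      · by_cases h0 : g i = 0
        · rw [if_pos h0, mul_zero]
        · rw [if_neg h0, Pws_i1 _ _ (hg1 i)]
      · intro j _ hj
        by_cases h0 : g j = 0
        · rw [if_pos h0, mul_zero]
        · rw [if_neg h0, Pws_z1 _ _ (hg2 i j (Ne.symm hj))]
      · intro h
        exact absurd (Finset.mem_univ i) h
    funext i
    apply Fin.ext
    have h1 := hmul (fun i => (f i : ℕ)) i
    have h2 := hmul (fun i => (f' i : ℕ)) i
    have h3 : Cnt_C (fun i => q (τ i)) (fun i => (f i : ℕ)) =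
      Cnt_C (fun i => q (τ i)) (fun i => (f' i : ℕ)) := hff
    rw [h3, h2] at h1
    have hfi : (f i : ℕ) < o i + 1 := (f i).2
    have hfi' : (f' i : ℕ) < o i + 1 := (f' i).2
    generalize (f i : ℕ) = a at h1 hfi
    generalize (f' i : ℕ) = b at h1 hfi'
    by_cases ha : a = 0
    · by_cases hb : b = 0
      · rw [ha, hb]
      · rw [if_pos ha, if_neg hb] at h1
        exact absurd h1 (hnil i _)
    · by_cases hb : b = 0
      · rw [if_neg ha, if_pos hb] at h1
        exact absurd h1.symm (hnil i _)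
      · rw [if_neg ha, if_neg hb] at h1
        rcases lt_trichotomy a b with h | h | h
        · exfalso
          apply hlt i a (b - a) (by omega) (by omega) (by omega)
          have h4 : a + (b - a) = b := by omega
          rw [h4, h1]
        · exact h
        · exfalso
          apply hlt i b (a - b) (by omega) (by omega) (by omega)
          have h4 : b + (a - b) = a := by omega
          rw [h4, h1]
  choose σ hσ using hsur
  have hσinj : Function.Injective σ := by
    intro y y' h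
    rw [← hσ y, ← hσ y', h]
  have hsur' := Finite.surjective_of_injective (hinj.comp hσinj)
  obtain ⟨y, hy⟩ := hsur' (q x)
  have hy' : Cnt_C (fun i => q (τ i)) (fun i => (σ y i : ℕ)) = q x := hy
  refine ⟨fun i => if (σ y i : ℕ) = 0 then 0 else pw (τ i) ((σ y i : ℕ) - 1), ?_, ?_⟩
  · intro i
    by_cases h : (σ y i : ℕ) = 0
    · exact Or.inl (if_pos h)
    · exact Or.inr ⟨_, if_neg h⟩
  · rw [← hk, map_sub, map_sum, ← hy', Cnt_C, sub_eq_zero]
    apply Finset.sum_congr rfl
    intro i _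
    by_cases h : (σ y i : ℕ) = 0
    · rw [if_pos h, if_pos h, map_zero]
    · rw [if_neg h, if_neg h, Prt_map]

end Pool.Agent.CRL
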