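import Pool.Agent.CRL.St

/-!
# CRL, CRD: the order of a ring of prime power exponent (helper21)
-/

set_option autoImplicit false

namespace Pool.Agent.CRL

open Pool.Agent.CRR Pool.Agent.CRN Pool.Agent.CRK

private theorem Crd_card (R : Type) [NonUnitalRing R] [Finite R] (p r : ℕ) (hp : p.Prime)
    (h : ∀ x : R, (p ^ r) • x = 0) : ∃ k, Nat.card R = p ^ k := by
  have : Fact p.Prime := ⟨hp⟩
  have h1 : IsPGroup p (Multiplicative R) := fun g => ⟨r, by
    have h2 := h g.toAdd
    apply Multiplicative.toAdd.injective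
    rw [toAdd_pow, h2, toAdd_one]⟩
  have h3 : ∃ k, Nat.card (Multiplicative R) = p ^ k := IsPGroup.iff_card.1 h1
  exact h3

theorem thm_Crd : St_Crd := by
  intro R _ _ p r hp h
  obtain ⟨k, hk⟩ := Crd_card R p r hp h
  rw [hk]
  refine ⟨fun m hm => hm.pow_right k, ?_⟩
  rintro ⟨x, hx⟩ m hm
  have hk1 : k ≠ 0 := by
    rintro rfl
    rw [pow_zero] at hk
    have h1 := (Nat.card_eq_one_iff_unique.1 hk).1
    exact hx (Subsingleton.elim x 0)
  exact hm.coprime_dvd_right (dvd_pow_self p hk1)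

end Pool.Agent.CRL
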