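import Pool.Agent.CRL.St
import Pool.Agent.CRN.Pws

/-!
Campaign CRL, module Dte: the detectors.
-/

set_option autoImplicit false

namespace Pool.Agent.CRL

open Pool.Agent.CRR Pool.Agent.CRN Pool.Agent.CRK

theorem Dte_om_nil {R : Type} [NonUnitalRing R] {n : ℕ} (hn : 4 ≤ n) {y : R} (h : Nl y) :
    om n y = 0 := by
  unfold om
  have h1 : ∀ a, pw y (2 + a) = 0 := by
    intro a
    induction a with
    | zero => exact h
    | succ a ih =>
      show pw y (2 + a) * y = 0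
      rw [ih, zero_mul]
  have h2 : 3 * (n - 3) - 1 = 2 + (3 * (n - 3) - 3) := by omega
  rw [h2]
  exact h1 _

theorem Dte_dk_J {R : Type} [NonUnitalRing R] {n : ℕ} {J : AddSubgroup R} (hJ : Idl R J) (x : R)
    (l : ℕ) (h : dk n x l ∈ J) : ∀ j, l ≤ j → dk n x j ∈ J := by
  intro j hj
  induction j, hj using Nat.le_induction with
  | base => exact h
  | succ j _ ih => exact (hJ _ _ ih).2

theorem Dte_one (hJil : St_Jil) {n p : ℕ} {R : Type} [NonUnitalRing R] [Finite R] (hC : Cy R n p)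
    (o : ℕ) (x : R) (h : DT n o x ≠ 0) :
    ¬ Nl x ∧ ∀ l, 1 ≤ l → l < o → ¬ Nl (pw x (l - 1) - om n x) := by
  obtain ⟨J, hJ, hJN⟩ := hJil n hC.n4 R hC.inM hC.nt
  constructor
  · intro hx
    apply h
    refine Dte_om_nil hC.n4 ((hJN _).1 ?_)
    exact Dte_dk_J hJ x 0 ((hJN _).2 hx) _ (Nat.zero_le _)
  · intro l hl1 hlo hx
    apply h
    refine Dte_om_nil hC.n4 ((hJN _).1 ?_)
    refine Dte_dk_J hJ x l ?_ _ (by omega)
    obtain ⟨k, rfl⟩ : ∃ k, l = k + 1 := ⟨l - 1, by omega⟩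
    have h2 : k + 1 - 1 = k := by omega
    rw [h2] at hx
    exact (hJ (dk n x k) _ ((hJN _).2 hx)).1

theorem Dte_two (hPrl : St_Prl) (hFpr : St_Fpr) {n p : ℕ} {R : Type} [NonUnitalRing R] [Finite R]
    (hC : Cy R n p) (s : ℕ) (t : Fin s → R) (hF : Frame R n s t) (i : Fin s) (o : ℕ)
    (hO : Ord n o (t i)) : DT n o (t i) = om n (t i) := by
  obtain ⟨h1, h2, -⟩ := hFpr n p R hC s t hF
  have he : Prm R (om n (t i)) := h1.prm i
  obtain ⟨a1, a2, a3, -⟩ := h2 i
  obtain ⟨e, hed⟩ : ∃ e, e = om n (t i) := ⟨_, rfl⟩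
  obtain ⟨x, hxd⟩ : ∃ x, x = t i := ⟨_, rfl⟩
  rw [← hxd] at hed hO a1 a2 a3
  rw [← hed] at a1 a2
  rw [← hxd, ← hed] at he
  have hee : e * e = e := he.1
  rw [← hxd, ← hed]
  have key : ∀ j, j < o → e * dk n x j = dk n x j ∧ dk n x j * e = dk n x j ∧
      ∃ y, e * y = y ∧ y * e = y ∧ dk n x j * y = e ∧ y * dk n x j = e := by
    intro j hj
    induction j with
    | zero => exact ⟨a2, a1, (hPrl n hC.n4 R hC.inM e he x a2 a1).resolve_left a3⟩
    | succ j ih =>
      obtain ⟨b1, b2, y, b3, b4, b5, b6⟩ := ih (by omega)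
      have c0 : ¬ Nl (pw x j - e) := by
        have := hO.min (j + 1) (by omega) hj
        rw [← hed] at this
        exact this
      have c1 : e * (pw x j - e) = pw x j - e := by
        rw [mul_sub, hee, Pws_i1 x e a2]
      have c2 : (pw x j - e) * e = pw x j - e := by
        rw [sub_mul, hee, Pws_i2 x e a1]
      obtain ⟨z, d3, d4, d5, d6⟩ := (hPrl n hC.n4 R hC.inM e he _ c1 c2).resolve_left c0
      have hdk : dk n x (j + 1) = dk n x j * (pw x j - e) := by
        rw [hed]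
        rfl
      rw [hdk]
      refine ⟨by rw [← mul_assoc, b1], by rw [mul_assoc, c2], z * y, ?_, ?_, ?_, ?_⟩
      · rw [← mul_assoc, d3]
      · rw [mul_assoc, b4]
      · rw [mul_assoc, ← mul_assoc (pw x j - e), d5, b3, b5]
      · rw [mul_assoc, ← mul_assoc y, b6, c1, d6]
  have ho : o - 1 < o := by
    have := hO.one
    omega
  obtain ⟨b1, b2, y, -, -, b5, -⟩ := key (o - 1) ho
  obtain ⟨D, hD⟩ : ∃ D, D = dk n x (o - 1) := ⟨_, rfl⟩
  rw [← hD] at b1 b2 b5
  have hDT : DT n o x = om n D := by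
    rw [hD]
    rfl
  rw [hDT]
  obtain ⟨g1, -, -, g4, -⟩ := thm_Pws n hC.n4 R hC.inM D
  have g2 : e * om n D = om n D := Pws_i1 D e b1 _
  have g3 : om n D * e = om n D := Pws_i2 D e b2 _
  rcases he.2.2 _ g1 g2 g3 with h0 | h0
  · exfalso
    have h3 := g4 h0
    have h4 : D * D = 0 := by
      have : D * D * D * y = D * D := by rw [mul_assoc, b5, mul_assoc, b2]
      rw [← this, h3, zero_mul]
    have h5 : D = 0 := by
      have : D * D * y = D := by rw [mul_assoc, b5, b2]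
      rw [← this, h4, zero_mul]
    apply he.2.1
    rw [← b5, h5, zero_mul]
  · exact h0

theorem Dte_pw_mem {R : Type} [NonUnitalRing R] (S : NonUnitalSubring R) {x : R} (hx : x ∈ S)
    (m : ℕ) : pw x m ∈ S := by
  induction m with
  | zero => exact hx
  | succ m ih => exact mul_mem ih hx

theorem Dte_dk_mem {R : Type} [NonUnitalRing R] (n : ℕ) (S : NonUnitalSubring R) {x : R}
    (hx : x ∈ S) (j : ℕ) : dk n x j ∈ S := by
  induction j with
  | zero => exact hx
  | succ j ih => exact mul_mem ih (sub_mem (Dte_pw_mem S hx j) (Dte_pw_mem S hx _))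

theorem Dte_pw_tm {R : Type} [NonUnitalRing R] {φ : (ℕ → R) → R} (h : TmF φ) (m : ℕ) :
    TmF (fun v => pw (φ v) m) := by
  induction m with
  | zero => exact h
  | succ m ih => exact ih.mul h

theorem Dte_dk_tm {R : Type} [NonUnitalRing R] (n : ℕ) {φ : (ℕ → R) → R} (h : TmF φ) (j : ℕ) :
    TmF (fun v => dk n (φ v) j) := by
  induction j with
  | zero => exact h
  | succ j ih => exact ih.mul ((Dte_pw_tm h j).sub (Dte_pw_tm h _))

theorem thm_Dte (hJil : St_Jil) (hPrl : St_Prl) (hFpr : St_Fpr) : St_Dte := by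
  refine ⟨fun n p R _ _ hC => ⟨fun o x h => Dte_one hJil hC o x h, fun s t hF i o hO =>
    Dte_two hPrl hFpr hC s t hF i o hO⟩, fun n o R _ => ⟨fun S x hx => ?_, fun φ hφ => ?_⟩⟩
  · exact Dte_pw_mem S (Dte_dk_mem n S hx _) _
  · exact Dte_pw_tm (Dte_dk_tm n hφ _) _

end Pool.Agent.CRL
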