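import Pool.Agent.CRL.St
import Pool.Agent.CRL.Tei
import Pool.Agent.CRN.Pws

/-!
Campaign CRL, module Fpr (helper38): the idempotents of a frame.
-/

set_option autoImplicit false

namespace Pool.Agent.CRL

open Pool.Agent.CRR Pool.Agent.CRN Pool.Agent.CRK

theorem Fpr_nil {R : Type} [NonUnitalRing R] (x : R) (h : Nl x) (c : ℕ) : pw x (2 + c) = 0 := by
  have h2 : pw x 2 = 0 := h
  cases c with
  | zero => exact h2
  | succ c => rw [← Nat.add_assoc, ← Pws_mul, h2, zero_mul]

/-- A nonzero periodic element. -/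
theorem Fpr_per {n : ℕ} (hn : 4 ≤ n) {R : Type} [NonUnitalRing R] (hR : InM n R) (x : R)
    (m : ℕ) (hm : 1 ≤ m) (hx : pw x m = x) :
    x * om n x = x ∧ om n x * x = x ∧ (x ≠ 0 → ¬ Nl x) ∧ pw x (m - 1) = om n x := by
  obtain ⟨p1, p2, p3, p4, p5, p6, p7, p8, p9, p10, -⟩ := thm_Pws n hn R hR x
  have h3 : pw x (2 + (3 * m - 2)) = x := by
    have h4 : 2 + (3 * m - 2) = m + (m + m) := by omega
    rw [h4, Tei_add x _ _ hx, Tei_add x _ _ hx, hx]
  have hc : ∀ c, pw x (2 + c) * om n x = pw x (2 + c) := by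
    intro c
    have h2 : pw x 2 * om n x = pw x 2 := p3
    cases c with
    | zero => exact h2
    | succ c =>
      have h5 : pw x (2 + (c + 1)) = pw x c * pw x 2 := by
        rw [Pws_mul]
        congr 1
        omega
      rw [h5, mul_assoc, h2]
  have h6 : x * om n x = x := by
    have h7 := hc (3 * m - 2)
    rwa [h3] at h7
  refine ⟨h6, ?_, ?_, ?_⟩
  · rw [← p2]
    exact h6
  · intro h0 hnl
    apply h0
    rw [← h3]
    exact Fpr_nil x hnl _
  · have h8 : pw x (m - 1) * x = x := by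
      have h9 : pw x (m - 1 + 1) = x := by rwa [Nat.sub_add_cancel hm]
      exact h9
    rw [← Pws_i2 x (om n x) h6 (m - 1)]
    exact p8 _ h8

theorem thm_Fpr (hQuo : St_Quo) : St_Fpr := by
  intro n p R _ _ hC s t hF
  have hn := hC.n4
  have hR := hC.inM
  obtain ⟨Q, _, _, q, hq, hk, -, -⟩ := hQuo n hn R hR hC.nt
  have hmap : ∀ (x : R) (m : ℕ), q (pw x m) = pw (q x) m := by
    intro x m
    induction m with
    | zero => rfl
    | succ m ih =>
      show q (pw x m * x) = pw (q x) m * q x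
      rw [map_mul, ih]
  have hper : ∀ i, t i * om n (t i) = t i ∧ om n (t i) * t i = t i ∧ ¬ Nl (t i) ∧
      ∀ m, 1 ≤ m → pw (t i) m = t i → pw (t i) (m - 1) = om n (t i) := by
    intro i
    obtain ⟨m, hm1, -, hm2⟩ := hF.per i
    obtain ⟨h1, h2, h3, -⟩ := Fpr_per hn hR (t i) m hm1 hm2
    exact ⟨h1, h2, h3 (hF.ne i), fun m' hm' hx' => (Fpr_per hn hR (t i) m' hm' hx').2.2.2⟩
  have horth : ∀ i j, i ≠ j → om n (t i) * t j = 0 ∧ t i * om n (t j) = 0 := by
    intro i j hij
    obtain ⟨p1, p2, p3, p4, p5, p6, p7, -⟩ := thm_Pws n hn R hR (t i)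
    obtain ⟨p1', p2', p3', p4', p5', p6', p7', -⟩ := thm_Pws n hn R hR (t j)
    exact ⟨p7 _ (hF.orth i j hij), p6' _ (hF.orth i j hij)⟩
  have hid : ∀ g : R, g * g = g → Nl g → g = 0 := by
    intro g hg hn
    have h1 : g * g * g = 0 := hn
    rwa [hg, hg] at h1
  refine ⟨⟨?_, ?_, ?_⟩, hper, horth⟩
  · intro i
    obtain ⟨p1, p2, p3, p4, p5, p6, p7, p8, p9, p10, -⟩ := thm_Pws n hn R hR (t i)
    obtain ⟨h1, h2, h3, -⟩ := hper i
    refine ⟨p1, fun h => h3 (p4 h), ?_⟩
    intro g hg hg1 hg2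
    rcases hF.gen i g hg1 hg2 with h4 | ⟨k, h4⟩
    · exact Or.inl (hid g hg h4)
    · have hg3 : (om n (t i) - g) * (om n (t i) - g) = om n (t i) - g := by
        rw [mul_sub, sub_mul, sub_mul, p1, hg1, hg2, hg, sub_self, sub_zero]
      rcases hF.gen i (om n (t i) - g) (by rw [mul_sub, p1, hg1]) (by rw [sub_mul, p1, hg2])
        with h5 | ⟨l, h5⟩
      · right
        exact (sub_eq_zero.1 (hid _ hg3 h5)).symm
      · exfalso
        have h6 : q g = pw (q (t i)) k := by
          have := (hk _).2 h4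
          rwa [map_sub, hmap, sub_eq_zero] at this
        have h7 : q (om n (t i) - g) = pw (q (t i)) l := by
          have := (hk _).2 h5
          rwa [map_sub, hmap, sub_eq_zero] at this
        have h8 : g * (om n (t i) - g) = 0 := by rw [mul_sub, hg2, hg, sub_self]
        have h9 : q (pw (t i) (k + l + 1)) = 0 := by
          rw [hmap, ← Pws_mul, ← h6, ← h7, ← map_mul, h8, map_zero]
        have h10 : pw (pw (t i) (k + l + 1)) 2 = 0 := (hk _).1 h9
        rw [Tei_pp] at h10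
        exact h3 (p5 _ h10)
  · intro i j hij
    obtain ⟨p1', p2', p3', p4', p5', p6', p7', -⟩ := thm_Pws n hn R hR (t j)
    exact p6' _ (horth i j hij).1
  · intro g hg h
    apply hF.max g hg
    intro i
    obtain ⟨h1, h2, -⟩ := hper i
    constructor
    · rw [← h1, mul_assoc, (h i).1, mul_zero]
    · rw [← h2, ← mul_assoc, (h i).2, zero_mul]

end Pool.Agent.CRL
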