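import Pool.Agent.CRL.St

/-!
# CRL, module Frt
-/

set_option autoImplicit false

namespace Pool.Agent.CRL

open Pool.Agent.CRR Pool.Agent.CRN Pool.Agent.CRK

theorem Frt_pw_l {R : Type} [NonUnitalRing R] (e x : R) (h : e * x = x) (k : ℕ) :
    e * pw x k = pw x k := by
  induction k with
  | zero => exact h
  | succ k ih => rw [pw, ← mul_assoc, ih]

theorem Frt_pw_r {R : Type} [NonUnitalRing R] (e x : R) (h : x * e = x) (k : ℕ) :
    pw x k * e = pw x k := by
  cases k with
  | zero => exact h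
  | succ k => rw [pw, mul_assoc, h]

theorem Frt_pw_l0 {R : Type} [NonUnitalRing R] (e x : R) (h : e * x = 0) (k : ℕ) :
    e * pw x k = 0 := by
  induction k with
  | zero => exact h
  | succ k ih => rw [pw, ← mul_assoc, ih, zero_mul]

theorem Frt_pw_r0 {R : Type} [NonUnitalRing R] (e x : R) (h : x * e = 0) (k : ℕ) :
    pw x k * e = 0 := by
  cases k with
  | zero => exact h
  | succ k => rw [pw, mul_assoc, h, mul_zero]

theorem Frt_comm {R : Type} [NonUnitalRing R] (x : R) (k : ℕ) : pw x k * x = x * pw x k := by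
  induction k with
  | zero => rfl
  | succ k ih =>
    have e : pw x (k + 1) = pw x k * x := rfl
    rw [e, ← mul_assoc, ← ih]

theorem Frt_sum {R : Type} [NonUnitalRing R] {s : ℕ} (e c : Fin s → R) (i : Fin s)
    (h1 : e i * c i = c i) (h2 : ∀ j, j ≠ i → e i * c j = 0) :
    e i * ∑ j, c j = c i := by
  rw [Finset.mul_sum, Finset.sum_eq_single i]
  · exact h1
  · intro j _ hj
    exact h2 j hj
  · intro h
    exact absurd (Finset.mem_univ i) h

theorem thm_Frt (hC : St_Cnt) (hJ : St_Jil) : St_Frt := by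
  intro n p R _ _ hcy s t hfr o ho τ horth hom hnl hpr hper
  obtain ⟨J, hJi, hJn⟩ := hJ n hcy.n4 R hcy.inM hcy.nt
  have hcnt := hC n p R hcy s t hfr o ho τ horth hom hnl hpr
  have hom' : ∀ i, om n (τ i) * τ i = τ i := by
    intro i
    have h1 : om n (τ i) * τ i = τ i * om n (τ i) := Frt_comm (τ i) _
    rw [h1, hom i]
  have h0 : ∀ i j, j ≠ i → ∀ k, om n (τ i) * pw (τ j) k = 0 := by
    intro i j hj k
    refine Frt_pw_l0 _ _ ?_ k
    exact Frt_pw_r0 _ _ (horth i j (Ne.symm hj)) _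
  have hsum : ∀ (c : Fin s → R), (∀ i, c i = 0 ∨ ∃ k, c i = pw (τ i) k) → ∀ i,
      om n (τ i) * ∑ j, c j = c i := by
    intro c hc i
    refine Frt_sum (fun i => om n (τ i)) c i ?_ ?_
    · rcases hc i with h | ⟨k, h⟩
      · rw [h, mul_zero]
      · rw [h]
        exact Frt_pw_l _ _ (hom' i) k
    · intro j hj
      rcases hc j with h | ⟨k, h⟩
      · rw [h, mul_zero]
      · rw [h]
        exact h0 i j hj k
  refine ⟨horth, fun i h => hnl i ?_, hper, fun i x hx1 hx2 => ?_, fun g hg hgo => ?_⟩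
  · rw [h]
    unfold Nl
    rw [mul_zero]
  · obtain ⟨c, hc, hn⟩ := hcnt x
    have h1 := (hJn _).2 hn
    have h2 := (hJi (om n (τ i)) _ h1).1
    rw [mul_sub, hx1, hsum c hc i] at h2
    have h3 := (hJn _).1 h2
    rcases hc i with h | ⟨k, h⟩
    · left
      rwa [h, sub_zero] at h3
    · right
      exact ⟨k, by rwa [h] at h3⟩
  · obtain ⟨c, hc, hn⟩ := hcnt g
    have h1 := (hJn _).2 hn
    have h2 : ∀ i, c i ∈ J := by
      intro i
      have h3 := (hJi (om n (τ i)) _ h1).1
      have h4 : om n (τ i) * g = 0 := Frt_pw_r0 _ _ (hgo i).1 _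
      rw [mul_sub, h4, hsum c hc i, zero_sub] at h3
      exact (AddSubgroup.neg_mem_iff J).1 h3
    have h5 : g ∈ J := by
      have h6 := J.add_mem h1 (J.sum_mem (t := Finset.univ) (f := c) fun i _ => h2 i)
      rwa [sub_add_cancel] at h6
    have h6 := (hJn _).1 h5
    unfold Nl at h6
    rwa [hg, hg] at h6

end Pool.Agent.CRL
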