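import Pool.Agent.CRL.St
import Pool.Agent.CRL.Prt
import Pool.Agent.CRN.Pws

/-!
Campaign CRL, module Frx (helper38): existence of frames.
-/

set_option autoImplicit false

namespace Pool.Agent.CRL

open Pool.Agent.CRR Pool.Agent.CRN Pool.Agent.CRK

theorem thm_Frx (hPfx : St_Pfx) (hPrt : St_Prt) (hTei : St_Tei) (hQuo : St_Quo) (hCrd : St_Crd) :
    St_Frx := by
  intro n p R _ _ hC
  have hn := hC.n4
  have hR := hC.inM
  obtain ⟨r, hr⟩ := hC.pr
  obtain ⟨Q, _, _, q, hq, hk, hQ, -⟩ := hQuo n hn R hR hC.nt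
  obtain ⟨s, e, hP⟩ := hPfx R
  obtain ⟨K, hK3, hK⟩ := hTei n p hn hC.pp
  choose t' m ht1 ht2 ht3 ht4 ht5 ht6 ht7 using fun i => hPrt n p R hC (e i) (hP.prm i)
  have hqt : ∀ i, q (pw (t' i) (K - 1)) = q (t' i) := by
    intro i
    rw [Prt_map]
    apply (hK Q hQ).2.1 (q (t' i)) (m i) (ht4 i) (ht5 i)
    have := (hk _).2 (ht6 i)
    rwa [map_sub, Prt_map, sub_eq_zero] at this
  have he1 : ∀ i, e i * pw (t' i) (K - 1) = pw (t' i) (K - 1) := fun i => Pws_i1 _ _ (ht1 i) _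
  have he2 : ∀ i, pw (t' i) (K - 1) * e i = pw (t' i) (K - 1) := fun i => Pws_i2 _ _ (ht2 i) _
  have hnl : ∀ i, ¬ Nl (pw (t' i) (K - 1)) := by
    intro i h
    have h1 := (hk _).2 h
    rw [hqt] at h1
    exact ht3 i ((hk _).1 h1)
  have hom : ∀ i, om n (pw (t' i) (K - 1)) = e i := by
    intro i
    obtain ⟨p1, p2, p3, p4, p5, p6, p7, p8, p9, p10, -⟩ :=
      thm_Pws n hn R hR (pw (t' i) (K - 1))
    rcases (hP.prm i).2.2 _ p1 (p8 _ (he1 i)) (p9 _ (he2 i)) with h | h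
    · exact absurd (p4 h) (hnl i)
    · exact h
  refine ⟨s, fun i => pw (t' i) (K - 1), ?_, ?_, ?_, ?_, ?_⟩
  · intro i j hij
    show pw (t' i) (K - 1) * pw (t' j) (K - 1) = 0
    rw [← he2 i, ← he1 j, mul_assoc, ← mul_assoc (e i), hP.orth i j hij, zero_mul, mul_zero]
  · intro i h
    apply hnl i
    show pw (t' i) (K - 1) * pw (t' i) (K - 1) * pw (t' i) (K - 1) = 0
    have h' : pw (t' i) (K - 1) = 0 := h
    rw [h', mul_zero]
  · intro i
    obtain ⟨m', h1, h2, h3⟩ := (hK R hR).1 (t' i)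
    exact ⟨m', h1, (hCrd R p r hC.pp hr).1 m' h2, h3⟩
  · intro i x h1 h2
    have h1' : om n (pw (t' i) (K - 1)) * x = x := h1
    have h2' : x * om n (pw (t' i) (K - 1)) = x := h2
    rw [hom] at h1' h2'
    rcases ht7 i x h1' h2' with h | ⟨k, h⟩
    · exact Or.inl h
    · right
      refine ⟨k, ?_⟩
      rw [← hk] at h ⊢
      rw [map_sub, Prt_map] at h ⊢
      rw [hqt]
      exact h
  · intro g hg h
    apply hP.max g hg
    intro i
    obtain ⟨p1, p2, p3, p4, p5, p6, p7, p8, p9, p10, -⟩ :=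
      thm_Pws n hn R hR (pw (t' i) (K - 1))
    have h1 : pw (t' i) (K - 1) * g = 0 := (h i).1
    have h2 : g * pw (t' i) (K - 1) = 0 := (h i).2
    rw [← hom i]
    exact ⟨p7 _ h1, p6 _ h2⟩

end Pool.Agent.CRL
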