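import Pool.Agent.CRL.St
import Pool.Agent.CRN.Pca

/-!
Campaign CRL, module FVX (helper18).
-/

set_option autoImplicit false

namespace Pool.Agent.CRL

open Pool.Agent.CRR Pool.Agent.CRN Pool.Agent.CRK

theorem thm_Fvx : St_Fvx := by
  intro R _ s e h1 h2 hJ α β γ δ A B C hab hac had hbc hbd hcd hA hB hC
  obtain ⟨hm, -⟩ := CRN.thm_Pca R s e h1 h2
  have aa : A * A = 0 := (hm _ _ _ _ _ _ hA hA).2 hab.symm
  have bb : B * B = 0 := (hm _ _ _ _ _ _ hB hB).2 hbc.symm
  have cc : C * C = 0 := (hm _ _ _ _ _ _ hC hC).2 hcd.symm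
  have ac : A * C = 0 := (hm _ _ _ _ _ _ hA hC).2 hbc
  have ba : B * A = 0 := (hm _ _ _ _ _ _ hB hA).2 hac.symm
  have ca : C * A = 0 := (hm _ _ _ _ _ _ hC hA).2 had.symm
  have cb : C * B = 0 := (hm _ _ _ _ _ _ hC hB).2 hbd.symm
  have nA : Nl A := by
    unfold Nl
    rw [aa, zero_mul]
  have nB : Nl B := by
    unfold Nl
    rw [bb, zero_mul]
  have nC : Nl C := by
    unfold Nl
    rw [cc, zero_mul]
  have key : (A + B + C) * (A + B + C) * (A + B + C) = 0 := hJ _ _ (hJ _ _ nA nB) nC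
  have e1 : (A + B + C) * (A + B + C) = A * B + B * C := by
    simp only [add_mul, mul_add, aa, bb, cc, ac, ba, ca, cb, zero_add, add_zero]
  have e2 : (A * B + B * C) * (A + B + C) = A * B * C := by
    simp only [add_mul, mul_add, mul_assoc, bb, cc, ba, ca, cb, mul_zero, zero_add, add_zero]
  rw [e1, e2] at key
  exact key

end Pool.Agent.CRL
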