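import Pool.Agent.CRL.St
import Pool.Agent.CRN.Sir

/-!
Campaign CRL, module Fwd: critical rings are of functional type.
-/

set_option autoImplicit false

namespace Pool.Agent.CRL

open Pool.Agent.CRR Pool.Agent.CRN Pool.Agent.CRK

theorem thm_Fwd (hJil : St_Jil) (hSel : St_Sel) (hPch : St_Pch) (hThr : St_Thr) (hWrf : St_Wrf)
    (hVvx : St_Vvx) : St_Fwd := by
  intro n p R _ _ hC hcr
  obtain ⟨H, hH⟩ := CRN.thm_Sir R hcr
  obtain ⟨J, hJ, hJm⟩ := hJil n hC.n4 R hC.inM hC.nt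
  obtain ⟨s, b, φ, hb5, hφ⟩ := hSel n p R hC hcr H hH
  obtain ⟨α, β, v₀, hv₀⟩ := hPch n p R hC s b H φ hφ.toGb
  have hs3 := hThr n p R hC H hH s b φ hφ.toGb α β v₀ hv₀
  obtain ⟨L, hL1, hL2, hL3⟩ := hWrf n p R hC s b H φ hφ.toGb
  obtain ⟨hV, hW⟩ := hVvx n R s b
  have hval : ∀ (t : Fin s → R) (x : Fin b → R), Frame R n s t → (∀ k, Nl (x k)) →
      Val L t x = φ (vv t x) := by
    intro t x ht hx
    exact (hL3 _ ((hV t x).2.2.2.1 ht hx)).symm
  have hupd : ∀ (x : Fin b → R) (k : Fin b) (w : R), (∀ j, Nl (x j)) → Nl w →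
      ∀ j, Nl (Function.update x k w j) := by
    intro x k w hx hw j
    rw [Function.update_apply]
    split
    · exact hw
    · exact hx j
  refine ⟨H, hH, s, b, L, hs3, hb5, hL1, hL2, ?_, ?_⟩
  · intro t x ht hx
    have hvec := (hV t x).2.2.2.1 ht hx
    refine ⟨?_, ?_, ?_, ?_⟩
    · rw [hval t x ht hx]
      exact hφ.val _ hvec
    · intro k y z hy hz
      have hyz : Nl (y * z) := (hJm _).1 (hJ y z ((hJm z).2 hz)).1
      have hys : Nl (y + z) := (hJm _).1 (J.add_mem ((hJm y).2 hy) ((hJm z).2 hz))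
      rw [hval _ _ ht (hupd x k _ hx hyz), hval _ _ ht (hupd x k _ hx hys),
        hval _ _ ht (hupd x k _ hx hy), hval _ _ ht (hupd x k _ hx hz),
        (hV t x).2.2.2.2.2, (hV t x).2.2.2.2.2, (hV t x).2.2.2.2.2, (hV t x).2.2.2.2.2]
      exact ⟨hφ.sq _ hvec k k.2 y z hy hz, hφ.add _ hvec k k.2 y z hy hz⟩
    · intro k hk
      rw [hval t x ht hx]
      refine hφ.cf _ hvec k k.2 ?_
      rw [(hV t x).2.2.2.2.1, (hV t x).2.1]
      exact hk
    · intro S hS h1 h2
      rw [hval t x ht hx]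
      refine hφ.van _ hvec S hS fun i hi => ?_
      by_cases h3 : i < s
      · have := (hV t x).1 ⟨i, h3⟩
        rw [this]
        exact h1 _
      · have h4 : i - s < b := by omega
        have h5 := (hV t x).2.1 ⟨i - s, h4⟩
        have h6 : s + (i - s) = i := by omega
        simp only [h6] at h5
        rw [h5]
        exact h2 _
  · obtain ⟨v, hv, hne⟩ := hφ.ne
    refine ⟨fun i : Fin s => v i, fun k : Fin b => v (s + k), hv.1, fun k => hv.2 k k.2, ?_⟩
    rw [hval _ _ hv.1 fun k => hv.2 k k.2, hφ.dep _ v (hW v)]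
    exact hne

end Pool.Agent.CRL
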