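import Pool.Agent.CRL.St

/-!
# CRL, module Gen
-/

set_option autoImplicit false

namespace Pool.Agent.CRL

open Pool.Agent.CRR Pool.Agent.CRN Pool.Agent.CRK

theorem Gen_pw_l {R : Type} [NonUnitalRing R] (e x : R) (h : e * x = x) (k : ℕ) :
    e * pw x k = pw x k := by
  induction k with
  | zero => exact h
  | succ k ih => rw [pw, ← mul_assoc, ih]

theorem Gen_pw_r {R : Type} [NonUnitalRing R] (e x : R) (h : x * e = x) (k : ℕ) :
    pw x k * e = pw x k := by
  cases k with
  | zero => exact h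
  | succ k => rw [pw, mul_assoc, h]

theorem Gen_pw_l0 {R : Type} [NonUnitalRing R] (e x : R) (h : e * x = 0) (k : ℕ) :
    e * pw x k = 0 := by
  induction k with
  | zero => exact h
  | succ k ih => rw [pw, ← mul_assoc, ih, zero_mul]

theorem Gen_sum {R : Type} [NonUnitalRing R] {s : ℕ} (e c : Fin s → R) (i : Fin s)
    (h1 : e i * c i = c i) (h2 : ∀ j, j ≠ i → e i * c j = 0) :
    e i * ∑ j, c j = c i := by
  rw [Finset.mul_sum, Finset.sum_eq_single i]
  · exact h1
  · intro j _ hj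
    exact h2 j hj
  · intro h
    exact absurd (Finset.mem_univ i) h

theorem thm_Gen (hF : St_Fpr) (hM : St_Mch) : St_Gen := by
  intro n p R _ _ hcy s t hfr x
  obtain ⟨hpf, hti, hij⟩ := hF n p R hcy s t hfr
  have hid : ∀ i, om n (t i) * om n (t i) = om n (t i) := fun i => (hpf.prm i).1
  have hc : ∀ i : Fin s, ∃ c : R, (c = 0 ∨ ∃ k, c = pw (t i) k) ∧
      Nl (om n (t i) * x * om n (t i) - c) := by
    intro i
    have e1 : om n (t i) * (om n (t i) * x * om n (t i)) = om n (t i) * x * om n (t i) := by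
      rw [← mul_assoc, ← mul_assoc, hid]
    have e2 : om n (t i) * x * om n (t i) * om n (t i) = om n (t i) * x * om n (t i) := by
      rw [mul_assoc, hid]
    rcases hfr.gen i _ e1 e2 with h | ⟨k, h⟩
    · exact ⟨0, Or.inl rfl, by rwa [sub_zero]⟩
    · exact ⟨pw (t i) k, Or.inr ⟨k, rfl⟩, h⟩
  choose c hc1 hc2 using hc
  refine ⟨c, hc1, hM n hcy.n4 R hcy.inM hcy.nt s _ hpf _ fun i => ?_⟩
  have h1 : om n (t i) * c i = c i := by
    rcases hc1 i with h | ⟨k, h⟩
    · rw [h, mul_zero]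
    · rw [h]
      exact Gen_pw_l _ _ (hti i).2.1 k
  have h2 : ∀ j, j ≠ i → om n (t i) * c j = 0 := by
    intro j hj
    rcases hc1 j with h | ⟨k, h⟩
    · rw [h, mul_zero]
    · rw [h]
      exact Gen_pw_l0 _ _ (hij i j (Ne.symm hj)).1 k
  have h3 : c i * om n (t i) = c i := by
    rcases hc1 i with h | ⟨k, h⟩
    · rw [h, zero_mul]
    · rw [h]
      exact Gen_pw_r _ _ (hti i).1 k
  have h4 := Gen_sum (fun i => om n (t i)) c i h1 h2
  have h5 : om n (t i) * (x - ∑ i, c i) * om n (t i) = om n (t i) * x * om n (t i) - c i := by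
    rw [mul_sub, sub_mul]
    rw [h4, h3]
  rw [h5]
  exact hc2 i

end Pool.Agent.CRL
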