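import Pool.Agent.CRL.St

/-!
Campaign CRL, module GVT: the substituted sequence consists of term functions.
-/

set_option autoImplicit false

namespace Pool.Agent.CRL

open Pool.Agent.CRR Pool.Agent.CRN Pool.Agent.CRK

section gvt

variable {R : Type} [NonUnitalRing R]

theorem Gvt_sum : ∀ (s : ℕ) (f : Fin s → (ℕ → R) → R), (∀ i, TmF (f i)) →
    TmF (fun v => ∑ i, f i v) := by
  intro s
  induction s with
  | zero =>
    intro f _
    simpa using (TmF.zero (R := R))
  | succ s ih =>
    intro f hf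
    have h := (ih (fun i => f i.castSucc) (fun i => hf _)).add (hf (Fin.last s))
    refine (?_ : TmF (fun v => ∑ i, f i v))
    simp only [Fin.sum_univ_castSucc]
    exact h

theorem Gvt_lc {s : ℕ} {d : ℕ → (ℕ → R) → R} (hd : ∀ i, TmF (d i)) (a : Option (Fin s))
    {φ : (ℕ → R) → R} (h : TmF φ) : TmF (fun v => lc (fun i => d i v) a (φ v)) := by
  cases a with
  | some i => exact (hd i).mul h
  | none => exact h.sub (Gvt_sum s (fun i v => d i v * φ v) fun i => (hd i).mul h)

theorem Gvt_rc {s : ℕ} {d : ℕ → (ℕ → R) → R} (hd : ∀ i, TmF (d i)) (a : Option (Fin s))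
    {φ : (ℕ → R) → R} (h : TmF φ) : TmF (fun v => rc (fun i => d i v) a (φ v)) := by
  cases a with
  | some i => exact h.mul (hd i)
  | none => exact h.sub (Gvt_sum s (fun i v => φ v * d i v) fun i => h.mul (hd i))

theorem Gvt_rd (n : ℕ) {φ : (ℕ → R) → R} (h : TmF φ) : TmF (fun v => rd n (φ v)) :=
  h.sub (h.mul (h.om n))

theorem Gvt_rd_zero (n : ℕ) : rd n (0 : R) = 0 := by simp [rd]

theorem Gvt_lc_zero {s : ℕ} (d : ℕ → R) (a : Option (Fin s)) : lc d a (0 : R) = 0 := by
  cases a <;> simp [lc]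

theorem Gvt_rc_zero {s : ℕ} (d : ℕ → R) (a : Option (Fin s)) : rc d a (0 : R) = 0 := by
  cases a <;> simp [rc]

end gvt

theorem thm_Gvt (hDte : St_Dte) (hRdx : St_Rdx) : St_Gvt := by
  intro n p K R _ _ hCy hta1 hta2 s b o α β
  have hdv : ∀ i, TmF (fun v : ℕ → R => dv n K o v i) := fun i =>
    (hDte.2 n (o i) R).2 _ (hta1 i)
  have hgv : ∀ i, TmF (fun v : ℕ → R => gv n K s b o α β v i) := by
    intro i
    unfold gv
    by_cases h1 : i < s
    · simp only [h1, if_true]
      exact hta1 i
    · by_cases h2 : i < s + b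
      · simp only [h1, h2, if_true, if_false]
        exact Gvt_rd n (Gvt_rc hdv (β (i - s)) (Gvt_lc hdv (α (i - s)) (TmF.var i)))
      · simp only [h1, h2, if_false]
        exact TmF.zero
  have hgs : ∀ (v : ℕ → R) (k : ℕ), k < b → gv n K s b o α β v (s + k) =
      rd n (rc (dv n K o v) (β k) (lc (dv n K o v) (α k) (v (s + k)))) := by
    intro v k hk
    have h1 : ¬ s + k < s := by omega
    have h2 : s + k < s + b := by omega
    have h3 : s + k - s = k := by omega
    unfold gv
    rw [if_neg h1, if_pos h2, h3]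
  refine ⟨hgv, fun S v hv i => (hgv i).mem S v hv, ?_, ?_, hdv, fun S v hv i => (hdv i).mem S v hv⟩
  · intro v k hk
    rw [hgs v k hk]
    exact ((hRdx n hCy.n4 R hCy.inM).1 _).1
  · rintro v k i hk (h | h) h0
    · rw [hgs v k hk, h]
      have : lc (dv n K o v) (some i) (v (s + k)) = 0 := by
        change dv n K o v i * v (s + k) = 0
        rw [h0, zero_mul]
      rw [this, Gvt_rc_zero, Gvt_rd_zero]
    · rw [hgs v k hk, h]
      have : rc (dv n K o v) (some i) (lc (dv n K o v) (α k) (v (s + k))) = 0 := by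
        change lc (dv n K o v) (α k) (v (s + k)) * dv n K o v i = 0
        rw [h0, mul_zero]
      rw [this, Gvt_rd_zero]

end Pool.Agent.CRL
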