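import Pool.Agent.CRL.St
import Pool.Agent.CRN.Pws
import Pool.Agent.CRN.Prb

/-!
Campaign CRL, module Jil: the nil elements are an ideal.
-/

set_option autoImplicit false

namespace Pool.Agent.CRL

open Pool.Agent.CRR Pool.Agent.CRN Pool.Agent.CRK

theorem thm_Jil (hChn : St_Chn) : St_Jil := by
  intro n hn R _ _ hM hT
  have hneg : ∀ y : R, Nl y → Nl (-y) := by
    intro y hy
    unfold Nl at hy ⊢
    simp [hy]
  let J : AddSubgroup R :=
    { carrier := {x | ∀ e : R, Prm R e → Nl (e * x * e)}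
      zero_mem' := fun e _ => by simp [Nl]
      add_mem' := fun {x y} hx hy e he => (hChn n hn R hM hT e he).1 x y (hx e he) (hy e he)
      neg_mem' := fun {x} hx e he => by
        have := hneg _ (hx e he)
        simpa using this }
  have hJ : Idl R J := by
    intro r x hx
    exact ⟨fun e he => ((hChn n hn R hM hT e he).2.1 r x (hx e he)).1,
      fun e he => ((hChn n hn R hM hT e he).2.1 r x (hx e he)).2⟩
  refine ⟨J, hJ, fun x => ⟨fun hx => ?_, fun hx e he => (hChn n hn R hM hT e he).2.2 x hx⟩⟩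
  by_contra hnl
  obtain ⟨p1, p2, p3, p4, p5, p6, p7, p8, p9, p10, y, y1, -⟩ := CRN.thm_Pws n hn R hM x
  have hg0 : om n x ≠ 0 := fun h => hnl (p4 h)
  have hg : om n x ∈ J := by
    rw [← y1]
    exact (hJ y x hx).2
  obtain ⟨e, he, h1, h2⟩ := CRN.thm_Prb R (om n x) p1 hg0
  have h3 : Nl (e * om n x * e) := hg e he
  rw [h2, he.1] at h3
  apply he.2.1
  have h4 : e * e * e = 0 := h3
  rwa [he.1, he.1] at h4

end Pool.Agent.CRL
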