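import Pool.Agent.CRL.St
import Pool.Agent.CRK.Lib

/-!
Campaign CRL, module Lis: products with many factors in an ideal.
-/

set_option autoImplicit false

namespace Pool.Agent.CRL

open Pool.Agent.CRR Pool.Agent.CRN Pool.Agent.CRK

theorem Lis_mul {R : Type} [NonUnitalRing R] (J : AddSubgroup R) (hJ : Idl R J) (a : R)
    (ha : a ∈ J) (l : List R) : wp (a :: l) ∈ J := by
  rcases eq_or_ne l [] with rfl | hl
  · exact ha
  · rw [Lib_cons a hl]
    exact (hJ _ _ ha).2

theorem thm_Lis : St_Lis := by
  intro R _ J hJ l1 l h
  induction h with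
  | slnil => intro h; exact absurd rfl h
  | @cons l1 l a h ih =>
    intro hne hin
    obtain ⟨l', h1, h2, h3⟩ := ih hne hin
    have hl : l ≠ [] := by
      rintro rfl
      exact hne (List.sublist_nil.1 h)
    cases l' with
    | nil =>
      exact absurd (List.length_eq_zero_iff.1 h1.symm) hne
    | cons y r =>
      refine ⟨(a * y) :: r, by simpa using h1, ?_, ?_⟩
      · intro x hx
        rcases List.mem_cons.1 hx with rfl | hx
        · exact (hJ a y (h2 y List.mem_cons_self)).1
        · exact h2 x (List.mem_cons_of_mem _ hx)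
      · rw [Lib_cons a hl, ← h3]
        rcases eq_or_ne r [] with rfl | hr
        · rfl
        · rw [Lib_cons _ hr, Lib_cons _ hr, mul_assoc]
  | @cons_cons l1 l a h ih =>
    intro _ hin
    rcases eq_or_ne l1 [] with rfl | hne
    · exact ⟨[wp (a :: l)], rfl, fun x hx => by
        rw [List.mem_singleton.1 hx]
        exact Lis_mul J hJ a (hin a List.mem_cons_self) l, rfl⟩
    · obtain ⟨l', h1, h2, h3⟩ := ih hne fun x hx => hin x (List.mem_cons_of_mem _ hx)
      have hl : l ≠ [] := by
        rintro rfl
        exact hne (List.sublist_nil.1 h)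
      have hl' : l' ≠ [] := by
        rintro rfl
        exact hne (List.length_eq_zero_iff.1 h1.symm)
      refine ⟨a :: l', by simp [h1], ?_, ?_⟩
      · intro x hx
        rcases List.mem_cons.1 hx with rfl | hx
        · exact hin _ List.mem_cons_self
        · exact h2 x hx
      · rw [Lib_cons a hl, Lib_cons a hl', h3]

end Pool.Agent.CRL
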