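import Pool.Agent.CRL.St
import Pool.Agent.CRN.All

/-!
Campaign CRL, module Mai: the theorem from the statements of the parts C and D.
-/

set_option autoImplicit false

namespace Pool.Agent.CRL

open Pool.Agent.CRR Pool.Agent.CRN Pool.Agent.CRK

theorem thm_Mai (hFwd : St_Fwd) (hBgb : St_Bgb) (hBkw : St_Bkw) (hBkz : St_Bkz) : St_Mai := by
  intro n hn R _ _ hM
  have hfo : Finite Rᵐᵒᵖ := Finite.of_equiv R MulOpposite.opEquiv
  have hcy : ¬ Twn R → ∀ H : AddSubgroup R, Lst R H → ∃ p, Cy R n p := by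
    intro hT H hH
    obtain ⟨p, r, hp, hr, -⟩ := CRN.thm_Ppw R H hH
    exact ⟨p, hn, hM, hT, hp, r, hr⟩
  constructor
  · intro hc
    by_cases hT : Twn R
    · rcases CRN.twg n hn R hM (CRN.thm_Sir R hc) hT with h | h | h | h
      · exact Or.inl h
      · exact Or.inr (Or.inl h)
      · exact Or.inr (Or.inr (Or.inl h))
      · exact Or.inr (Or.inr (Or.inr (Or.inl h)))
    · obtain ⟨H, hH⟩ := CRN.thm_Sir R hc
      obtain ⟨p, hC⟩ := hcy hT H hH
      exact Or.inr (Or.inr (Or.inr (Or.inr ⟨hT, hFwd n p R hC hc⟩)))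
  · rintro (h | h | h | h | ⟨hT, h⟩)
    · exact CRN.cm2 n hn R hM h
    · exact CRN.cm3 n hn R hM h
    · exact CRN.ctr n hn R hM h
    · exact (CRN.thm_Opp R).1 (CRN.ctr n hn Rᵐᵒᵖ ((CRN.thm_Opp R).2.1 n hM) h)
    · obtain ⟨H', hH', -⟩ := id h
      obtain ⟨p, hC⟩ := hcy hT H' hH'
      obtain ⟨H, s, b, φ, hH, hφ⟩ := hBgb n p R hC h
      rcases Nat.eq_zero_or_pos b with rfl | hb
      · exact hBkz n p R hC H s φ hH hφ
      · exact hBkw n p R hC H s b φ hH hφ hb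

end Pool.Agent.CRL
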