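import Pool.Agent.CRL.St
import Pool.Agent.CRN.Pws
import Pool.Agent.CRN.Prb

/-!
Campaign CRL, module Mch: the radical is determined by the diagonal components.
-/

set_option autoImplicit false

namespace Pool.Agent.CRL

open Pool.Agent.CRR Pool.Agent.CRN Pool.Agent.CRK

theorem Mch_cube {R : Type} [NonUnitalRing R] (g e : R) (hg : g * g = g) (he : e * e = e)
    (h : Nl (e * g * e)) : pw (g * e * g) 3 = 0 := by
  have h1 : (e * g * e) * (e * g * e) * (e * g * e) = 0 := h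
  have h2 : pw (g * e * g) 3 = (g * e * g) * (g * e * g) * (g * e * g) * (g * e * g) := rfl
  have h3 : (g * e * g) * (g * e * g) * (g * e * g) * (g * e * g) =
      g * ((e * g * e) * (e * g * e) * (e * g * e)) * g := by
    have a1 : ∀ x : R, g * (g * x) = g * x := fun x => by rw [← mul_assoc, hg]
    have a2 : ∀ x : R, e * (e * x) = e * x := fun x => by rw [← mul_assoc, he]
    simp only [mul_assoc, a1, a2]
  rw [h2, h3, h1, mul_zero, zero_mul]

theorem thm_Mch (hSnl : St_Snl) (hPrl : St_Prl) (hChn : St_Chn) : St_Mch := by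
  classical
  intro n hn R _ _ hM hT s e hP x hx
  by_contra hxn
  have hidem : ∀ i, e i * e i = e i := fun i => (hP.prm i).1
  -- `g`
  obtain ⟨p1, p2, p3, p4, p5, p6, p7, p8, p9, p10, y, hy1, hy2, -, -⟩ := CRN.thm_Pws n hn R hM x
  obtain ⟨g, hg⟩ : ∃ g, g = om n x := ⟨_, rfl⟩
  rw [← hg] at p1 p4 hy1
  have hg0 : g ≠ 0 := fun h => hxn (p4 h)
  have hgJ : ∀ i, Nl (e i * g * e i) := by
    intro i
    rw [← hy1]
    exact ((hChn n hn R hM hT (e i) (hP.prm i)).2.1 y x (hx i)).2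
  -- `g'`
  obtain ⟨g', hg'P, hg'1, hg'2⟩ := CRN.thm_Prb R g p1 hg0
  have hg'g' : g' * g' = g' := hg'P.1
  have hg'J : ∀ i, Nl (e i * g' * e i) := by
    intro i
    have h1 := ((hChn n hn R hM hT (e i) (hP.prm i)).2.1 g' g (hgJ i)).2
    rwa [hg'1] at h1
  -- `a_i`
  have hnil : ∀ i, Nl (g' * e i * g') := by
    intro i
    have h1 := Mch_cube g' (e i) hg'g' (hidem i) (hg'J i)
    obtain ⟨-, -, -, -, q5, -⟩ := CRN.thm_Pws n hn R hM (g' * e i * g')
    exact q5 3 h1
  have hleft : ∀ r : R, g' * (g' * r) = g' * r := fun r => by rw [← mul_assoc, hg'g']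
  obtain ⟨a, ha⟩ : ∃ a, a = ∑ i, g' * e i * g' := ⟨_, rfl⟩
  have hsum : g' * a = a ∧ a * g' = a ∧ Nl a := by
    rw [ha]
    apply Finset.sum_induction (fun i => g' * e i * g') (fun r => g' * r = r ∧ r * g' = r ∧ Nl r)
    · rintro b c ⟨hb1, hb2, hb3⟩ ⟨hc1, hc2, hc3⟩
      refine ⟨by rw [mul_add, hb1, hc1], by rw [add_mul, hb2, hc2], ?_⟩
      exact (hSnl n hn R hM g' hg'P b c hb1 hb2 hc1 hc2 hb3).2 hc3
    · exact ⟨mul_zero _, zero_mul _, by unfold Nl; simp⟩
    · intro i _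
      refine ⟨?_, ?_, hnil i⟩
      · rw [mul_assoc, hleft]
      · rw [mul_assoc, hg'g']
  obtain ⟨ha1, ha2, ha3⟩ := hsum
  -- `v`
  obtain ⟨v, hv⟩ : ∃ v, v = g' - a := ⟨_, rfl⟩
  have hv1 : g' * v = v := by rw [hv, mul_sub, hg'g', ha1]
  have hv2 : v * g' = v := by rw [hv, sub_mul, hg'g', ha2]
  have hvn : ¬ Nl v := by
    intro h
    have h1 := (hSnl n hn R hM g' hg'P v a hv1 hv2 ha1 ha2 h).2 ha3
    have h2 : v + a = g' := by rw [hv]; abel
    rw [h2] at h1
    have h3 : g' * g' * g' = 0 := h1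
    rw [hg'g', hg'g'] at h3
    exact hg'P.2.1 h3
  rcases hPrl n hn R hM g' hg'P v hv1 hv2 with h | ⟨z, hz1, hz2, hz3, hz4⟩
  · exact hvn h
  -- `y'`, `w`
  obtain ⟨y', hy'⟩ : ∃ y', y' = g' - ∑ i, e i * g' := ⟨_, rfl⟩
  obtain ⟨w, hw⟩ : ∃ w, w = g' - ∑ i, g' * e i := ⟨_, rfl⟩
  have hey : ∀ i, e i * y' = 0 := by
    intro i
    rw [hy', mul_sub, Finset.mul_sum, Finset.sum_eq_single i]
    · rw [← mul_assoc, hidem, sub_self]
    · intro j _ hj
      rw [← mul_assoc, hP.orth i j (Ne.symm hj), zero_mul]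
    · intro h
      exact absurd (Finset.mem_univ i) h
  have hwe : ∀ i, w * e i = 0 := by
    intro i
    rw [hw, sub_mul, Finset.sum_mul, Finset.sum_eq_single i]
    · rw [mul_assoc, hidem, sub_self]
    · intro j _ hj
      rw [mul_assoc, hP.orth j i hj, mul_zero]
    · intro h
      exact absurd (Finset.mem_univ i) h
  have hwy : w * y' = v := by
    have h1 : w * y' = w * g' := by
      rw [hy', mul_sub, Finset.mul_sum, Finset.sum_eq_zero, sub_zero]
      intro i _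
      rw [← mul_assoc, hwe i, zero_mul]
    rw [h1, hw, sub_mul, hg'g', Finset.sum_mul, hv, ha]
  -- `h`
  obtain ⟨h, hh⟩ : ∃ h, h = y' * z * w := ⟨_, rfl⟩
  have hhh : h * h = h := by
    calc h * h = y' * z * (w * y') * z * w := by rw [hh]; simp only [mul_assoc]
      _ = y' * (z * v) * z * w := by rw [hwy]; simp only [mul_assoc]
      _ = y' * (g' * z) * w := by rw [hz4]; simp only [mul_assoc]
      _ = h := by rw [hz1, hh]
  have hh0 : h = 0 := by
    apply hP.max h hhh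
    intro i
    refine ⟨?_, ?_⟩
    · rw [hh, ← mul_assoc, ← mul_assoc, hey, zero_mul, zero_mul]
    · rw [hh, mul_assoc, hwe, mul_zero]
  have hfin : w * h * y' = v := by
    calc w * h * y' = (w * y') * z * (w * y') := by rw [hh]; simp only [mul_assoc]
      _ = v := by rw [hwy, hz3, hv1]
  rw [hh0, mul_zero, zero_mul] at hfin
  apply hvn
  rw [← hfin]
  unfold Nl
  simp

end Pool.Agent.CRL
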