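import Pool.Agent.CRL.St
import Pool.Agent.CRK.Gdb

/-!
Campaign CRL, module Mnc: minimal number of variables.
-/

set_option autoImplicit false

namespace Pool.Agent.CRL

open Pool.Agent.CRR Pool.Agent.CRN Pool.Agent.CRK

section

variable {R : Type} [NonUnitalRing R]

/-- Insertion of a value at the place `a`. -/
def Mnc_ins (a : ℕ) (w : (ℕ → R) → R) (v : ℕ → R) : ℕ → R := fun i =>
  if i < a then v i else if i = a then w v else v (i - 1)

theorem Mnc_lt (a : ℕ) (w : (ℕ → R) → R) (v : ℕ → R) {i : ℕ} (h : i < a) :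
    Mnc_ins a w v i = v i := by
  simp [Mnc_ins, h]

theorem Mnc_eq (a : ℕ) (w : (ℕ → R) → R) (v : ℕ → R) : Mnc_ins a w v a = w v := by
  simp [Mnc_ins]

theorem Mnc_gt (a : ℕ) (w : (ℕ → R) → R) (v : ℕ → R) {i : ℕ} (h : a < i) :
    Mnc_ins a w v i = v (i - 1) := by
  have h1 : ¬ i < a := by omega
  have h2 : i ≠ a := by omega
  simp [Mnc_ins, h1, h2]

theorem Mnc_upd (s k : ℕ) (w : (ℕ → R) → R)
    (hw : ∀ v' v'' : ℕ → R, (∀ i, i < s → v' i = v'' i) → w v' = w v'') (v : ℕ → R) (j : ℕ) (x : R) :
    Mnc_ins (s + k) w (Function.update v (s + j) x) =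
      Function.update (Mnc_ins (s + k) w v) (s + (if j < k then j else j + 1)) x := by
  funext i
  rcases lt_trichotomy i (s + k) with h | h | h
  · rw [Mnc_lt _ _ _ h, Function.update_apply, Function.update_apply, Mnc_lt _ _ _ h]
    by_cases hj : j < k
    · rw [if_pos hj]
    · rw [if_neg hj, if_neg (by omega), if_neg (by omega)]
  · subst h
    rw [Mnc_eq, Function.update_apply, Mnc_eq, if_neg (by split <;> omega)]
    exact hw _ _ fun i hi => by rw [Function.update_apply, if_neg (by omega)]
  · rw [Mnc_gt _ _ _ h, Function.update_apply, Function.update_apply, Mnc_gt _ _ _ h]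
    by_cases hj : j < k
    · rw [if_pos hj, if_neg (by omega), if_neg (by omega)]
    · rw [if_neg hj]
      by_cases h3 : i - 1 = s + j
      · rw [if_pos h3, if_pos (by omega)]
      · rw [if_neg h3, if_neg (by omega)]

end

theorem thm_Mnc (hTrm : St_Trm) (hRdx : St_Rdx) : St_Mnc := by
  intro n p R _ _ hC s b H φ hφ hmin
  obtain ⟨hR1, hR2, hR3⟩ := hRdx n hC.n4 R hC.inM
  refine { toGb := hφ, cf := ?_ }
  intro v hv k hk hmem
  by_contra hne
  obtain ⟨ψ₀, htm, hval, hcl, hdep⟩ := hTrm R s v (v (s + k)) hmem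
  set w : (ℕ → R) → R := fun v' => rd n (ψ₀ v') with hw
  have hwdep : ∀ v' v'' : ℕ → R, (∀ i, i < s → v' i = v'' i) → w v' = w v'' := by
    intro v' v'' h
    simp only [hw, hdep v' v'' h]
  have hVec : ∀ v' : ℕ → R, Vec n s (b - 1) v' → Vec n s b (Mnc_ins (s + k) w v') := by
    intro v' h
    refine ⟨?_, fun j hj => ?_⟩
    · have h1 : (fun i : Fin s => Mnc_ins (s + k) w v' i) = fun i : Fin s => v' i := by
        funext i
        exact Mnc_lt _ _ _ (by omega)
      rw [h1]
      exact h.1
    · rcases lt_trichotomy j k with h1 | h1 | h1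
      · rw [Mnc_lt _ _ _ (by omega)]
        exact h.2 j (by omega)
      · subst h1
        rw [Mnc_eq]
        exact (hR1 _).1
      · rw [Mnc_gt _ _ _ (by omega)]
        have h2 : s + j - 1 = s + (j - 1) := by omega
        rw [h2]
        exact h.2 (j - 1) (by omega)
  have hidx : ∀ j, j < b - 1 → (if j < k then j else j + 1) < b := by
    intro j hj
    split <;> omega
  have hat : ∀ (v' : ℕ → R) (j : ℕ), j < b - 1 →
      Mnc_ins (s + k) w v' (s + (if j < k then j else j + 1)) = v' (s + j) := by
    intro v' j hj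
    by_cases h1 : j < k
    · rw [if_pos h1, Mnc_lt _ _ _ (by omega)]
    · rw [if_neg h1, Mnc_gt _ _ _ (by omega)]
      congr 1
  refine hmin (b - 1) (fun v' => φ (Mnc_ins (s + k) w v')) (by omega) ?_
  refine { tm := ?_, dep := ?_, val := ?_, van := ?_, ne := ?_, zer := ?_, add := ?_, sq := ?_ }
  · refine Gdb_comp (u := fun i v' => Mnc_ins (s + k) w v' i) hφ.tm fun i => ?_
    rcases lt_trichotomy i (s + k) with h | h | h
    · simp only [Mnc_lt _ _ _ h]
      exact TmF.var i
    · subst h
      simp only [Mnc_eq]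
      exact hR3 _ htm
    · simp only [Mnc_gt _ _ _ h]
      exact TmF.var (i - 1)
  · intro v' v'' h
    refine hφ.dep _ _ fun i hi => ?_
    rcases lt_trichotomy i (s + k) with h1 | h1 | h1
    · rw [Mnc_lt _ _ _ h1, Mnc_lt _ _ _ h1]
      exact h i (by omega)
    · subst h1
      rw [Mnc_eq, Mnc_eq]
      exact hwdep _ _ fun i hi => h i (by omega)
    · rw [Mnc_gt _ _ _ h1, Mnc_gt _ _ _ h1]
      exact h (i - 1) (by omega)
  · intro v' h
    exact hφ.val _ (hVec v' h)
  · intro v' h S hS hin
    refine hφ.van _ (hVec v' h) S hS fun i hi => ?_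
    rcases lt_trichotomy i (s + k) with h1 | h1 | h1
    · rw [Mnc_lt _ _ _ h1]
      exact hin i (by omega)
    · subst h1
      rw [Mnc_eq]
      refine (hR2 S _ ?_).1
      have h2 : NonUnitalSubring.closure (fs s v') ≤ S := by
        rw [NonUnitalSubring.closure_le]
        rintro x ⟨j, hj, rfl⟩
        exact hin j (by omega)
      exact h2 (hcl v')
    · rw [Mnc_gt _ _ _ h1]
      exact hin (i - 1) (by omega)
  · set v' : ℕ → R := fun i => if i < s + k then v i else v (i + 1) with hv'
    have h1 : Mnc_ins (s + k) w v' = v := by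
      funext i
      rcases lt_trichotomy i (s + k) with h1 | h1 | h1
      · rw [Mnc_lt _ _ _ h1, hv']
        simp [h1]
      · subst h1
        rw [Mnc_eq]
        have h2 : ψ₀ v' = v (s + k) := by
          rw [← hval]
          refine hdep _ _ fun i hi => ?_
          have : i < s + k := by omega
          simp [hv', this]
        change rd n (ψ₀ v') = v (s + k)
        rw [h2]
        exact ((hR1 _).2 (hv.2 k hk)).1
      · rw [Mnc_gt _ _ _ h1, hv']
        have h2 : ¬ i - 1 < s + k := by omega
        have h3 : i - 1 + 1 = i := by omega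
        simp [h2, h3]
    refine ⟨v', ⟨?_, fun j hj => ?_⟩, ?_⟩
    · have h2 : (fun i : Fin s => v' i) = fun i : Fin s => v i := by
        funext i
        have : (i : ℕ) < s + k := by omega
        simp [hv', this]
      rw [h2]
      exact hv.1
    · rw [hv']
      by_cases h2 : j < k
      · have : s + j < s + k := by omega
        simp only [this, if_true]
        exact hv.2 j (by omega)
      · have : ¬ s + j < s + k := by omega
        simp only [this, if_false]
        exact hv.2 (j + 1) (by omega)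
    · change φ (Mnc_ins (s + k) w v') ≠ 0
      rw [h1]
      exact hne
  · intro v' h j hj h0
    refine hφ.zer _ (hVec v' h) _ (hidx j hj) ?_
    rw [hat v' j hj, h0]
  · intro v' h j hj y z hy hz
    change φ (Mnc_ins (s + k) w _) = φ (Mnc_ins (s + k) w _) + φ (Mnc_ins (s + k) w _)
    rw [Mnc_upd s k w hwdep, Mnc_upd s k w hwdep, Mnc_upd s k w hwdep]
    exact hφ.add _ (hVec v' h) _ (hidx j hj) y z hy hz
  · intro v' h j hj y z hy hz
    change φ (Mnc_ins (s + k) w _) = 0
    rw [Mnc_upd s k w hwdep]
    exact hφ.sq _ (hVec v' h) _ (hidx j hj) y z hy hz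

end Pool.Agent.CRL
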