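import Pool.Agent.CRL.St
import Pool.Agent.CRK.Gdc

/-!
Module MUL: if the order is prime to 30, the words contain the nil letters only once.
-/

set_option autoImplicit false

namespace Pool.Agent.CRL

open Pool.Agent.CRR Pool.Agent.CRN Pool.Agent.CRK

section Mul

variable {R : Type} [NonUnitalRing R]

theorem Mul_nl_zero : Nl (0 : R) := by
  unfold Nl
  rw [mul_zero]

theorem Mul_nl_smul (c : ℤ) {y : R} (h : Nl y) : Nl (c • y) := by
  unfold Nl at h ⊢
  simp only [smul_mul_assoc, mul_smul_comm, h, smul_zero]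

theorem Mul_vec_update {n s b : ℕ} {v : ℕ → R} (hv : Vec n s b v) (k : ℕ) {y : R} (hy : Nl y) :
    Vec n s b (Function.update v (s + k) y) := by
  obtain ⟨h1, h2⟩ := hv
  constructor
  · have h3 : (fun i : Fin s => Function.update v (s + k) y i) = fun i : Fin s => v i := by
      funext i
      have := i.2
      exact Function.update_of_ne (by omega) _ _
    rw [h3]
    exact h1
  · intro k' hk'
    by_cases h : k' = k
    · subst h
      rw [Function.update_self]
      exact hy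
    · rw [Function.update_of_ne (by omega)]
      exact h2 k' hk'

theorem Mul_tor [Finite R] {m : ℕ} (h : (Nat.card R).Coprime m) {x : R} (hx : (m : ℤ) • x = 0) :
    x = 0 := by
  have h1 : addOrderOf x ∣ m := by
    apply addOrderOf_dvd_of_nsmul_eq_zero
    rw [← natCast_zsmul]
    exact hx
  have h2 : addOrderOf x ∣ Nat.card R := addOrderOf_dvd_natCard x
  have h3 : addOrderOf x = 1 := Nat.eq_one_of_dvd_coprimes h h2 h1
  exact AddMonoid.addOrderOf_eq_one_iff.1 h3

/-- homogeneity of the additive function -/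
theorem Mul_phi {n s b : ℕ} {H : AddSubgroup R} {φ : (ℕ → R) → R} (hG : Gb n s b H φ)
    {v : ℕ → R} (hv : Vec n s b v) {k : ℕ} (hk : k < b) (c : ℤ) {y : R} (hy : Nl y) :
    φ (Function.update v (s + k) (c • y)) = c • φ (Function.update v (s + k) y) := by
  have h0 : φ (Function.update v (s + k) 0) = 0 := by
    apply hG.zer _ (Mul_vec_update hv k Mul_nl_zero) k hk
    rw [Function.update_self]
  have hn : ∀ (a : ℕ), φ (Function.update v (s + k) ((a : ℤ) • y)) =
      (a : ℤ) • φ (Function.update v (s + k) y) := by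
    intro a
    induction a with
    | zero => rw [Nat.cast_zero, zero_smul, zero_smul, h0]
    | succ a ih =>
      rw [Nat.cast_succ, add_smul, one_smul, hG.add v hv k hk _ _ (Mul_nl_smul _ hy) hy, ih,
        add_smul, one_smul]
  obtain ⟨a, rfl | rfl⟩ := c.eq_nat_or_neg
  · exact hn a
  · have h1 := hG.add v hv k hk ((a : ℤ) • y) ((-(a : ℤ)) • y) (Mul_nl_smul _ hy) (Mul_nl_smul _ hy)
    rw [← add_smul, add_neg_cancel, zero_smul, h0, hn a] at h1
    rw [neg_smul (a : ℤ) (φ _)]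
    exact (neg_eq_of_add_eq_zero_right h1.symm).symm

theorem Mul_ev_hom (v : ℕ → R) (j : ℕ) (hvan : ∀ w : List ℕ, 6 ≤ w.count j → wp (w.map v) = 0)
    (k : ℤ) (L : List (ℤ × List ℕ)) (hL : ∀ p ∈ L, j ∈ p.2) :
    ev L (Function.update v j (k • v j)) =
      k • Gdc_A j 1 L v + k ^ 2 • Gdc_A j 2 L v + k ^ 3 • Gdc_A j 3 L v + k ^ 4 • Gdc_A j 4 L v +
        k ^ 5 • Gdc_A j 5 L v := by
  induction L with
  | nil => simp [ev, Gdc_A]
  | cons p L ih =>
    have ih' := ih fun q hq => hL q (List.mem_cons_of_mem _ hq)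
    unfold ev at ih'
    unfold ev
    rw [List.map_cons, List.sum_cons, ih', Gdc_hom]
    unfold Gdc_A
    simp only [List.map_cons, List.sum_cons]
    have hp : 1 ≤ p.2.count j := List.one_le_count_iff.2 (hL p List.mem_cons_self)
    by_cases h4 : 6 ≤ p.2.count j
    · rw [hvan p.2 h4]
      simp
    · obtain h1 | h1 | h1 | h1 | h1 : p.2.count j = 1 ∨ p.2.count j = 2 ∨ p.2.count j = 3 ∨
          p.2.count j = 4 ∨ p.2.count j = 5 := by omega
      all_goals
        rw [h1]
        simp only [Nat.reduceEqDiff, OfNat.one_ne_ofNat, OfNat.ofNat_ne_one, if_true, if_false,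
          zero_add, pow_one, smul_add]
        rw [smul_comm]
        abel

/-- the equations between the homogeneous parts -/
theorem Mul_parts [Finite R] (h30 : (Nat.card R).Coprime 30) {a1 a2 a3 a4 a5 : R}
    (h : ∀ k : ℤ, k • (a1 + a2 + a3 + a4 + a5) =
      k • a1 + k ^ 2 • a2 + k ^ 3 • a3 + k ^ 4 • a4 + k ^ 5 • a5) :
    a2 = 0 ∧ a3 = 0 ∧ a4 = 0 ∧ a5 = 0 := by
  have c2 : (Nat.card R).Coprime 2 := Nat.Coprime.coprime_dvd_right (by norm_num) h30
  have c3 : (Nat.card R).Coprime 3 := Nat.Coprime.coprime_dvd_right (by norm_num) h30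
  have c5 : (Nat.card R).Coprime 5 := Nat.Coprime.coprime_dvd_right (by norm_num) h30
  have c6 : (Nat.card R).Coprime 6 := Nat.Coprime.coprime_dvd_right (by norm_num) h30
  have c24 : (Nat.card R).Coprime 24 := by
    have : (Nat.card R).Coprime (2 * (2 * (2 * 3))) := c2.mul_right (c2.mul_right (c2.mul_right c3))
    exact this
  have c120 : (Nat.card R).Coprime 120 := by
    have : (Nat.card R).Coprime (24 * 5) := c24.mul_right c5
    exact this
  have e1 := h (-1)
  have e2 := h 2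
  have e3 := h (-2)
  have e4 := h 3
  have f1 : (2 : ℤ) • (a2 + a4) = 0 := by
    have : (2 : ℤ) • (a2 + a4) = ((-1 : ℤ) • a1 + (-1 : ℤ) ^ 2 • a2 + (-1 : ℤ) ^ 3 • a3 +
      (-1 : ℤ) ^ 4 • a4 + (-1 : ℤ) ^ 5 • a5) - (-1 : ℤ) • (a1 + a2 + a3 + a4 + a5) := by
      module
    rw [this, e1, sub_self]
  have g1 : a2 + a4 = 0 := Mul_tor (m := 2) c2 (by exact_mod_cast f1)
  have f2 : (24 : ℤ) • a4 = 0 := by
    have : (24 : ℤ) • a4 = (((2 : ℤ) • a1 + (2 : ℤ) ^ 2 • a2 + (2 : ℤ) ^ 3 • a3 +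
      (2 : ℤ) ^ 4 • a4 + (2 : ℤ) ^ 5 • a5) - (2 : ℤ) • (a1 + a2 + a3 + a4 + a5)) +
      (((-2 : ℤ) • a1 + (-2 : ℤ) ^ 2 • a2 + (-2 : ℤ) ^ 3 • a3 +
      (-2 : ℤ) ^ 4 • a4 + (-2 : ℤ) ^ 5 • a5) - (-2 : ℤ) • (a1 + a2 + a3 + a4 + a5)) -
      (8 : ℤ) • (a2 + a4) := by
      module
    rw [this, e2, e3, g1]
    simp
  have g2 : a4 = 0 := Mul_tor (m := 24) c24 (by exact_mod_cast f2)
  have g3 : a2 = 0 := by rw [g2, add_zero] at g1; exact g1
  have f3 : (6 : ℤ) • a3 + (30 : ℤ) • a5 = 0 := by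
    have : (6 : ℤ) • a3 + (30 : ℤ) • a5 = (((2 : ℤ) • a1 + (2 : ℤ) ^ 2 • a2 + (2 : ℤ) ^ 3 • a3 +
      (2 : ℤ) ^ 4 • a4 + (2 : ℤ) ^ 5 • a5) - (2 : ℤ) • (a1 + a2 + a3 + a4 + a5)) -
      (2 : ℤ) • a2 - (14 : ℤ) • a4 := by
      module
    rw [this, e2, g2, g3]
    simp
  have f4 : (24 : ℤ) • a3 + (240 : ℤ) • a5 = 0 := by
    have : (24 : ℤ) • a3 + (240 : ℤ) • a5 = (((3 : ℤ) • a1 + (3 : ℤ) ^ 2 • a2 + (3 : ℤ) ^ 3 • a3 +
      (3 : ℤ) ^ 4 • a4 + (3 : ℤ) ^ 5 • a5) - (3 : ℤ) • (a1 + a2 + a3 + a4 + a5)) -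
      (6 : ℤ) • a2 - (78 : ℤ) • a4 := by
      module
    rw [this, e4, g2, g3]
    simp
  have f5 : (120 : ℤ) • a5 = 0 := by
    have : (120 : ℤ) • a5 = ((24 : ℤ) • a3 + (240 : ℤ) • a5) -
      (4 : ℤ) • ((6 : ℤ) • a3 + (30 : ℤ) • a5) := by
      module
    rw [this, f3, f4]
    simp
  have g5 : a5 = 0 := Mul_tor (m := 120) c120 (by exact_mod_cast f5)
  have g4 : a3 = 0 := by
    rw [g5, smul_zero, add_zero] at f3
    exact Mul_tor (m := 6) c6 (by exact_mod_cast f3)
  exact ⟨g3, g4, g2, g5⟩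

end Mul

theorem thm_Mul (hBnd : St_Bnd) : St_Mul := by
  intro n p R _ _ hC h30 s b H φ hG L hL hφ
  obtain ⟨M, hM, hBd⟩ := hBnd n p R hC
  have hM5 : M = 5 := hM (Nat.Coprime.coprime_dvd_right (by norm_num) h30)
  subst hM5
  have key : ∀ j, j ≤ b → ∃ L' : List (ℤ × List ℕ),
      (∀ p ∈ L', p.2 ≠ [] ∧ (∀ k, k < b → s + k ∈ p.2) ∧ ∀ k, k < j → p.2.count (s + k) = 1) ∧
      ∀ v, Vec n s b v → φ v = ev L' v := by
    intro j
    induction j with
    | zero =>
      intro _
      exact ⟨L, fun p hp => ⟨(hL p hp).1, (hL p hp).2, fun k hk => absurd hk (Nat.not_lt_zero k)⟩,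
        hφ⟩
    | succ j ih =>
      intro hj
      obtain ⟨L', hL', hφ'⟩ := ih (by omega)
      refine ⟨L'.filter fun p => decide (p.2.count (s + j) = 1), ?_, ?_⟩
      · intro p hp
        obtain ⟨h1, h2⟩ := List.mem_filter.1 hp
        obtain ⟨h3, h4, h5⟩ := hL' p h1
        refine ⟨h3, h4, fun k hk => ?_⟩
        by_cases hkj : k = j
        · subst hkj
          exact of_decide_eq_true h2
        · exact h5 k (by omega)
      · intro v hv
        rw [Gdc_A_filter]
        have hjb : j < b := by omega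
        have hnl : Nl (v (s + j)) := hv.2 j hjb
        have hvan : ∀ w : List ℕ, 6 ≤ w.count (s + j) → wp (w.map v) = 0 := by
          intro w hw
          apply hBd ((w.filter fun i => decide (i = s + j)).map v) (w.map v)
          · exact List.Sublist.map v List.filter_sublist
          · intro x hx
            obtain ⟨i, hi, rfl⟩ := List.mem_map.1 hx
            have := of_decide_eq_true (List.mem_filter.1 hi).2
            rw [this]
            exact hnl
          · rw [List.length_map]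
            have : (w.filter fun i => decide (i = s + j)).length = w.count (s + j) := by
              rw [List.count_eq_length_filter]
              congr 1
            omega
        have hmain : ∀ k : ℤ, k • φ v = k • Gdc_A (s + j) 1 L' v + k ^ 2 • Gdc_A (s + j) 2 L' v +
            k ^ 3 • Gdc_A (s + j) 3 L' v + k ^ 4 • Gdc_A (s + j) 4 L' v +
            k ^ 5 • Gdc_A (s + j) 5 L' v := by
          intro k
          rw [← Mul_ev_hom v (s + j) hvan k L' (fun p hp => (hL' p hp).2.1 j hjb),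
            ← hφ' _ (Mul_vec_update hv j (Mul_nl_smul k hnl)), Mul_phi hG hv hjb k hnl,
            Function.update_eq_self]
        have h1 := hmain 1
        simp only [one_smul, one_pow] at h1
        obtain ⟨e2, e3, e4, e5⟩ := Mul_parts h30 (fun k => by rw [← h1]; exact hmain k)
        rw [h1, e2, e3, e4, e5]
        simp
  obtain ⟨L', hL', hφ'⟩ := key b le_rfl
  exact ⟨L', fun p hp => ⟨(hL' p hp).1, (hL' p hp).2.2⟩, hφ'⟩

end Pool.Agent.CRL
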