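import Pool.Agent.CRL.St
import Pool.Agent.CRK.Gdb

/-!
Campaign CRL, module Mxa: maximal number of variables.
-/

set_option autoImplicit false

namespace Pool.Agent.CRL

open Pool.Agent.CRR Pool.Agent.CRN Pool.Agent.CRK

section

variable {R : Type} [NonUnitalRing R]

theorem Mxa_vec {n s b k : ℕ} {v : ℕ → R} (hv : Vec n s (b + 1) v) (w : R) (hw : Nl w) :
    Vec n s b (Function.update v (s + k) w) := by
  refine ⟨?_, fun j hj => ?_⟩
  · have h1 : (fun i : Fin s => Function.update v (s + k) w i) = fun i : Fin s => v i := by
      funext i
      rw [Function.update_apply, if_neg (by omega)]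
    rw [h1]
    exact hv.1
  · rw [Function.update_apply]
    split
    · exact hw
    · exact hv.2 j (by omega)

theorem Mxa_vec' {n s b : ℕ} {v : ℕ → R} (hv : Vec n s (b + 1) v) : Vec n s b v :=
  ⟨hv.1, fun j hj => hv.2 j (by omega)⟩

theorem Mxa_ext {n s b k : ℕ} {v : ℕ → R} (hv : Vec n s b v) (hk : k < b) (y z : R) (hy : Nl y)
    (hz : Nl z) : Vec n s (b + 1) (Function.update (Function.update v (s + k) y) (s + b) z) := by
  refine ⟨?_, fun j hj => ?_⟩
  · have h1 : (fun i : Fin s => Function.update (Function.update v (s + k) y) (s + b) z i) =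
        fun i : Fin s => v i := by
      funext i
      rw [Function.update_apply, if_neg (by omega), Function.update_apply, if_neg (by omega)]
    rw [h1]
    exact hv.1
  · rw [Function.update_apply]
    split
    · exact hz
    · rw [Function.update_apply]
      split
      · exact hy
      · exact hv.2 j (by omega)

theorem Mxa_upd (v : ℕ → R) (s b k : ℕ) (hk : k < b) (y z w : R) (i : ℕ) (hi : i < s + b) :
    Function.update (Function.update (Function.update v (s + k) y) (s + b) z) (s + k) w i =
      Function.update v (s + k) w i := by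
  rw [Function.update_apply, Function.update_apply, Function.update_apply,
    Function.update_apply]
  by_cases h : i = s + k
  · rw [if_pos h, if_pos h]
  · rw [if_neg h, if_neg h, if_neg h, if_neg (by omega)]

end

theorem thm_Mxa (hJil : St_Jil) : St_Mxa := by
  intro n p R _ _ hC s b H φ hφ hmax
  obtain ⟨J, hJ, hJm⟩ := hJil n hC.n4 R hC.inM hC.nt
  have hadd : ∀ y z : R, Nl y → Nl z → Nl (y + z) := fun y z hy hz =>
    (hJm _).1 (J.add_mem ((hJm y).2 hy) ((hJm z).2 hz))
  have hmul : ∀ y z : R, Nl z → Nl (y * z) := fun y z hz => (hJm _).1 (hJ y z ((hJm z).2 hz)).1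
  have h0 : Nl (0 : R) := by simp [Nl]
  have hA : ∀ k, k < b → ∀ v, Vec n s (b + 1) v →
      φ (Function.update v (s + k) (v (s + k) + v (s + b))) - φ v -
        φ (Function.update v (s + k) (v (s + b))) = 0 := by
    intro k hk v₀ hv₀
    by_contra hne
    refine hmax (fun v => φ (Function.update v (s + k) (v (s + k) + v (s + b))) - φ v -
        φ (Function.update v (s + k) (v (s + b))))
      { tm := ?_, dep := ?_, val := ?_, van := ?_, ne := ⟨v₀, hv₀, hne⟩, zer := ?_ }
    · exact ((Gdb_upd hφ.tm ((TmF.var (s + k)).add (TmF.var (s + b))) (s + k)).sub hφ.tm).sub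
        (Gdb_upd hφ.tm (TmF.var (s + b)) (s + k))
    · intro v v' h
      have h1 : ∀ w w' : R, w = w' → φ (Function.update v (s + k) w) =
          φ (Function.update v' (s + k) w') := by
        rintro w w' rfl
        refine hφ.dep _ _ fun i hi => ?_
        rw [Function.update_apply, Function.update_apply, h i (by omega)]
      simp only [h1 _ _ (congrArg₂ (· + ·) (h (s + k) (by omega)) (h (s + b) (by omega))),
        h1 _ _ (h (s + b) (by omega)), hφ.dep v v' fun i hi => h i (by omega)]
    · intro v hv
      exact H.sub_mem (H.sub_mem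
        (hφ.val _ (Mxa_vec hv _ (hadd _ _ (hv.2 k (by omega)) (hv.2 b (by omega)))))
        (hφ.val _ (Mxa_vec' hv))) (hφ.val _ (Mxa_vec hv _ (hv.2 b (by omega))))
    · intro v hv S hS hin
      have h1 : ∀ w ∈ S, ∀ i, i < s + b → Function.update v (s + k) w i ∈ S := by
        intro w hw i hi
        rw [Function.update_apply]
        split
        · exact hw
        · exact hin i (by omega)
      have e1 := hφ.van _ (Mxa_vec (k := k) hv _ (hadd _ _ (hv.2 k (by omega))
        (hv.2 b (by omega)))) S hS (h1 _ (add_mem (hin (s + k) (by omega))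
        (hin (s + b) (by omega))))
      have e2 := hφ.van _ (Mxa_vec' hv) S hS fun i hi => hin i (by omega)
      have e3 := hφ.van _ (Mxa_vec (k := k) hv _ (hv.2 b (by omega))) S hS
        (h1 _ (hin (s + b) (by omega)))
      simp only [e1, e2, e3, sub_zero]
    · intro v hv j hj hj0
      have hvk := hv.2 k (by omega)
      have hvb := hv.2 b (by omega)
      by_cases h1 : j = b
      · subst h1
        have e1 : Function.update v (s + k) (v (s + k) + v (s + j)) = v := by
          rw [hj0, add_zero, Function.update_eq_self]
        have e2 : φ (Function.update v (s + k) (v (s + j))) = 0 := by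
          refine hφ.zer _ (Mxa_vec hv _ hvb) k hk ?_
          rw [Function.update_self, hj0]
        simp only [e1, e2, sub_self, sub_zero]
      · by_cases h2 : j = k
        · subst h2
          have e1 : φ v = 0 := hφ.zer _ (Mxa_vec' hv) j hk hj0
          simp only [e1, hj0, zero_add, sub_zero, sub_self]
        · have h3 : ∀ w, Function.update v (s + k) w (s + j) = 0 := by
            intro w
            rw [Function.update_apply, if_neg (by omega), hj0]
          have e1 := hφ.zer _ (Mxa_vec (k := k) hv _ (hadd _ _ hvk hvb)) j (by omega) (h3 _)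
          have e2 := hφ.zer _ (Mxa_vec' hv) j (by omega) hj0
          have e3 := hφ.zer _ (Mxa_vec (k := k) hv _ hvb) j (by omega) (h3 _)
          simp only [e1, e2, e3, sub_zero]
  have hB : ∀ k, k < b → ∀ v, Vec n s (b + 1) v →
      φ (Function.update v (s + k) (v (s + k) * v (s + b))) = 0 := by
    intro k hk v₀ hv₀
    by_contra hne
    refine hmax (fun v => φ (Function.update v (s + k) (v (s + k) * v (s + b))))
      { tm := ?_, dep := ?_, val := ?_, van := ?_, ne := ⟨v₀, hv₀, hne⟩, zer := ?_ }
    · exact Gdb_upd hφ.tm ((TmF.var (s + k)).mul (TmF.var (s + b))) (s + k)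
    · intro v v' h
      refine hφ.dep _ _ fun i hi => ?_
      rw [Function.update_apply, Function.update_apply, h i (by omega), h (s + k) (by omega),
        h (s + b) (by omega)]
    · intro v hv
      exact hφ.val _ (Mxa_vec hv _ (hmul _ _ (hv.2 b (by omega))))
    · intro v hv S hS hin
      refine hφ.van _ (Mxa_vec hv _ (hmul _ _ (hv.2 b (by omega)))) S hS fun i hi => ?_
      rw [Function.update_apply]
      split
      · exact mul_mem (hin _ (by omega)) (hin _ (by omega))
      · exact hin i (by omega)
    · intro v hv j hj hj0
      have hvm := Mxa_vec (k := k) hv _ (hmul (v (s + k)) _ (hv.2 b (by omega)))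
      by_cases h1 : j = b
      · subst h1
        refine hφ.zer _ hvm k hk ?_
        rw [Function.update_self, hj0, mul_zero]
      · by_cases h2 : j = k
        · subst h2
          refine hφ.zer _ hvm j hk ?_
          rw [Function.update_self, hj0, zero_mul]
        · refine hφ.zer _ hvm j (by omega) ?_
          rw [Function.update_apply, if_neg (by omega), hj0]
  refine { toGa := hφ, add := ?_, sq := ?_ }
  · intro v hv k hk y z hy hz
    have h1 := hA k hk _ (Mxa_ext hv hk y z hy hz)
    have e1 : Function.update (Function.update v (s + k) y) (s + b) z (s + k) = y := by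
      rw [Function.update_apply, if_neg (by omega), Function.update_self]
    rw [Function.update_self, e1, hφ.dep _ _ (Mxa_upd v s b k hk y z (y + z)),
      hφ.dep _ _ (Mxa_upd v s b k hk y z z), sub_eq_zero, sub_eq_iff_eq_add] at h1
    rw [h1, add_comm]
    congr 1
    refine hφ.dep _ _ fun i hi => ?_
    rw [Function.update_apply, if_neg (by omega)]
  · intro v hv k hk y z hy hz
    have h1 := hB k hk _ (Mxa_ext hv hk y z hy hz)
    have e1 : Function.update (Function.update v (s + k) y) (s + b) z (s + k) = y := by
      rw [Function.update_apply, if_neg (by omega), Function.update_self]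
    rwa [Function.update_self, e1, hφ.dep _ _ (Mxa_upd v s b k hk y z (y * z))] at h1

end Pool.Agent.CRL
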