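import Pool.Agent.CRL.St

/-!
# CRL, module Ore
-/

set_option autoImplicit false

namespace Pool.Agent.CRL

open Pool.Agent.CRR Pool.Agent.CRN Pool.Agent.CRK

theorem thm_Ore (hF : St_Fpr) : St_Ore := by
  classical
  intro n p R _ _ hcy s t hfr
  obtain ⟨-, hti, -⟩ := hF n p R hcy s t hfr
  have hex : ∀ i : Fin s, ∃ o : ℕ, 1 ≤ o ∧ Nl (pw (t i) (o - 1) - om n (t i)) := by
    intro i
    obtain ⟨m, hm1, -, hm⟩ := hfr.per i
    refine ⟨m, hm1, ?_⟩
    rw [(hti i).2.2.2 m hm1 hm, sub_self]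
    unfold Nl
    rw [mul_zero]
  refine ⟨fun i => if h : i < s then Nat.find (hex ⟨i, h⟩) else 0, fun i => ?_⟩
  have h1 : (if h : (i : ℕ) < s then Nat.find (hex ⟨i, h⟩) else 0) = Nat.find (hex i) := by
    rw [dif_pos i.2]
  beta_reduce
  rw [h1]
  refine ⟨(Nat.find_spec (hex i)).1, (Nat.find_spec (hex i)).2, fun l hl hlt hn => ?_⟩
  exact Nat.find_min (hex i) hlt ⟨hl, hn⟩

end Pool.Agent.CRL
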