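import Pool.Agent.CRL.St
import Pool.Agent.CRN.Pca

/-!
Module PCH: a nonzero value at homogeneous arguments.
-/

set_option autoImplicit false

namespace Pool.Agent.CRL

open Pool.Agent.CRR Pool.Agent.CRN Pool.Agent.CRK

section Pch

variable {R : Type} [NonUnitalRing R]

theorem Pch_idem_congr {n s : ℕ} {v v' : ℕ → R} (h : ∀ i, i < s → v' i = v i) :
    (fun i : Fin s => om n (v' i)) = fun i : Fin s => om n (v i) := by
  funext i
  rw [h i i.2]

theorem Pch_vec_congr {n s b : ℕ} {v v' : ℕ → R} (hv : Vec n s b v)
    (h : ∀ i, i < s → v' i = v i) (h' : ∀ k, k < b → Nl (v' (s + k))) : Vec n s b v' := by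
  constructor
  · have h3 : (fun i : Fin s => v' i) = fun i : Fin s => v i := by
      funext i
      exact h i i.2
    rw [h3]
    exact hv.1
  · exact h'

end Pch

theorem thm_Pch (hJil : St_Jil) (hFpr : St_Fpr) : St_Pch := by
  classical
  intro n p R _ _ hC s b H φ hG
  obtain ⟨J, hJI, hJ⟩ := hJil n hC.n4 R hC.inM hC.nt
  have key : ∀ j, j ≤ b → ∃ (α β : ℕ → Option (Fin s)) (v : ℕ → R), Vec n s b v ∧
      (∀ i, s + b ≤ i → v i = 0) ∧
      (∀ k, k < j → Pc (fun i : Fin s => om n (v i)) (α k) (β k) (v (s + k))) ∧ φ v ≠ 0 := by
    intro j
    induction j with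
    | zero =>
      intro _
      obtain ⟨v, hv, hne⟩ := hG.ne
      refine ⟨fun _ => none, fun _ => none, fun i => if i < s + b then v i else 0, ?_, ?_, ?_, ?_⟩
      · apply Pch_vec_congr hv
        · intro i hi
          exact if_pos (by omega)
        · intro k hk
          rw [if_pos (by omega)]
          exact hv.2 k hk
      · intro i hi
        exact if_neg (by omega)
      · intro k hk
        omega
      · rw [hG.dep (fun i => if i < s + b then v i else 0) v (fun i hi => if_pos hi)]
        exact hne
    | succ j ih =>
      intro hj
      obtain ⟨α, β, v, hv, hout, hpc, hne⟩ := ih (by omega)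
      have hjb : j < b := by omega
      obtain ⟨hPfm, -, -⟩ := hFpr n p R hC s (fun i => v i) hv.1
      obtain ⟨c, hc1, hc2, hc3, -⟩ := (CRN.thm_Pca R s (fun i : Fin s => om n (v i))
        (fun i => (hPfm.prm i).1) hPfm.orth).2.1 (v (s + j))
      have hcn : ∀ α' β', Nl (c α' β') := fun α' β' =>
        (hJ _).1 (hc3 J hJI ((hJ _).2 (hv.2 j hjb)) α' β')
      have hupd : ∀ y, Nl y → Vec n s b (Function.update v (s + j) y) := by
        intro y hy
        apply Pch_vec_congr hv
        · intro i hi
          exact Function.update_of_ne (by omega) _ _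
        · intro k hk
          by_cases h : k = j
          · subst h
            rw [Function.update_self]
            exact hy
          · rw [Function.update_of_ne (by omega)]
            exact hv.2 k hk
      have hex : ∃ α' β', φ (Function.update v (s + j) (c α' β')) ≠ 0 := by
        by_contra hcon
        push Not at hcon
        apply hne
        have hadd : ∀ y z : R, (Nl y ∧ φ (Function.update v (s + j) y) = 0) →
            (Nl z ∧ φ (Function.update v (s + j) z) = 0) →
            (Nl (y + z) ∧ φ (Function.update v (s + j) (y + z)) = 0) := by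
          rintro y z ⟨hy1, hy2⟩ ⟨hz1, hz2⟩
          refine ⟨(hJ _).1 (J.add_mem ((hJ _).2 hy1) ((hJ _).2 hz1)), ?_⟩
          rw [hG.add v hv j hjb y z hy1 hz1, hy2, hz2, add_zero]
        have hnl0 : Nl (0 : R) := (hJ _).1 J.zero_mem
        have h0 : Nl (0 : R) ∧ φ (Function.update v (s + j) 0) = 0 := by
          refine ⟨hnl0, ?_⟩
          apply hG.zer _ (hupd 0 hnl0) j hjb
          rw [Function.update_self]
        have hsum : Nl (∑ α', ∑ β', c α' β') ∧
            φ (Function.update v (s + j) (∑ α', ∑ β', c α' β')) = 0 := by
          apply Finset.sum_induction _ (fun y => Nl y ∧ φ (Function.update v (s + j) y) = 0)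
            hadd h0
          intro α' _
          apply Finset.sum_induction _ (fun y => Nl y ∧ φ (Function.update v (s + j) y) = 0)
            hadd h0
          intro β' _
          exact ⟨hcn α' β', hcon α' β'⟩
        have h2 := hsum.2
        rw [hc2, Function.update_eq_self] at h2
        exact h2
      obtain ⟨α', β', hαβ⟩ := hex
      have he : (fun i : Fin s => om n (Function.update v (s + j) (c α' β') i)) =
          fun i : Fin s => om n (v i) :=
        Pch_idem_congr (fun i hi => Function.update_of_ne (by omega) _ _)
      refine ⟨Function.update α j α', Function.update β j β',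
        Function.update v (s + j) (c α' β'), hupd _ (hcn α' β'), ?_, ?_, hαβ⟩
      · intro i hi
        rw [Function.update_of_ne (by omega)]
        exact hout i hi
      · intro k hk
        rw [he]
        by_cases h : k = j
        · subst h
          rw [Function.update_self, Function.update_self, Function.update_self]
          exact hc1 α' β'
        · rw [Function.update_of_ne h, Function.update_of_ne h, Function.update_of_ne (by omega)]
          exact hpc k (by omega)
  obtain ⟨α, β, v, h1, h2, h3, h4⟩ := key b le_rfl
  exact ⟨α, β, v, ⟨h1, h2, h3, h4⟩⟩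

end Pool.Agent.CRL
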