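import Pool.Agent.CRL.St
import Pool.Agent.CRN.Orf
import Pool.Agent.CRN.Prb

/-!
Campaign CRL (problem MP_1bb14d_al): maximal orthogonal families of primitive idempotents exist.
-/

set_option autoImplicit false

namespace Pool.Agent.CRL

open Pool.Agent.CRR Pool.Agent.CRN Pool.Agent.CRK

theorem thm_Pfx : St_Pfx := by
  classical
  intro R _ _
  have h0 : CRN.OrfP R 0 := ⟨fun i => i.elim0, fun i => i.elim0, fun i => i.elim0⟩
  have hs := Nat.findGreatest_spec (P := CRN.OrfP R) (Nat.zero_le (Nat.card R)) h0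
  obtain ⟨e, h1, h2⟩ := hs
  refine ⟨Nat.findGreatest (CRN.OrfP R) (Nat.card R), e, h1, h2, ?_⟩
  intro g hg hge
  by_contra hne
  obtain ⟨e', h3, h4, h5⟩ := CRN.thm_Prb R g hg hne
  have h6 : CRN.OrfP R (Nat.findGreatest (CRN.OrfP R) (Nat.card R) + 1) := by
    refine CRN.Orf_cons h1 h2 h3 fun i => ⟨?_, ?_⟩
    · rw [← h4, ← mul_assoc, (hge i).1, zero_mul]
    · rw [← h5, mul_assoc, (hge i).2, mul_zero]
  exact Nat.findGreatest_is_greatest (Nat.lt_succ_self _) (CRN.Orf_bound h6) h6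

end Pool.Agent.CRL
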