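import Pool.Agent.CRL.St
import Pool.Agent.CRN.Dlt

/-!
Campaign CRL, module Prf: a generator of the field `eRe`.
-/

set_option autoImplicit false

namespace Pool.Agent.CRL

open Pool.Agent.CRR Pool.Agent.CRN Pool.Agent.CRK

theorem Prf_dvd {K : Type} [Field K] [Finite K] {p r : ℕ} (hp : p.Prime)
    (h : (p ^ r) • (1 : K) = 0) : p ∣ Nat.card K := by
  have h1 : addOrderOf (1 : K) ∣ p ^ r := addOrderOf_dvd_iff_nsmul_eq_zero.2 h
  obtain ⟨k, -, hk⟩ := (Nat.dvd_prime_pow hp).1 h1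
  have hk0 : k ≠ 0 := by
    rintro rfl
    rw [pow_zero, AddMonoid.addOrderOf_eq_one_iff] at hk
    exact one_ne_zero hk
  have h2 : p ∣ addOrderOf (1 : K) := by
    rw [hk]
    exact dvd_pow_self p hk0
  exact h2.trans (addOrderOf_dvd_natCard (1 : K))

theorem thm_Prf : St_Prf := by
  intro R _ _ p r hp hpr e he
  obtain ⟨K, _, _, φ, hφ, h1, hsurj, hK, -⟩ := Dlt_field e he
  let _ : Fintype K := Fintype.ofFinite K
  obtain ⟨g, hg⟩ := IsCyclic.exists_generator (α := Kˣ)
  have hcard : 1 < Nat.card K := Finite.one_lt_card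
  obtain ⟨m, hm⟩ : ∃ m, Nat.card K = m + 1 := ⟨Nat.card K - 1, by omega⟩
  have hp1 : (p ^ r) • (1 : K) = 0 := by
    apply hφ
    rw [map_nsmul, hpr, map_zero]
  have hpd : p ∣ m + 1 := hm ▸ Prf_dvd hp hp1
  have hgK : (g : K) ^ (m + 1) = g := by
    rw [← hm, Nat.card_eq_fintype_card]
    exact FiniteField.pow_card (g : K)
  have hg1 : (g : K) ^ m = 1 := by
    have h2 : (g : K) ^ m * g = 1 * g := by rw [← pow_succ, hgK, one_mul]
    exact mul_right_cancel₀ g.ne_zero h2
  refine ⟨φ g, m, (hK _).1, (hK _).2, ?_, by omega, ?_, ?_, ?_⟩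
  · intro h
    rw [← map_zero φ] at h
    exact g.ne_zero (hφ h)
  · rw [Nat.coprime_comm, hp.coprime_iff_not_dvd]
    intro h
    have h3 : p ∣ 1 := (Nat.dvd_add_right h).1 hpd
    exact hp.one_lt.ne' (Nat.dvd_one.1 h3)
  · rw [Dlt_pw, hgK]
  · intro x hx1 hx2
    obtain ⟨y, rfl⟩ := hsurj x hx1 hx2
    rcases eq_or_ne y 0 with h0 | h0
    · left
      rw [h0, map_zero]
    · right
      have hy := hg (Units.mk0 y h0)
      rw [← mem_powers_iff_mem_zpowers] at hy
      obtain ⟨j, hj⟩ := hy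
      have hj' : (g : K) ^ j = y := by
        have := congrArg Units.val hj
        simpa using this
      refine ⟨j + m - 1, ?_⟩
      have e1 : j + m - 1 + 1 = j + m := by omega
      rw [Dlt_pw, e1, pow_add, hg1, mul_one, hj']

end Pool.Agent.CRL
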