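import Pool.Agent.CRL.St
import Pool.Agent.CRN.Pws

/-!
Campaign CRL, module PRL (helper18).
-/

set_option autoImplicit false

namespace Pool.Agent.CRL

open Pool.Agent.CRR Pool.Agent.CRN Pool.Agent.CRK

theorem thm_Prl : St_Prl := by
  intro n hn R _ hR e he x h1 h2
  obtain ⟨g1, -, -, g4, -, -, -, g8, g9, -, y, y1, y2, y3, y4⟩ := CRN.thm_Pws n hn R hR x
  rcases he.2.2 (om n x) g1 (g8 e h1) (g9 e h2) with h0 | h0
  · exact Or.inl (g4 h0)
  · refine Or.inr ⟨y, y3 e h1, y4 e h2, ?_, ?_⟩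
    · rw [y1, h0]
    · rw [y2, h0]

end Pool.Agent.CRL
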