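import Pool.Agent.CRL.St
import Pool.Agent.CRN.Pws
import Pool.Agent.CRN.Sir

/-!
Campaign CRL, module Quo: the quotient by the radical.
-/

set_option autoImplicit false

namespace Pool.Agent.CRL

open Pool.Agent.CRR Pool.Agent.CRN Pool.Agent.CRK

theorem thm_Quo (hJil : St_Jil) : St_Quo := by
  intro n hn R _ _ hM hT
  obtain ⟨J, hJ, hJm⟩ := hJil n hn R hM hT
  obtain ⟨Q, hQ, q, hq, hk⟩ := Sir_exists_quotient J hJ
  have hk' : ∀ x, q x = 0 ↔ Nl x := fun x => (hk x).trans (hJm x)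
  have hMQ : InM n Q := by
    intro y
    obtain ⟨x, rfl⟩ := hq y
    rw [← pw_map, ← pw_map, hM x]
  have hred : ∀ y : Q, y * y * y = 0 → y = 0 := by
    intro y hy
    obtain ⟨x, rfl⟩ := hq y
    rw [← map_mul, ← map_mul, hk'] at hy
    rw [hk']
    have h8 : pw x 8 = 0 := by
      have e1 : pw x 8 = x * x * x * (x * x * x) * (x * x * x) := by
        simp only [pw, mul_assoc]
      rw [e1]
      exact hy
    exact (CRN.thm_Pws n hn R hM x).2.2.2.2.1 8 h8
  refine ⟨Q, hQ, Finite.of_surjective q hq, q, hq, hk', hMQ, fun y => ?_⟩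
  -- `(y - y^(n-2))^3 = 0`
  have hadd : ∀ a j : ℕ, pw y (2 + a + j * (n - 3)) = pw y (2 + a) := fun a j =>
    Pws_addj hn hMQ y a j
  set z := pw y (n - 3) with hz
  have m1 : y * y = pw y 1 := rfl
  have c1 : y * z = pw y (n - 2) := by
    have := Pws_mul y 0 (n - 3)
    rw [show 0 + (n - 3) + 1 = n - 2 by omega] at this
    exact this
  have c2 : z * y = pw y (n - 2) := by
    have := Pws_mul y (n - 3) 0
    rw [show n - 3 + 0 + 1 = n - 2 by omega] at this
    exact this
  have c3 : z * z = pw y (2 * n - 5) := by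
    have := Pws_mul y (n - 3) (n - 3)
    rw [show n - 3 + (n - 3) + 1 = 2 * n - 5 by omega] at this
    exact this
  have d1 : pw y 1 * y = pw y 2 := rfl
  have d2 : pw y 1 * z = pw y 2 := by
    rw [hz, Pws_mul, show 1 + (n - 3) + 1 = 2 + 0 + 1 * (n - 3) by omega, hadd]
  have d3 : pw y (n - 2) * y = pw y 2 := by
    have := Pws_mul y (n - 2) 0
    rw [show n - 2 + 0 + 1 = 2 + 0 + 1 * (n - 3) by omega, hadd] at this
    exact this
  have d4 : pw y (n - 2) * z = pw y 2 := by
    rw [hz, Pws_mul, show n - 2 + (n - 3) + 1 = 2 + 0 + 2 * (n - 3) by omega, hadd]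
  have d5 : pw y (2 * n - 5) * y = pw y 2 := by
    have := Pws_mul y (2 * n - 5) 0
    rw [show 2 * n - 5 + 0 + 1 = 2 + 0 + 2 * (n - 3) by omega, hadd] at this
    exact this
  have d6 : pw y (2 * n - 5) * z = pw y 2 := by
    rw [hz, Pws_mul, show 2 * n - 5 + (n - 3) + 1 = 2 + 0 + 3 * (n - 3) by omega, hadd]
  have h0 : (y - z) * (y - z) * (y - z) = 0 := by
    have e1 : (y - z) * (y - z) = pw y 1 - pw y (n - 2) - pw y (n - 2) + pw y (2 * n - 5) := by
      rw [sub_mul, mul_sub, mul_sub, m1, c1, c2, c3]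
      abel
    rw [e1]
    simp only [add_mul, sub_mul, mul_sub, d1, d2, d3, d4, d5, d6]
    abel
  exact (sub_eq_zero.1 (hred _ h0)).symm

end Pool.Agent.CRL
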