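import Pool.Agent.CRL.St
import Pool.Agent.CRN.Pws

/-!
Campaign CRL, module Rdx: the part of an element in the radical.
-/

set_option autoImplicit false

namespace Pool.Agent.CRL

open Pool.Agent.CRR Pool.Agent.CRN Pool.Agent.CRK

theorem Rdx_pw {R : Type} [NonUnitalRing R] (S : NonUnitalSubring R) (x : R) (hx : x ∈ S) (k : ℕ) :
    pw x k ∈ S := by
  induction k with
  | zero => exact hx
  | succ k ih => exact mul_mem ih hx

theorem Rdx_om {R : Type} [NonUnitalRing R] (n : ℕ) (hn : 4 ≤ n) (x : R) (h : Nl x) :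
    om n x = 0 := by
  obtain ⟨m, hm⟩ : ∃ m, 3 * (n - 3) - 1 = 2 + m := ⟨3 * (n - 3) - 3, by omega⟩
  unfold om
  rw [hm]
  clear hm
  induction m with
  | zero => exact h
  | succ m ih =>
    change pw x (2 + m) * x = 0
    rw [ih, zero_mul]

theorem thm_Rdx : St_Rdx := by
  intro n hn R _ hM
  refine ⟨fun x => ⟨?_, fun h => ⟨?_, Rdx_om n hn x h⟩⟩, fun S x hx => ?_, fun φ hφ => ?_⟩
  · obtain ⟨p1, p2, p3, -⟩ := CRN.thm_Pws n hn R hM x
    set g := om n x with hg
    have h1 : (x - x * g) * (x - x * g) = x * x - x * x * g := by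
      have e1 : x * (x * g) = x * x * g := (mul_assoc _ _ _).symm
      have e2 : x * g * x = x * x * g := by rw [mul_assoc, ← p2, ← mul_assoc]
      have e3 : x * g * (x * g) = x * x * g := by rw [← mul_assoc, e2, mul_assoc, p1]
      rw [sub_mul, mul_sub, mul_sub, e1, e2, e3]
      abel
    have h2 : (x * x - x * x * g) * (x - x * g) = x * x * x - x * x * x * g := by
      have e1 : x * x * (x * g) = x * x * x * g := (mul_assoc _ _ _).symm
      have e2 : x * x * g * x = x * x * x * g := by rw [mul_assoc (x * x) g x, ← p2, ← mul_assoc]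
      have e3 : x * x * g * (x * g) = x * x * x * g := by rw [← mul_assoc, e2, mul_assoc, p1]
      rw [sub_mul, mul_sub, mul_sub, e1, e2, e3]
      abel
    change (x - x * om n x) * (x - x * om n x) * (x - x * om n x) = 0
    rw [← hg, h1, h2, p3, sub_self]
  · change x - x * om n x = x
    rw [Rdx_om n hn x h, mul_zero, sub_zero]
  · have h1 : om n x ∈ S := Rdx_pw S x hx _
    exact ⟨sub_mem hx (mul_mem hx h1), h1⟩
  · exact hφ.sub (hφ.mul (hφ.om n))

end Pool.Agent.CRL
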