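import Pool.Agent.CRL.St

/-!
Campaign CRL, module RTN: the substitution does nothing at homogeneous arguments.
-/

set_option autoImplicit false

namespace Pool.Agent.CRL

open Pool.Agent.CRR Pool.Agent.CRN Pool.Agent.CRK

theorem Rtn_ct {R : Type} [NonUnitalRing R] {g x : R} (h1 : g * x = 0) (h2 : x * g = 0) :
    ct g x = x := by
  unfold ct
  rw [h1, h2, zero_mul, sub_zero, sub_zero, add_zero]

theorem Rtn_lc {R : Type} [NonUnitalRing R] {s : ℕ} (d : ℕ → R) (e : Fin s → R)
    (hd : ∀ i : Fin s, d i = e i) (a c : Option (Fin s)) (y : R) (h : Pc e a c y) :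
    lc d a y = y := by
  cases a with
  | some i =>
    show d i * y = y
    rw [hd i, h.1 i, if_pos rfl]
  | none =>
    show y - ∑ i : Fin s, d i * y = y
    have h1 : ∑ i : Fin s, d i * y = 0 := by
      refine Finset.sum_eq_zero fun i _ => ?_
      rw [hd i, h.1 i]
      exact if_neg (by simp)
    rw [h1, sub_zero]

theorem Rtn_rc {R : Type} [NonUnitalRing R] {s : ℕ} (d : ℕ → R) (e : Fin s → R)
    (hd : ∀ i : Fin s, d i = e i) (a c : Option (Fin s)) (y : R) (h : Pc e a c y) :
    rc d c y = y := by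
  cases c with
  | some i =>
    show y * d i = y
    rw [hd i, h.2 i, if_pos rfl]
  | none =>
    show y - ∑ i : Fin s, y * d i = y
    have h1 : ∑ i : Fin s, y * d i = 0 := by
      refine Finset.sum_eq_zero fun i _ => ?_
      rw [hd i, h.2 i]
      exact if_neg (by simp)
    rw [h1, sub_zero]

theorem thm_Rtn (hFpr : St_Fpr) (hDte : St_Dte) (hCrd : St_Crd) (hRdx : St_Rdx) : St_Rtn := by
  intro n p K R _ _ hCy hK s b φ α β v hv o ho
  have hFr : Frame R n s (fun i : Fin s => v i) := hv.vec.1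
  obtain ⟨-, hf1, hf2⟩ := hFpr n p R hCy s _ hFr
  obtain ⟨r, hr⟩ := hCy.pr
  -- the sums of the idempotents
  have hE : ∀ i, i ≤ s → ∀ j : Fin s, i ≤ (j : ℕ) →
      Es n v i * v j = 0 ∧ v j * Es n v i = 0 := by
    intro i
    induction i with
    | zero =>
      intro _ j _
      exact ⟨zero_mul _, mul_zero _⟩
    | succ i ih =>
      intro hi j hj
      obtain ⟨h1, h2⟩ := ih (by omega) ⟨i, by omega⟩ le_rfl
      have h3 : ct (Es n v i) (v i) = v i := Rtn_ct h1 h2
      have h4 : Es n v (i + 1) = Es n v i + om n (v i) := by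
        show Es n v i + om n (ct (Es n v i) (v i)) = _
        rw [h3]
      obtain ⟨h5, h6⟩ := ih (by omega) j (by omega)
      have hne : (⟨i, by omega⟩ : Fin s) ≠ j := by
        intro h
        rw [← h] at hj
        simp at hj
      obtain ⟨h7, -⟩ := hf2 ⟨i, by omega⟩ j hne
      obtain ⟨-, h8⟩ := hf2 j ⟨i, by omega⟩ (Ne.symm hne)
      rw [h4, add_mul, mul_add, h5, h6, zero_add, zero_add]
      exact ⟨h7, h8⟩
  have hta : ∀ i : Fin s, ta n K v i = v i := by
    intro i
    obtain ⟨h1, h2⟩ := hE i (le_of_lt i.2) i le_rfl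
    have h3 : ct (Es n v i) (v i) = v i := Rtn_ct h1 h2
    show pw (ct (Es n v i) (v i)) (K - 1) = v i
    rw [h3]
    obtain ⟨m, hm1, hm2, hm3⟩ := hFr.per i
    refine hK (v i) m hm1 ?_ hm3
    exact (hCrd R p r hCy.pp hr).2 ⟨v i, hFr.ne i⟩ m hm2
  have hdv : ∀ i : Fin s, dv n K o v i = om n (v i) := by
    intro i
    show DT n (o i) (ta n K v i) = om n (v i)
    rw [hta i]
    exact (hDte.1 n p R hCy).2 s _ hFr i (o i) (ho i)
  refine ⟨?_, hdv⟩
  intro i
  unfold gv
  by_cases h1 : i < s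
  · rw [if_pos h1]
    exact hta ⟨i, h1⟩
  · rw [if_neg h1]
    by_cases h2 : i < s + b
    · rw [if_pos h2]
      obtain ⟨k, hk⟩ : ∃ k, i = s + k := ⟨i - s, by omega⟩
      rw [hk, show s + k - s = k by omega]
      have hpc := hv.pc k (by omega)
      rw [Rtn_lc (dv n K o v) (fun i : Fin s => om n (v i)) hdv (α k) (β k) _ hpc,
        Rtn_rc (dv n K o v) (fun i : Fin s => om n (v i)) hdv (α k) (β k) _ hpc]
      exact (((hRdx n hCy.n4 R hCy.inM).1 _).2 (hv.vec.2 k (by omega))).1
    · rw [if_neg h2]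
      exact (hv.out i (by omega)).symm

end Pool.Agent.CRL
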