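import Pool.Agent.CRL.St
import Pool.Agent.CRK.Gda
import Pool.Agent.CRK.Gdb

/-!
Campaign CRL, module Shf: a term function of frame and radical variables.
-/

set_option autoImplicit false

namespace Pool.Agent.CRL

open Pool.Agent.CRR Pool.Agent.CRN Pool.Agent.CRK

theorem Shf_pw {R : Type} [NonUnitalRing R] (S : NonUnitalSubring R) {x : R} (hx : x ∈ S) :
    ∀ k, pw x k ∈ S := by
  intro k
  induction k with
  | zero => exact hx
  | succ k ih => exact S.mul_mem ih hx

theorem thm_Shf (hFrx : St_Frx) (hGen : St_Gen) (hTrm : St_Trm) : St_Shf := by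
  classical
  intro n p R _ _ hCy hcrit H hH
  obtain ⟨m, φ₀, hm, hφ₀⟩ := CRK.thm_Gda R hcrit H hH
  obtain ⟨v0, hv0⟩ := hφ₀.ne
  obtain ⟨s, t0, ht0⟩ := hFrx n p R hCy
  obtain ⟨w0, hw0⟩ : ∃ w0 : ℕ → R, w0 = fun i => if h : i < s then t0 ⟨i, h⟩ else 0 := ⟨_, rfl⟩
  have hw0t : ∀ i : Fin s, w0 i = t0 i := by
    intro i
    rw [hw0]
    simp [i.2]
  have hgen : ∀ k : ℕ, ∃ w ∈ NonUnitalSubring.closure (fs s w0), Nl (v0 k - w) := by
    intro k
    obtain ⟨c, hc, hnl⟩ := hGen n p R hCy s t0 ht0 (v0 k)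
    refine ⟨∑ i, c i, ?_, hnl⟩
    apply sum_mem
    intro i _
    rcases hc i with h | ⟨j, h⟩
    · rw [h]
      exact zero_mem _
    · rw [h]
      apply Shf_pw
      apply NonUnitalSubring.subset_closure
      exact ⟨i, i.2, (hw0t i).symm⟩
  choose w hw hnl using hgen
  have htrm : ∀ k : ℕ, ∃ ψ : (ℕ → R) → R, TmF ψ ∧ ψ w0 = w k ∧
      (∀ v' : ℕ → R, ψ v' ∈ NonUnitalSubring.closure (fs s v')) ∧
      ∀ v' v'' : ℕ → R, (∀ i, i < s → v' i = v'' i) → ψ v' = ψ v'' := fun k =>
    hTrm R s w0 (w k) (hw k)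
  choose ψ hψ1 hψ2 hψ3 hψ4 using htrm
  refine ⟨s, m, fun v => φ₀ (fun k => if k < m then ψ k v + v (s + k) else 0), ?_, ?_, ?_, ?_, ?_⟩
  · refine Gdb_comp (u := fun k v => if k < m then ψ k v + v (s + k) else 0) hφ₀.tm fun k => ?_
    by_cases hk : k < m
    · simp only [hk, if_true]
      exact (hψ1 k).add (TmF.var (s + k))
    · simp only [hk, if_false]
      exact TmF.zero
  · intro v v' hvv
    apply congrArg φ₀
    funext k
    by_cases hk : k < m
    · simp only [hk, if_true]
      rw [hψ4 k v v' (fun i hi => hvv i (by omega)), hvv (s + k) (by omega)]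
    · simp only [hk, if_false]
  · intro v _
    exact hφ₀.val _
  · intro v _ S hS hvS
    apply hφ₀.van S hS
    intro k
    by_cases hk : k < m
    · simp only [hk, if_true]
      apply S.add_mem _ (hvS (s + k) (by omega))
      have h1 : NonUnitalSubring.closure (fs s v) ≤ S := by
        rw [NonUnitalSubring.closure_le]
        rintro x ⟨i, hi, rfl⟩
        exact hvS i (by omega)
      exact h1 (hψ3 k v)
    · simp only [hk, if_false]
      exact S.zero_mem
  · obtain ⟨v, hv⟩ : ∃ v : ℕ → R, v = fun i => if i < s then w0 i else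
      if i < s + m then v0 (i - s) - w (i - s) else 0 := ⟨_, rfl⟩
    have hvs : ∀ i, i < s → v i = w0 i := by
      intro i hi
      rw [hv]
      simp [hi]
    have hvk : ∀ k, k < m → v (s + k) = v0 k - w k := by
      intro k hk
      rw [hv]
      have h1 : ¬ s + k < s := by omega
      have h2 : s + k < s + m := by omega
      simp [h2]
    refine ⟨v, ⟨?_, ?_⟩, ?_⟩
    · have e : (fun i : Fin s => v i) = t0 := by
        funext i
        rw [hvs i i.2, hw0t i]
      rw [e]
      exact ht0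
    · intro k hk
      rw [hvk k hk]
      exact hnl k
    · have e : φ₀ (fun k => if k < m then ψ k v + v (s + k) else 0) = φ₀ v0 := by
        apply hφ₀.dep
        intro k hk
        simp only [hk, if_true]
        rw [hψ4 k v w0 hvs, hψ2 k, hvk k hk]
        abel
      rw [e]
      exact hv0

end Pool.Agent.CRL
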