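import Pool.Agent.CRL.St

/-!
Campaign CRL, module Snl: the nil elements of `eRe`, `e` primitive.
-/

set_option autoImplicit false

namespace Pool.Agent.CRL

open Pool.Agent.CRR Pool.Agent.CRN Pool.Agent.CRK

section

variable {R : Type} [NonUnitalRing R]

theorem Snl_left {e u x : R} (he0 : e ≠ 0) (hx : e * x = x) (hux : u * x = e)
    (h : Nl x) : False := by
  apply he0
  have h1 : u * (u * (u * (x * x * x))) = 0 := by rw [show x * x * x = 0 from h]; simp
  have h2 : u * (x * x * x) = x * x := by
    rw [← mul_assoc, ← mul_assoc, hux, hx]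
  have h3 : u * (x * x) = x := by rw [← mul_assoc, hux, hx]
  rw [h2, h3, hux] at h1
  exact h1

theorem Snl_right {e u x : R} (he0 : e ≠ 0) (hx : x * e = x) (hxu : x * u = e)
    (h : Nl x) : False := by
  apply he0
  have h1 : x * x * x * u * u * u = 0 := by rw [show x * x * x = 0 from h]; simp
  have h2 : x * x * x * u = x * x := by rw [mul_assoc, hxu, mul_assoc, hx]
  have h3 : x * x * u = x := by rw [mul_assoc, hxu, hx]
  rw [h2, h3, hxu] at h1
  exact h1

end

theorem thm_Snl (hPrl : St_Prl) : St_Snl := by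
  intro n hn R _ hM e he x y hx1 hx2 hy1 hy2 hx
  have he1 := he.1
  have he0 := he.2.1
  have key : ∀ x y : R, e * x = x → x * e = x → e * y = y → y * e = y → Nl x →
      Nl (x * y) ∧ Nl (y * x) := by
    intro x y hx1 hx2 hy1 hy2 hx
    constructor
    · rcases hPrl n hn R hM e he (x * y) (by rw [← mul_assoc, hx1]) (by rw [mul_assoc, hy2]) with
        h | ⟨z, _, _, z3, _⟩
      · exact h
      · exact (Snl_right he0 hx2 (by rw [← mul_assoc]; exact z3) hx).elim
    · rcases hPrl n hn R hM e he (y * x) (by rw [← mul_assoc, hy1]) (by rw [mul_assoc, hx2]) with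
        h | ⟨z, _, _, _, z4⟩
      · exact h
      · exact (Snl_left he0 hx1 (by rw [mul_assoc]; exact z4) hx).elim
  refine ⟨key x y hx1 hx2 hy1 hy2 hx, fun hy => ?_⟩
  rcases hPrl n hn R hM e he (x + y) (by rw [mul_add, hx1, hy1]) (by rw [add_mul, hx2, hy2]) with
    h | ⟨z, z1, z2, z3, _⟩
  · exact h
  · exfalso
    have ha := (key x z hx1 hx2 z1 z2 hx).1
    have hb := (key y z hy1 hy2 z1 z2 hy).1
    have h1 : y * z = e - x * z := by rw [← z3, add_mul]; abel
    have ha1 : e * (x * z) = x * z := by rw [← mul_assoc, hx1]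
    have ha2 : (x * z) * e = x * z := by rw [mul_assoc, z2]
    have hb2 : (y * z) * e = y * z := by rw [mul_assoc, z2]
    refine Snl_right (u := e + x * z + (x * z) * (x * z)) he0 hb2 ?_ hb
    rw [h1, sub_mul, mul_add, mul_add, he1, ha1, ← mul_assoc e, ha1, mul_add, mul_add, ha2,
      ← mul_assoc (x * z) (x * z) (x * z), show x * z * (x * z) * (x * z) = 0 from ha]
    abel

end Pool.Agent.CRL
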