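import Pool.Agent.CRL.St
import Pool.Agent.CRK.Gdb

/-!
Campaign CRL, module Sup: a minimal number of radical variables.
-/

set_option autoImplicit false

namespace Pool.Agent.CRL

open Pool.Agent.CRR Pool.Agent.CRN Pool.Agent.CRK

/-- insert a zero at the position `q` -/
def Sup_ins {R : Type} [NonUnitalRing R] (q : ℕ) (v : ℕ → R) : ℕ → R := fun i =>
  if i < q then v i else if i = q then 0 else v (i - 1)

/-- omit the position `q` -/
def Sup_del {R : Type} (q : ℕ) (v : ℕ → R) : ℕ → R := fun i => if i < q then v i else v (i + 1)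

theorem Sup_ins_del {R : Type} [NonUnitalRing R] (q : ℕ) (v : ℕ → R) (hq : v q = 0) :
    Sup_ins q (Sup_del q v) = v := by
  funext i
  unfold Sup_ins Sup_del
  by_cases h1 : i < q
  · simp [h1]
  · by_cases h2 : i = q
    · simp [h2, hq]
    · have h3 : ¬ i - 1 < q := by omega
      have h4 : i - 1 + 1 = i := by omega
      simp [h1, h2, h3, h4]

theorem Sup_nl_zero {R : Type} [NonUnitalRing R] : Nl (0 : R) := by
  unfold Nl
  simp

theorem Sup_vec_ins {R : Type} [NonUnitalRing R] {n s b k : ℕ} (hk : k < b + 1) (v : ℕ → R)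
    (h : Vec n s b v) : Vec n s (b + 1) (Sup_ins (s + k) v) := by
  obtain ⟨h1, h2⟩ := h
  constructor
  · have e : (fun i : Fin s => Sup_ins (s + k) v i) = fun i : Fin s => v i := by
      funext i
      unfold Sup_ins
      have : (i : ℕ) < s + k := by have := i.2; omega
      simp [this]
    rw [e]
    exact h1
  · intro j hj
    unfold Sup_ins
    by_cases h3 : s + j < s + k
    · simp only [h3, if_true]
      exact h2 j (by omega)
    · by_cases h4 : s + j = s + k
      · simp only [h3, h4, if_true, if_false]
        simp only [lt_irrefl, if_false]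
        exact Sup_nl_zero
      · simp only [h3, h4, if_false]
        have e : s + j - 1 = s + (j - 1) := by omega
        rw [e]
        exact h2 (j - 1) (by omega)

theorem Sup_vec_del {R : Type} [NonUnitalRing R] {n s b k : ℕ} (hk : k < b + 1) (v : ℕ → R)
    (h : Vec n s (b + 1) v) : Vec n s b (Sup_del (s + k) v) := by
  obtain ⟨h1, h2⟩ := h
  constructor
  · have e : (fun i : Fin s => Sup_del (s + k) v i) = fun i : Fin s => v i := by
      funext i
      unfold Sup_del
      have : (i : ℕ) < s + k := by have := i.2; omega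
      simp [this]
    rw [e]
    exact h1
  · intro j hj
    unfold Sup_del
    by_cases h3 : s + j < s + k
    · simp only [h3, if_true]
      exact h2 j (by omega)
    · simp only [h3, if_false]
      exact h2 (j + 1) (by omega)

theorem thm_Sup : St_Sup := by
  classical
  intro n R _ s m H φ hφ
  have hex : ∃ b, ∃ ψ : (ℕ → R) → R, Gz n s b H ψ := ⟨m, φ, hφ⟩
  obtain ⟨ψ, hψ⟩ := Nat.find_spec hex
  have hmin : ∀ b < Nat.find hex, ∀ ψ : (ℕ → R) → R, ¬ Gz n s b H ψ := fun b hb ψ h =>
    Nat.find_min hex hb ⟨ψ, h⟩
  obtain ⟨B, hB⟩ : ∃ B, B = Nat.find hex := ⟨_, rfl⟩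
  rw [← hB] at hψ hmin
  refine ⟨B, ψ, { hψ with zer := ?_ }⟩
  intro v hv k hk hvk
  by_contra hne
  obtain ⟨b, rfl⟩ : ∃ b, B = b + 1 := ⟨B - 1, by omega⟩
  apply hmin b (by omega) (fun v => ψ (Sup_ins (s + k) v))
  refine ⟨?_, ?_, ?_, ?_, ?_⟩
  · refine Gdb_comp (u := fun i v => Sup_ins (s + k) v i) hψ.tm fun i => ?_
    unfold Sup_ins
    by_cases h1 : i < s + k
    · simp only [h1, if_true]
      exact TmF.var i
    · by_cases h2 : i = s + k
      · simp only [h1, h2, if_true, if_false]
        simp only [lt_irrefl, if_false]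
        exact TmF.zero
      · simp only [h1, h2, if_false]
        exact TmF.var (i - 1)
  · intro w w' hw
    apply hψ.dep
    intro i hi
    unfold Sup_ins
    by_cases h1 : i < s + k
    · simp only [h1, if_true]
      exact hw i (by omega)
    · by_cases h2 : i = s + k
      · simp [h1, h2]
      · simp only [h1, h2, if_false]
        exact hw (i - 1) (by omega)
  · intro w hw
    exact hψ.val _ (Sup_vec_ins hk w hw)
  · intro w hw S hS hwS
    apply hψ.van _ (Sup_vec_ins hk w hw) S hS
    intro i hi
    unfold Sup_ins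
    by_cases h1 : i < s + k
    · simp only [h1, if_true]
      exact hwS i (by omega)
    · by_cases h2 : i = s + k
      · simp only [h1, h2, if_true, if_false]
        simp only [lt_irrefl, if_false]
        exact S.zero_mem
      · simp only [h1, h2, if_false]
        exact hwS (i - 1) (by omega)
  · refine ⟨Sup_del (s + k) v, Sup_vec_del hk v hv, ?_⟩
    rw [Sup_ins_del _ _ hvk]
    exact hne

end Pool.Agent.CRL
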