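import Pool.Agent.CRL.St
import Pool.Agent.CRN.Pws
import Pool.Agent.CRN.Eof

/-!
Campaign CRL, module Tav: orthogonal elements as terms.
-/

set_option autoImplicit false

namespace Pool.Agent.CRL

open Pool.Agent.CRR Pool.Agent.CRN Pool.Agent.CRK

theorem Tav_mul_om {n K : ℕ} (hn : 4 ≤ n) (hK : 3 ≤ K) {R : Type} [NonUnitalRing R] (h : InM n R)
    (c : R) : pw c (K - 1) * om n c = pw c (K - 1) := by
  obtain ⟨a, rfl⟩ : ∃ a, K = 3 + a := ⟨K - 3, by omega⟩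
  have e1 : 3 + a - 1 = 2 + a := by omega
  rw [e1]
  change pw c (2 + a) * pw c (3 * (n - 3) - 1) = pw c (2 + a)
  rw [Pws_mul]
  have e2 : 2 + a + (3 * (n - 3) - 1) + 1 = 2 + a + 3 * (n - 3) := by omega
  rw [e2, Pws_addj hn h c a 3]

theorem Tav_om_mul {n K : ℕ} (hn : 4 ≤ n) (hK : 3 ≤ K) {R : Type} [NonUnitalRing R] (h : InM n R)
    (c : R) : om n c * pw c (K - 1) = pw c (K - 1) := by
  obtain ⟨a, rfl⟩ : ∃ a, K = 3 + a := ⟨K - 3, by omega⟩
  have e1 : 3 + a - 1 = 2 + a := by omega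
  rw [e1]
  change pw c (3 * (n - 3) - 1) * pw c (2 + a) = pw c (2 + a)
  rw [Pws_mul]
  have e2 : 3 * (n - 3) - 1 + (2 + a) + 1 = 2 + a + 3 * (n - 3) := by omega
  rw [e2, Pws_addj hn h c a 3]

theorem Tav_tm (n K : ℕ) {R : Type} [NonUnitalRing R] (i : ℕ) :
    TmF (fun v : ℕ → R => ta n K v i) := by
  have h1 : TmF (fun v : ℕ → R => Es n (fun j => v j) i) :=
    TmF.Es n (u := fun j (v : ℕ → R) => v j) (fun j => TmF.var j) i
  exact (TmF.ct h1 (TmF.var i)).pw (K - 1)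

theorem thm_Tav (hTei : St_Tei) (hCrd : St_Crd) : St_Tav := by
  intro n p hn hp
  obtain ⟨K, hK, hT⟩ := hTei n p hn hp
  refine ⟨K, hK, fun R _ hR => (hT R hR).2.1, ?_⟩
  intro R _ _ hC
  obtain ⟨t1, t2, t3⟩ := hT R hC.inM
  refine ⟨?_, ?_, fun i => Tav_tm n K i, ?_⟩
  · intro v i j hij
    have h1 : ta n K v i * Eo n v i = ta n K v i := Tav_mul_om hn hK hC.inM _
    have h2 : Eo n v j * ta n K v j = ta n K v j := Tav_om_mul hn hK hC.inM _
    have h3 : Eo n v i * Eo n v j = 0 := ((thm_Eof thm_Pws) n hn R hC.inM v).2.1 i j hij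
    calc ta n K v i * ta n K v j = (ta n K v i * Eo n v i) * (Eo n v j * ta n K v j) := by
          rw [h1, h2]
      _ = ta n K v i * (Eo n v i * Eo n v j) * ta n K v j := by
          simp only [mul_assoc]
      _ = 0 := by rw [h3, mul_zero, zero_mul]
  · intro v i
    refine ⟨?_, ?_⟩
    · have h1 : om n (ta n K v i) = om n (ct (Es n v i) (v i)) := t3 _
      rw [h1]
      exact Tav_mul_om hn hK hC.inM _
    · obtain ⟨m, hm1, hm2, hm3⟩ := t1 (ct (Es n v i) (v i))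
      obtain ⟨r, hr⟩ := hC.pr
      exact ⟨m, hm1, (hCrd R p r hp hr).1 m hm2, hm3⟩
  · intro S v hv i
    exact (Tav_tm n K i).mem S v hv

end Pool.Agent.CRL
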