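import Pool.Agent.CRL.St
import Pool.Agent.CRK.Wrd

/-!
Module THR: the frame has at most three elements.
-/

set_option autoImplicit false

namespace Pool.Agent.CRL

open Pool.Agent.CRR Pool.Agent.CRN Pool.Agent.CRK

section Thr

variable {R : Type} [NonUnitalRing R]

theorem Thr_vec {n s b : ℕ} {v : ℕ → R} (hv : Vec n s b v) (A : Finset ℕ)
    (hA : ∀ i ∈ A, s ≤ i) : Vec n s b (zr (A : Set ℕ) v) := by
  obtain ⟨h1, h2⟩ := hv
  constructor
  · have h3 : (fun i : Fin s => zr (A : Set ℕ) v i) = fun i : Fin s => v i := by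
      funext i
      unfold zr
      rw [if_neg]
      intro h
      have h4 := hA _ h
      have := i.2
      omega
    rw [h3]
    exact h1
  · intro k hk
    unfold zr
    split_ifs
    · unfold Nl
      rw [mul_zero]
    · exact h2 k hk

theorem Thr_ev_ne (L : List (ℤ × List ℕ)) (v : ℕ → R) (h : ev L v ≠ 0) :
    ∃ p ∈ L, wp (p.2.map v) ≠ 0 := by
  by_contra hcon
  push Not at hcon
  apply h
  unfold ev
  apply List.sum_eq_zero
  intro x hx
  obtain ⟨p, hp, rfl⟩ := List.mem_map.1 hx
  rw [hcon p hp, smul_zero]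

/-- `φ` is a combination of words which contain all the nil letters. -/
theorem Thr_words (hWrx : St_Wrx) {n s b : ℕ} {H : AddSubgroup R} {φ : (ℕ → R) → R}
    (hG : Ga n s b H φ) : ∃ L : List (ℤ × List ℕ),
      (∀ p ∈ L, p.2 ≠ [] ∧ ∀ k, k < b → s + k ∈ p.2) ∧ ∀ v, Vec n s b v → φ v = ev L v := by
  classical
  obtain ⟨L, hL, hφ⟩ := hWrx R φ hG.tm ((Finset.range b).image fun k => s + k)
  refine ⟨L, fun p hp => ⟨(hL p hp).1, fun k hk => (hL p hp).2 _
    (Finset.mem_image_of_mem _ (Finset.mem_range.2 hk))⟩, fun v hv => hφ v ?_⟩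
  intro A hA hne
  obtain ⟨x, hx⟩ := hne
  obtain ⟨k, hk, rfl⟩ := Finset.mem_image.1 (hA hx)
  apply hG.zer _ (Thr_vec hv A _) k (Finset.mem_range.1 hk)
  · unfold zr
    rw [if_pos]
    exact hx
  · intro i hi
    obtain ⟨k', _, rfl⟩ := Finset.mem_image.1 (hA hi)
    omega

end Thr

theorem thm_Thr (hAlv : St_Alv) (hWlk : St_Wlk) (hWrx : St_Wrx) (hJil : St_Jil)
    (hFpr : St_Fpr) : St_Thr := by
  classical
  intro n p R _ _ hC H hH s b φ hG α β v hv
  obtain ⟨hA1, hA0⟩ := hAlv n p R hC H hH s b φ hG α β v hv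
  rcases Nat.eq_zero_or_pos b with hb | hb
  · have := hA0 hb
    omega
  obtain ⟨L, hL, hφ⟩ := Thr_words hWrx hG.toGa
  have hne : ev L v ≠ 0 := by
    rw [← hφ v hv.vec]
    exact hv.ne
  obtain ⟨w, hw, hwp⟩ := Thr_ev_ne L v hne
  obtain ⟨hPfm, h1, h2⟩ := hFpr n p R hC s (fun i => v i) hv.vec.1
  obtain ⟨J, -, hJ⟩ := hJil n hC.n4 R hC.inM hC.nt
  have hlt : ∀ x ∈ w.2, x < s + b := by
    intro x hx
    by_contra hcon
    apply hwp
    apply Wrd_wp_zero
    rw [← hv.out x (by omega)]
    exact List.mem_map_of_mem hx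
  set a : ℕ → Option (Fin s) := fun x => if h : x < s then some ⟨x, h⟩ else α (x - s) with ha
  set c : ℕ → Option (Fin s) := fun x => if h : x < s then some ⟨x, h⟩ else β (x - s) with hc
  obtain ⟨u₀, q, r, hV⟩ := hWlk R s (fun i : Fin s => om n (v i)) (fun i => (hPfm.prm i).1)
    hPfm.orth (fun x y hx hy => (hJ _).1 (J.add_mem ((hJ x).2 hx) ((hJ y).2 hy))) v a c w.2
    (hL w hw).1 (by
      intro x hx
      have hx1 := hlt x hx
      by_cases h : x < s
      · have e1 : a x = some ⟨x, h⟩ := dif_pos h
        have e2 : c x = some ⟨x, h⟩ := dif_pos h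
        rw [e1, e2]
        constructor
        · intro i
          by_cases hi : (some ⟨x, h⟩ : Option (Fin s)) = some i
          · rw [if_pos hi]
            have := (h1 i).2.1
            rw [← Option.some.inj hi] at this ⊢
            exact this
          · rw [if_neg hi]
            exact (h2 i ⟨x, h⟩ (fun h' => hi (by rw [h']))).1
        · intro i
          by_cases hi : (some ⟨x, h⟩ : Option (Fin s)) = some i
          · rw [if_pos hi]
            have := (h1 i).1
            rw [← Option.some.inj hi] at this ⊢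
            exact this
          · rw [if_neg hi]
            exact (h2 ⟨x, h⟩ i (fun h' => hi (by rw [h']))).2
      · have e1 : a x = α (x - s) := dif_neg h
        have e2 : c x = β (x - s) := dif_neg h
        rw [e1, e2]
        have := hv.pc (x - s) (by omega)
        rw [Nat.add_sub_cancel' (by omega)] at this
        exact this) hwp
  have hsub : (Finset.univ.image (fun i : Fin s => some i)) ⊆ ({u₀, q, r} : Finset _) := by
    intro y hy
    obtain ⟨i, _, rfl⟩ := Finset.mem_image.1 hy
    obtain ⟨k, hk, hαβ⟩ := hA1 hb i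
    have hk2 := hV (s + k) ((hL w hw).2 k hk)
    have e1 : a (s + k) = α k := by
      have : a (s + k) = α (s + k - s) := dif_neg (by omega)
      rw [this, Nat.add_sub_cancel_left]
    have e2 : c (s + k) = β k := by
      have : c (s + k) = β (s + k - s) := dif_neg (by omega)
      rw [this, Nat.add_sub_cancel_left]
    rw [e1, e2] at hk2
    rw [Finset.mem_insert, Finset.mem_insert, Finset.mem_singleton]
    rcases hαβ with h | h
    · rw [← h]
      exact hk2.1
    · rw [← h]
      exact hk2.2
  have hcard := Finset.card_le_card hsub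
  rw [Finset.card_image_of_injective _ (Option.some_injective _), Finset.card_univ,
    Fintype.card_fin] at hcard
  exact hcard.trans Finset.card_le_three

end Pool.Agent.CRL
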