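import Pool.Agent.CRL.St

/-!
Campaign CRL, module Trm: elements of a subring as values of terms.
-/

set_option autoImplicit false

namespace Pool.Agent.CRL

open Pool.Agent.CRR Pool.Agent.CRN Pool.Agent.CRK

theorem thm_Trm : St_Trm := by
  intro R _ s v x hx
  induction hx using NonUnitalSubring.closure_induction with
  | mem x hx =>
    obtain ⟨i, hi, rfl⟩ := hx
    exact ⟨fun v => v i, TmF.var i, rfl, fun v' => NonUnitalSubring.subset_closure ⟨i, hi, rfl⟩,
      fun v' v'' h => h i hi⟩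
  | zero => exact ⟨fun _ => 0, TmF.zero, rfl, fun v' => zero_mem _, fun _ _ _ => rfl⟩
  | add x y _ _ hx hy =>
    obtain ⟨ψ, h1, h2, h3, h4⟩ := hx
    obtain ⟨χ, k1, k2, k3, k4⟩ := hy
    exact ⟨fun v => ψ v + χ v, h1.add k1, by simp only [h2, k2], fun v' => add_mem (h3 v') (k3 v'),
      fun v' v'' h => by simp only [h4 _ _ h, k4 _ _ h]⟩
  | neg x _ hx =>
    obtain ⟨ψ, h1, h2, h3, h4⟩ := hx
    exact ⟨fun v => -(ψ v), h1.neg, by simp only [h2], fun v' => neg_mem (h3 v'),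
      fun v' v'' h => by simp only [h4 _ _ h]⟩
  | mul x y _ _ hx hy =>
    obtain ⟨ψ, h1, h2, h3, h4⟩ := hx
    obtain ⟨χ, k1, k2, k3, k4⟩ := hy
    exact ⟨fun v => ψ v * χ v, h1.mul k1, by simp only [h2, k2], fun v' => mul_mem (h3 v') (k3 v'),
      fun v' v'' h => by simp only [h4 _ _ h, k4 _ _ h]⟩

end Pool.Agent.CRL
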