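import Pool.Agent.CRL.St

/-!
Campaign CRL, module Vvx: the sequence of a frame and elements of the radical.
-/

set_option autoImplicit false

namespace Pool.Agent.CRL

open Pool.Agent.CRR Pool.Agent.CRN Pool.Agent.CRK

theorem thm_Vvx : St_Vvx := by
  intro n R _ s b
  have hA : ∀ (t : Fin s → R) (x : Fin b → R) (i : Fin s), vv t x i = t i := by
    intro t x i
    simp [vv, i.2]
  have hB : ∀ (t : Fin s → R) (x : Fin b → R) (k : Fin b), vv t x (s + k) = x k := by
    intro t x k
    have h1 : ¬ s + (k : ℕ) < s := by omega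
    have h2 : s + (k : ℕ) - s < b := by omega
    simp only [vv, h1, dif_neg, not_false_eq_true, h2, dif_pos]
    congr 1
    exact Fin.ext (by simp)
  have hC : ∀ (t : Fin s → R) (x : Fin b → R) (i : ℕ), s + b ≤ i → vv t x i = 0 := by
    intro t x i hi
    have h1 : ¬ i < s := by omega
    have h2 : ¬ i - s < b := by omega
    simp only [vv, h1, dif_neg, not_false_eq_true, h2]
  refine ⟨fun t x => ⟨hA t x, hB t x, hC t x, ?_, ?_, ?_⟩, ?_⟩
  · intro ht hx
    refine ⟨?_, fun k hk => ?_⟩
    · have h1 : (fun i : Fin s => vv t x i) = t := funext (hA t x)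
      rw [h1]
      exact ht
    · rw [hB t x ⟨k, hk⟩]
      exact hx _
  · ext y
    constructor
    · rintro ⟨i, hi, rfl⟩
      exact ⟨⟨i, hi⟩, (hA t x ⟨i, hi⟩).symm⟩
    · rintro ⟨i, rfl⟩
      exact ⟨i, i.2, (hA t x i).symm⟩
  · intro k y
    funext i
    rw [Function.update_apply]
    by_cases h1 : i < s
    · rw [hA t _ ⟨i, h1⟩, hA t _ ⟨i, h1⟩, if_neg (by omega)]
    · by_cases h2 : i < s + b
      · obtain ⟨j, rfl⟩ : ∃ j, i = s + j := ⟨i - s, by omega⟩
        have hj : j < b := by omega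
        rw [hB t _ ⟨j, hj⟩, hB t _ ⟨j, hj⟩, Function.update_apply]
        by_cases h3 : (⟨j, hj⟩ : Fin b) = k
        · have h4 : s + j = s + (k : ℕ) := by rw [← h3]
          rw [if_pos h3, if_pos h4]
        · have h4 : s + j ≠ s + (k : ℕ) := by
            intro h5
            exact h3 (Fin.ext (by simpa using h5))
          rw [if_neg h3, if_neg h4]
      · rw [hC t _ i (by omega), hC t _ i (by omega), if_neg (by omega)]
  · intro v i hi
    by_cases h1 : i < s
    · exact hA _ _ ⟨i, h1⟩
    · obtain ⟨j, rfl⟩ : ∃ j, i = s + j := ⟨i - s, by omega⟩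
      exact hB _ _ ⟨j, by omega⟩

end Pool.Agent.CRL
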