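import Pool.Agent.CRL.St

/-!
Module WLK: a nonzero product of homogeneous elements has at most three vertices.
-/

set_option autoImplicit false

namespace Pool.Agent.CRL

open Pool.Agent.CRR Pool.Agent.CRN Pool.Agent.CRK

section Wlk

variable {R : Type} [NonUnitalRing R] {s : ℕ} {e : Fin s → R}

theorem Wlk_mul {α β β' γ : Option (Fin s)} {A B : R} (hA : Pc e α β A) (hB : Pc e β' γ B) :
    Pc e α γ (A * B) := by
  constructor
  · intro i
    rw [← mul_assoc, hA.1 i]
    split_ifs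
    · rfl
    · exact zero_mul _
  · intro j
    rw [mul_assoc, hB.2 j]
    split_ifs
    · rfl
    · exact mul_zero _

theorem Wlk_comp {α β β' γ : Option (Fin s)} {A B : R} (hA : Pc e α β A) (hB : Pc e β' γ B)
    (h : A * B ≠ 0) : β = β' := by
  cases hβ : β with
  | none =>
    cases hγ : β' with
    | none => rfl
    | some j =>
      exfalso
      apply h
      have h1 := hB.1 j
      rw [if_pos hγ] at h1
      have h2 := hA.2 j
      rw [hβ, if_neg (by simp)] at h2
      rw [← h1, ← mul_assoc, h2, zero_mul]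
  | some i =>
    by_contra hne
    apply h
    have h1 := hA.2 i
    rw [if_pos hβ] at h1
    have h2 := hB.1 i
    rw [if_neg (fun h' => hne h'.symm)] at h2
    rw [← h1, mul_assoc, h2, mul_zero]

/-- `P` is `A`, or `A` times an element of type `q`, `u`. -/
def WlkAp (e : Fin s → R) (q u : Option (Fin s)) (A P : R) : Prop :=
  (P = A ∧ u = q) ∨ ∃ B, Pc e q u B ∧ P = A * B

theorem WlkAp_step {q u u' : Option (Fin s)} {A P x : R} (h : WlkAp e q u A P)
    (hx : Pc e u u' x) : ∃ B, Pc e q u' B ∧ P * x = A * B := by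
  rcases h with ⟨h1, h2⟩ | ⟨B, hB, h1⟩
  · exact ⟨x, h2 ▸ hx, by rw [h1]⟩
  · exact ⟨B * x, Wlk_mul hB hx, by rw [h1, mul_assoc]⟩

/-- The claim for the word `l` with the product `P` of the type `u₀`, `u`. -/
def WlkC (e : Fin s → R) (a c : ℕ → Option (Fin s)) (l : List ℕ) (u₀ u : Option (Fin s))
    (P : R) : Prop :=
  (u = u₀ ∧ ∀ w ∈ l, a w = u₀ ∧ c w = u₀) ∨
  (∃ q A, u₀ ≠ q ∧ Pc e u₀ q A ∧ WlkAp e q u A P ∧ (u = u₀ ∨ u = q) ∧
    ∀ w ∈ l, (a w = u₀ ∨ a w = q) ∧ (c w = u₀ ∨ c w = q)) ∨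
  ∃ q r A B, u₀ ≠ q ∧ u₀ ≠ r ∧ q ≠ r ∧ Pc e u₀ q A ∧ Pc e q r B ∧ WlkAp e r u (A * B) P ∧
    (u = u₀ ∨ u = q ∨ u = r) ∧
    ∀ w ∈ l, (a w = u₀ ∨ a w = q ∨ a w = r) ∧ (c w = u₀ ∨ c w = q ∨ c w = r)

theorem Wlk_step (hF : ∀ (α β γ δ : Option (Fin s)) (A B C : R),
      α ≠ β → α ≠ γ → α ≠ δ → β ≠ γ → β ≠ δ → γ ≠ δ → Pc e α β A → Pc e β γ B → Pc e γ δ C →
      A * B * C = 0)
    {a c : ℕ → Option (Fin s)} {l : List ℕ} {u₀ : Option (Fin s)} {P x : R} {w : ℕ}
    (hP : Pc e u₀ (a w) P) (hx : Pc e (a w) (c w) x)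
    (h : WlkC e a c l u₀ (a w) P) (hne : P * x ≠ 0) :
    WlkC e a c (l ++ [w]) u₀ (c w) (P * x) := by
  rcases h with ⟨h1, h2⟩ | ⟨q, A, hq, hA, hAp, hu, hV⟩ |
    ⟨q, r, A, B, h12, h13, h23, hA, hB, hAp, hu, hV⟩
  · by_cases hc : c w = u₀
    · left
      refine ⟨hc, fun w' hw' => ?_⟩
      rcases List.mem_append.1 hw' with h | h
      · exact h2 w' h
      · rw [List.mem_singleton.1 h]
        exact ⟨h1, hc⟩
    · right; left
      refine ⟨c w, P * x, fun h => hc h.symm, Wlk_mul hP hx, Or.inl ⟨rfl, rfl⟩, Or.inr rfl, ?_⟩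
      intro w' hw'
      rcases List.mem_append.1 hw' with h | h
      · exact ⟨Or.inl (h2 w' h).1, Or.inl (h2 w' h).2⟩
      · rw [List.mem_singleton.1 h]
        exact ⟨Or.inl h1, Or.inr rfl⟩
  · obtain ⟨B, hB, hPx⟩ := WlkAp_step hAp hx
    by_cases hc : c w = u₀ ∨ c w = q
    · right; left
      refine ⟨q, A, hq, hA, Or.inr ⟨B, hB, hPx⟩, hc, ?_⟩
      intro w' hw'
      rcases List.mem_append.1 hw' with h | h
      · exact hV w' h
      · rw [List.mem_singleton.1 h]
        exact ⟨hu, hc⟩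
    · right; right
      rw [not_or] at hc
      refine ⟨q, c w, A, B, hq, fun h => hc.1 h.symm, fun h => hc.2 h.symm, hA, hB,
        Or.inl ⟨hPx, rfl⟩, Or.inr (Or.inr rfl), ?_⟩
      intro w' hw'
      rcases List.mem_append.1 hw' with h | h
      · have := hV w' h
        tauto
      · rw [List.mem_singleton.1 h]
        tauto
  · obtain ⟨C, hC, hPx⟩ := WlkAp_step hAp hx
    by_cases hc : c w = u₀ ∨ c w = q ∨ c w = r
    · right; right
      refine ⟨q, r, A, B, h12, h13, h23, hA, hB, Or.inr ⟨C, hC, hPx⟩, hc, ?_⟩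
      intro w' hw'
      rcases List.mem_append.1 hw' with h | h
      · exact hV w' h
      · rw [List.mem_singleton.1 h]
        exact ⟨hu, hc⟩
    · exfalso
      rw [not_or, not_or] at hc
      apply hne
      rw [hPx]
      exact hF u₀ q r (c w) A B C h12 h13 (fun h => hc.1 h.symm) h23 (fun h => hc.2.1 h.symm)
        (fun h => hc.2.2 h.symm) hA hB hC

theorem Wlk_snoc (l : List R) (hl : l ≠ []) (x : R) : wp (l ++ [x]) = wp l * x := by
  induction l with
  | nil => exact absurd rfl hl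
  | cons y t ih =>
    cases t with
    | nil => rfl
    | cons z t =>
      have h1 := ih (List.cons_ne_nil z t)
      show y * wp ((z :: t) ++ [x]) = y * wp (z :: t) * x
      rw [h1, mul_assoc]

end Wlk

theorem thm_Wlk (hFvx : St_Fvx) : St_Wlk := by
  intro R _ s e he ho hJ f a c l
  have hF := hFvx R s e he ho hJ
  have key : ∀ l : List ℕ, l ≠ [] → (∀ w ∈ l, Pc e (a w) (c w) (f w)) → wp (l.map f) ≠ 0 →
      ∃ u₀ u, Pc e u₀ u (wp (l.map f)) ∧ WlkC e a c l u₀ u (wp (l.map f)) := by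
    intro l
    induction l using List.reverseRecOn with
    | nil => intro h; exact absurd rfl h
    | append_singleton l w ih =>
      intro _ hpc hne
      have hw : Pc e (a w) (c w) (f w) := hpc w (by simp)
      by_cases hl : l = []
      · subst hl
        have h0 : wp (([] ++ [w]).map f) = f w := rfl
        rw [h0]
        refine ⟨a w, c w, hw, ?_⟩
        by_cases hc : c w = a w
        · left
          refine ⟨hc, fun w' hw' => ?_⟩
          rw [List.nil_append, List.mem_singleton] at hw'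
          rw [hw']
          exact ⟨rfl, hc⟩
        · right; left
          refine ⟨c w, f w, fun h => hc h.symm, hw, Or.inl ⟨rfl, rfl⟩, Or.inr rfl, ?_⟩
          intro w' hw'
          rw [List.nil_append, List.mem_singleton] at hw'
          rw [hw']
          exact ⟨Or.inl rfl, Or.inr rfl⟩
      · have h1 : wp ((l ++ [w]).map f) = wp (l.map f) * f w := by
          rw [List.map_append, List.map_singleton]
          apply Wlk_snoc
          intro h
          exact hl (List.map_eq_nil_iff.1 h)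
        rw [h1] at hne ⊢
        have h2 : wp (l.map f) ≠ 0 := fun h => hne (by rw [h, zero_mul])
        obtain ⟨u₀, u, hP, hC⟩ := ih hl (fun w' hw' => hpc w' (List.mem_append_left _ hw')) h2
        have hu : u = a w := Wlk_comp hP hw hne
        subst hu
        exact ⟨u₀, c w, Wlk_mul hP hw, Wlk_step hF hP hw hC hne⟩
  intro hl hpc hne
  obtain ⟨u₀, u, _, hC⟩ := key l hl hpc hne
  rcases hC with ⟨_, h2⟩ | ⟨q, A, _, _, _, _, hV⟩ | ⟨q, r, A, B, _, _, _, _, _, _, _, hV⟩
  · exact ⟨u₀, u₀, u₀, fun w hw => ⟨Or.inl (h2 w hw).1, Or.inl (h2 w hw).2⟩⟩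
  · refine ⟨u₀, q, q, fun w hw => ?_⟩
    have := hV w hw
    tauto
  · exact ⟨u₀, q, r, hV⟩

end Pool.Agent.CRL
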