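import Pool.Agent.CRL.Bkw

/-!
Campaign CRL, module Wrf: the function as a combination of words.
-/

set_option autoImplicit false

namespace Pool.Agent.CRL

open Pool.Agent.CRR Pool.Agent.CRN Pool.Agent.CRK

theorem thm_Wrf (hWrx : St_Wrx) (hMul : St_Mul) : St_Wrf := by
  intro n p R _ _ hC s b H φ hφ
  obtain ⟨L, hL1, hL2⟩ := hWrx R φ hφ.tm ((Finset.range b).image (fun k => s + k))
  have hev := Bkw_ev hφ.toGa hL2
  have hL1' : ∀ q ∈ L, q.2 ≠ [] ∧ ∀ k, k < b → s + k ∈ q.2 := fun q hq =>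
    ⟨(hL1 q hq).1, fun k hk => (hL1 q hq).2 _
      (Finset.mem_image.2 ⟨k, Finset.mem_range.2 hk, rfl⟩)⟩
  by_cases h30 : (Nat.card R).Coprime 30
  · obtain ⟨L', h1, h2⟩ := hMul n p R hC h30 s b H φ hφ L hL1' hev
    refine ⟨L', fun q hq => ⟨(h1 q hq).1, fun k hk => ?_⟩, fun _ q hq k hk => (h1 q hq).2 k hk,
      h2⟩
    have h3 := (h1 q hq).2 k hk
    exact List.count_pos_iff.1 (by omega)
  · exact ⟨L, hL1', fun h => absurd h h30, hev⟩

end Pool.Agent.CRL
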