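import Pool.Agent.CRL.St
import Pool.Agent.CRK.Wrd

/-!
Campaign CRL, module Wrx: term functions as combinations of words with given letters.
-/

set_option autoImplicit false

namespace Pool.Agent.CRL

open Pool.Agent.CRR Pool.Agent.CRN Pool.Agent.CRK

theorem Wrx_zr {R : Type} [NonUnitalRing R] (A B : Set ℕ) (v : ℕ → R) :
    zr A (zr B v) = zr (A ∪ B) v := by
  classical
  funext i
  simp only [zr, Set.mem_union]
  by_cases h1 : i ∈ A
  · simp [h1]
  · by_cases h2 : i ∈ B
    · simp [h2]
    · simp [h1, h2]

theorem thm_Wrx : St_Wrx := by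
  classical
  intro R _ φ hφ K
  obtain ⟨t, ht⟩ := hφ
  obtain ⟨L₀, h1, h2⟩ := Wrd_term t
  have h2' : ∀ v : ℕ → R, φ v = ev L₀ v := fun v => by rw [← ht, h2]
  have key : ∀ K : Finset ℕ, ∀ v : ℕ → R,
      (∀ A : Finset ℕ, A ⊆ K → A.Nonempty → φ (zr (A : Set ℕ) v) = 0) →
      φ v = ev (L₀.filter fun p => decide (∀ k ∈ K, k ∈ p.2)) v := by
    intro K
    induction K using Finset.induction_on with
    | empty =>
      intro v _
      rw [h2' v]
      congr 1
      rw [List.filter_eq_self.2]
      intro p _
      simp
    | insert k K hk ih =>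
      intro v hv
      set L := L₀.filter fun p => decide (∀ k ∈ K, k ∈ p.2) with hL
      have e1 : (L₀.filter fun p => decide (∀ j ∈ insert k K, j ∈ p.2)) =
          L.filter fun p => decide (k ∈ p.2) := by
        rw [hL, List.filter_filter]
        congr 1
        funext p
        rw [← Bool.decide_and]
        congr 1
        rw [Finset.forall_mem_insert]
      have e2 : φ v = ev L v := ih v fun A hA => hv A (hA.trans (Finset.subset_insert k K))
      set v₀ : ℕ → R := zr ({k} : Set ℕ) v with hv₀
      have hvk : v₀ k = 0 := by simp [hv₀, zr]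
      have e3 : φ v₀ = 0 := by
        have := hv {k} (by simp) (Finset.singleton_nonempty k)
        rwa [Finset.coe_singleton] at this
      have e4 : φ v₀ = ev L v₀ := by
        refine ih v₀ fun A hA hne => ?_
        rw [hv₀, Wrx_zr]
        have := hv (A ∪ {k}) ?_ (hne.mono Finset.subset_union_left)
        · rwa [Finset.coe_union, Finset.coe_singleton] at this
        · intro j hj
          rcases Finset.mem_union.1 hj with h | h
          · exact Finset.mem_insert_of_mem (hA h)
          · rw [Finset.mem_singleton.1 h]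
            exact Finset.mem_insert_self k K
      have e5 := Wrd_ev_filter (fun p => decide (k ∈ p.2)) L v
      have e6 := Wrd_ev_filter (fun p => decide (k ∈ p.2)) L v₀
      have e7 : ev (L.filter fun p => decide (k ∈ p.2)) v₀ = 0 := by
        refine Wrd_ev_zero _ _ fun p hp => ⟨k, ?_, hvk⟩
        simpa using (List.mem_filter.1 hp).2
      have e8 : ev (L.filter fun p => !decide (k ∈ p.2)) v =
          ev (L.filter fun p => !decide (k ∈ p.2)) v₀ := by
        refine Wrd_ev_congr _ _ _ fun p hp i hi => ?_
        have h3 : k ∉ p.2 := by simpa using (List.mem_filter.1 hp).2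
        have h4 : i ∉ ({k} : Set ℕ) := by
          intro h5
          rw [Set.mem_singleton_iff] at h5
          exact h3 (h5 ▸ hi)
        rw [hv₀]
        simp only [zr, if_neg h4]
      rw [e1, e2, e5, e8]
      rw [e7, zero_add, ← e4, e3] at e6
      rw [← e6, add_zero]
  refine ⟨L₀.filter fun p => decide (∀ k ∈ K, k ∈ p.2), ?_, key K⟩
  intro p hp
  obtain ⟨h3, h4⟩ := List.mem_filter.1 hp
  exact ⟨h1 p h3, by simpa using h4⟩

end Pool.Agent.CRL
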