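import Pool.Agent.CRL.Alv
import Pool.Agent.CRL.Bdd
import Pool.Agent.CRL.Bgb
import Pool.Agent.CRL.Bkw
import Pool.Agent.CRL.Bkz
import Pool.Agent.CRL.Bnd
import Pool.Agent.CRL.Chi
import Pool.Agent.CRL.Chn
import Pool.Agent.CRL.Cnt
import Pool.Agent.CRL.Crd
import Pool.Agent.CRL.Dte
import Pool.Agent.CRL.Fpr
import Pool.Agent.CRL.Frt
import Pool.Agent.CRL.Frx
import Pool.Agent.CRL.Fvx
import Pool.Agent.CRL.Fwd
import Pool.Agent.CRL.Gen
import Pool.Agent.CRL.Gvf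
import Pool.Agent.CRL.Gvt
import Pool.Agent.CRL.Jil
import Pool.Agent.CRL.Lis
import Pool.Agent.CRL.Mai
import Pool.Agent.CRL.Mch
import Pool.Agent.CRL.Mnc
import Pool.Agent.CRL.Mul
import Pool.Agent.CRL.Mxa
import Pool.Agent.CRL.Ore
import Pool.Agent.CRL.Pch
import Pool.Agent.CRL.Pfx
import Pool.Agent.CRL.Prf
import Pool.Agent.CRL.Prl
import Pool.Agent.CRL.Prt
import Pool.Agent.CRL.Quo
import Pool.Agent.CRL.Rdx
import Pool.Agent.CRL.Rtn
import Pool.Agent.CRL.Sel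
import Pool.Agent.CRL.Shf
import Pool.Agent.CRL.Snl
import Pool.Agent.CRL.Sup
import Pool.Agent.CRL.Tav
import Pool.Agent.CRL.Tei
import Pool.Agent.CRL.Thr
import Pool.Agent.CRL.Trm
import Pool.Agent.CRL.Vvx
import Pool.Agent.CRL.Wlk
import Pool.Agent.CRL.Wrf
import Pool.Agent.CRL.Wrx

/-!
Campaign CRL: the theorem (problem MP_1bb14d_al).
-/

set_option autoImplicit false

namespace Pool.Agent.CRL

open Pool.Agent.CRR Pool.Agent.CRN Pool.Agent.CRK

theorem snl : St_Snl := thm_Snl thm_Prl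

theorem chn : St_Chn := thm_Chn thm_Prl snl (thm_Chi thm_Prl)

theorem jil : St_Jil := thm_Jil chn

theorem quo : St_Quo := thm_Quo jil

theorem mch : St_Mch := thm_Mch snl thm_Prl chn

theorem fpr : St_Fpr := thm_Fpr quo

theorem frx : St_Frx := thm_Frx thm_Pfx (thm_Prt thm_Prf quo thm_Prl) thm_Tei quo thm_Crd

theorem gen : St_Gen := thm_Gen fpr mch

theorem ore : St_Ore := thm_Ore fpr

theorem frt : St_Frt := thm_Frt (thm_Cnt gen quo fpr) jil

theorem dte : St_Dte := thm_Dte jil thm_Prl fpr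

theorem shf : St_Shf := thm_Shf frx gen thm_Trm

theorem bnd : St_Bnd := thm_Bnd jil thm_Lis

theorem mxa : St_Mxa := thm_Mxa jil

theorem mnc : St_Mnc := thm_Mnc thm_Trm thm_Rdx

theorem sel : St_Sel := thm_Sel shf thm_Sup (thm_Bdd bnd thm_Wrx) mxa mnc

theorem pch : St_Pch := thm_Pch jil fpr

theorem alv : St_Alv := thm_Alv fpr

theorem thr : St_Thr := thm_Thr alv (thm_Wlk thm_Fvx) thm_Wrx jil fpr

theorem fwd : St_Fwd := thm_Fwd jil sel pch thr (thm_Wrf thm_Wrx (thm_Mul bnd)) thm_Vvx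

theorem tav : St_Tav := thm_Tav thm_Tei thm_Crd

theorem gvt : St_Gvt := thm_Gvt dte thm_Rdx

theorem gvf : St_Gvf := thm_Gvf frt dte

theorem rtn : St_Rtn := thm_Rtn fpr dte thm_Crd thm_Rdx

theorem bkw : St_Bkw := thm_Bkw thm_Wrx pch alv ore tav gvt gvf rtn

theorem bkz : St_Bkz := thm_Bkz pch alv ore tav gvt gvf rtn fpr

theorem mai : St_Mai := thm_Mai fwd (thm_Bgb thm_Vvx) bkw bkz

end Pool.Agent.CRL
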