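import Pool.Agent.CRL.St
import Pool.Agent.CRK.Gda

/-!
Module ALV: every element of the frame is an end of a nil letter.
-/

set_option autoImplicit false

namespace Pool.Agent.CRL

open Pool.Agent.CRR Pool.Agent.CRN Pool.Agent.CRK

section Alv

variable {R : Type} [NonUnitalRing R]

/-- a central idempotent of a ring with a least ideal is injective -/
theorem Alv_star {H : AddSubgroup R} (hH : Lst R H) {e : R} (he : e * e = e) (hne : e ≠ 0)
    (hc : ∀ r, e * r = r * e) (r : R) (hr : e * r = 0) : r = 0 := by
  by_contra hr0
  let I1 : AddSubgroup R :=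
    { carrier := {x | e * x = x}
      zero_mem' := mul_zero e
      add_mem' := fun {a b} ha hb => by
        have ha' : e * a = a := ha
        have hb' : e * b = b := hb
        show e * (a + b) = a + b
        rw [mul_add, ha', hb']
      neg_mem' := fun {a} ha => by
        have ha' : e * a = a := ha
        show e * (-a) = -a
        rw [mul_neg, ha'] }
  let I2 : AddSubgroup R :=
    { carrier := {x | e * x = 0}
      zero_mem' := mul_zero e
      add_mem' := fun {a b} ha hb => by
        have ha' : e * a = 0 := ha
        have hb' : e * b = 0 := hb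
        show e * (a + b) = 0
        rw [mul_add, ha', hb', add_zero]
      neg_mem' := fun {a} ha => by
        have ha' : e * a = 0 := ha
        show e * (-a) = 0
        rw [mul_neg, ha', neg_zero] }
  have h1 : Idl R I1 := by
    intro x y hy
    have hy' : e * y = y := hy
    constructor
    · show e * (x * y) = x * y
      rw [← mul_assoc, hc x, mul_assoc, hy']
    · show e * (y * x) = y * x
      rw [← mul_assoc, hy']
  have h2 : Idl R I2 := by
    intro x y hy
    have hy' : e * y = 0 := hy
    constructor
    · show e * (x * y) = 0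
      rw [← mul_assoc, hc x, mul_assoc, hy', mul_zero]
    · show e * (y * x) = 0
      rw [← mul_assoc, hy', zero_mul]
  have n1 : I1 ≠ ⊥ := by
    intro h
    have : e ∈ I1 := he
    rw [h, AddSubgroup.mem_bot] at this
    exact hne this
  have n2 : I2 ≠ ⊥ := by
    intro h
    have : r ∈ I2 := hr
    rw [h, AddSubgroup.mem_bot] at this
    exact hr0 this
  apply hH.2.1
  rw [AddSubgroup.eq_bot_iff_forall]
  intro x hx
  have e1 : e * x = x := hH.2.2 I1 h1 n1 hx
  have e2 : e * x = 0 := hH.2.2 I2 h2 n2 hx
  rw [← e1, e2]

/-- an element which commutes with the arguments is central -/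
theorem Alv_comm {n s b : ℕ} {H : AddSubgroup R} {φ : (ℕ → R) → R} (hG : Gz n s b H φ)
    {v : ℕ → R} (hv : Vec n s b v) (hne : φ v ≠ 0) {e : R}
    (h : ∀ j, j < s + b → e * v j = v j * e) (r : R) : e * r = r * e := by
  have h1 : NonUnitalSubring.centralizer ({e} : Set R) = ⊤ := by
    by_contra hcon
    apply hne
    apply hG.van v hv _ hcon
    intro j hj
    rw [NonUnitalSubring.mem_centralizer_iff]
    intro g hg
    rw [Set.mem_singleton_iff.1 hg]
    exact h j hj
  have h2 : r ∈ NonUnitalSubring.centralizer ({e} : Set R) := by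
    rw [h1]
    trivial
  exact NonUnitalSubring.mem_centralizer_iff.1 h2 e rfl

end Alv

theorem thm_Alv (hFpr : St_Fpr) : St_Alv := by
  intro n p R _ _ hC H hH s b φ hG α β v hv
  obtain ⟨hPfm, h1, h2⟩ := hFpr n p R hC s (fun i => v i) hv.vec.1
  have hfr : ∀ (i : Fin s) (j : ℕ), j < s → om n (v i) * v j = v j * om n (v i) := by
    intro i j hj
    by_cases hij : j = i
    · have e1 := (h1 i).1
      have e2 := (h1 i).2.1
      rw [hij, e1, e2]
    · have e1 := (h2 i ⟨j, hj⟩ (fun h => hij (by rw [h]))).1
      have e2 := (h2 ⟨j, hj⟩ i (fun h => hij (by rw [← h]))).2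
      have e3 : om n (v i) * v j = 0 := e1
      have e4 : v j * om n (v i) = 0 := e2
      rw [e3, e4]
  constructor
  · intro hb i
    by_contra hcon
    push Not at hcon
    have hcom : ∀ j, j < s + b → om n (v i) * v j = v j * om n (v i) := by
      intro j hj
      by_cases hjs : j < s
      · exact hfr i j hjs
      · have h3 := hv.pc (j - s) (by omega)
        have h4 := hcon (j - s) (by omega)
        rw [Nat.add_sub_cancel' (by omega)] at h3
        have e1 := h3.1 i
        have e2 := h3.2 i
        rw [if_neg h4.1] at e1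
        rw [if_neg h4.2] at e2
        rw [e1, e2]
    have h5 := Alv_comm hG.toGz hv.vec hv.ne hcom
    apply hv.ne
    apply hG.zer v hv.vec 0 hb
    apply Alv_star hH (hPfm.prm i).1 (hPfm.prm i).2.1 h5
    have h3 := (hv.pc 0 hb).1 i
    rw [if_neg (hcon 0 hb).1] at h3
    exact h3
  · intro hb
    subst hb
    rcases Nat.lt_or_ge s 1 with hs | hs
    · exfalso
      have hs0 : s = 0 := by omega
      subst hs0
      apply hv.ne
      rw [hG.dep v (fun _ => 0) (fun i hi => absurd hi (by omega))]
      obtain ⟨t, ht⟩ := hG.tm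
      rw [← ht]
      exact Gda_zero t
    · by_contra hs1
      have hs2 : 1 < s := by omega
      have h5 := Alv_comm hG.toGz hv.vec hv.ne (e := om n (v 0))
        (fun j hj => hfr ⟨0, by omega⟩ j (by omega))
      have h6 := Alv_star hH (hPfm.prm ⟨0, by omega⟩).1 (hPfm.prm ⟨0, by omega⟩).2.1 h5 (v 1)
        (h2 ⟨0, by omega⟩ ⟨1, hs2⟩ (by simp)).1
      exact hv.vec.1.ne ⟨1, hs2⟩ h6

end Pool.Agent.CRL
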