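import Pool.Agent.CRK.Defs

/-!
Campaign CRL: all critical rings in the varieties `x^3 = x^n` (problem MP_1bb14d_al).  Definitions.
-/

set_option autoImplicit false

namespace Pool.Agent.CRL

open Pool.Agent.CRR Pool.Agent.CRN Pool.Agent.CRK

section defs

variable {R : Type} [NonUnitalRing R]

/-- `x^3 = 0`. -/
def Nl (x : R) : Prop := x * x * x = 0

variable (R)

/-- A frame of `R`: nonzero elements `t_i` with `t_i t_j = 0` for `i ≠ j`, of order prime to the order
of `R` (`t_i^(m+1) = t_i`), such that with the idempotent `e_i = t_i^(3(n-3))` every element of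
`e_i R e_i` is congruent to `0` or to a power of `t_i` modulo the radical `{x | x^3 = 0}`, and no
idempotent `≠ 0` is orthogonal to all `t_i`. -/
structure Frame (n s : ℕ) (t : Fin s → R) : Prop where
  orth : ∀ i j, i ≠ j → t i * t j = 0
  ne : ∀ i, t i ≠ 0
  per : ∀ i, ∃ m, 1 ≤ m ∧ m.Coprime (Nat.card R) ∧ pw (t i) m = t i
  gen : ∀ i x, om n (t i) * x = x → x * om n (t i) = x → Nl x ∨ ∃ k, Nl (x - pw (t i) k)
  max : ∀ g : R, g * g = g → (∀ i, t i * g = 0 ∧ g * t i = 0) → g = 0

variable {R}

/-- The sequence `t_0, ..., t_(s-1), x_0, ..., x_(b-1), 0, 0, ...`. -/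
def vv {s b : ℕ} (t : Fin s → R) (x : Fin b → R) : ℕ → R := fun i =>
  if h : i < s then t ⟨i, h⟩ else if h' : i - s < b then x ⟨i - s, h'⟩ else 0

/-- The value at `t, x` of the combination `L` of words in the letters `t_0, ..., t_(s-1)` (the numbers
`0, ..., s - 1`) and `x_0, ..., x_(b-1)` (the numbers `s, ..., s + b - 1`). -/
def Val (L : List (ℤ × List ℕ)) {s b : ℕ} (t : Fin s → R) (x : Fin b → R) : R := ev L (vv t x)

variable (R)

/-- The functional type: `R` has a least nonzero ideal `H`, and for some `s ≤ 3` and `b` there is a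
polynomial `f(t_1, ..., t_s, x_1, ..., x_b)` (a combination of words which contain all `x_k`) such that for
every frame `t` and all `x_k` in the radical: the value is in `H`, is additive in `x_k`, zero if `x_k` is a product
of two elements of the radical or is in the subring generated by the `t_i`, and zero if the `t_i` and the
`x_k` are in a proper subring; not all these values are zero.  If the order of `R` is prime to 6
then `b ≤ 5`, if it is prime to 30 every word contains every `x_k` only once. -/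
def FunType (n : ℕ) : Prop := ∃ H : AddSubgroup R, Lst R H ∧
  ∃ (s b : ℕ) (L : List (ℤ × List ℕ)), s ≤ 3 ∧ ((Nat.card R).Coprime 6 → b ≤ 5) ∧
    (∀ p ∈ L, p.2 ≠ [] ∧ ∀ k, k < b → s + k ∈ p.2) ∧
    ((Nat.card R).Coprime 30 → ∀ p ∈ L, ∀ k, k < b → p.2.count (s + k) = 1) ∧
    (∀ (t : Fin s → R) (x : Fin b → R), Frame R n s t → (∀ k, Nl (x k)) →
      Val L t x ∈ H ∧
      (∀ k y z, Nl y → Nl z → Val L t (Function.update x k (y * z)) = 0 ∧
        Val L t (Function.update x k (y + z)) =
          Val L t (Function.update x k y) + Val L t (Function.update x k z)) ∧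
      (∀ k, x k ∈ NonUnitalSubring.closure (Set.range t) → Val L t x = 0) ∧
      (∀ S : NonUnitalSubring R, S ≠ ⊤ → (∀ i, t i ∈ S) → (∀ k, x k ∈ S) → Val L t x = 0)) ∧
    ∃ (t : Fin s → R) (x : Fin b → R), Frame R n s t ∧ (∀ k, Nl (x k)) ∧ Val L t x ≠ 0

/-! ### Definitions used only in the proofs -/

/-- The context: a finite ring of order a power of `p` in the variety, not `Twn`. -/
structure Cy (n p : ℕ) : Prop where
  n4 : 4 ≤ n
  inM : InM n R
  nt : ¬ Twn R
  pp : p.Prime
  pr : ∃ r : ℕ, ∀ x : R, (p ^ r) • x = 0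

/-- A maximal orthogonal family of primitive idempotents. -/
structure Pfm (s : ℕ) (e : Fin s → R) : Prop where
  prm : ∀ i, Prm R (e i)
  orth : ∀ i j, i ≠ j → e i * e j = 0
  max : ∀ g : R, g * g = g → (∀ i, e i * g = 0 ∧ g * e i = 0) → g = 0

variable {R}

/-- The part of `x` in the radical. -/
def rd (n : ℕ) (x : R) : R := x - x * om n x

/-- `v_0, ..., v_(s-1)` is a frame and `v_s, ..., v_(s+b-1)` are in the radical. -/
def Vec (n s b : ℕ) (v : ℕ → R) : Prop :=
  Frame R n s (fun i => v i) ∧ ∀ k, k < b → Nl (v (s + k))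

/-- `{v_0, ..., v_(s-1)}`. -/
def fs (s : ℕ) (v : ℕ → R) : Set R := {x | ∃ i, i < s ∧ x = v i}

/-- The zeroth class of term functions. -/
structure Gz (n s b : ℕ) (H : AddSubgroup R) (φ : (ℕ → R) → R) : Prop where
  tm : TmF φ
  dep : ∀ v v' : ℕ → R, (∀ i, i < s + b → v i = v' i) → φ v = φ v'
  val : ∀ v, Vec n s b v → φ v ∈ H
  van : ∀ v, Vec n s b v → ∀ S : NonUnitalSubring R, S ≠ ⊤ → (∀ i, i < s + b → v i ∈ S) → φ v = 0
  ne : ∃ v, Vec n s b v ∧ φ v ≠ 0

/-- The first class of term functions. -/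
structure Ga (n s b : ℕ) (H : AddSubgroup R) (φ : (ℕ → R) → R) : Prop extends Gz n s b H φ where
  zer : ∀ v, Vec n s b v → ∀ k, k < b → v (s + k) = 0 → φ v = 0

/-- The second class: additive and zero on products. -/
structure Gb (n s b : ℕ) (H : AddSubgroup R) (φ : (ℕ → R) → R) : Prop extends Ga n s b H φ where
  add : ∀ v, Vec n s b v → ∀ k, k < b → ∀ y z, Nl y → Nl z →
    φ (Function.update v (s + k) (y + z)) =
      φ (Function.update v (s + k) y) + φ (Function.update v (s + k) z)
  sq : ∀ v, Vec n s b v → ∀ k, k < b → ∀ y z, Nl y → Nl z →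
    φ (Function.update v (s + k) (y * z)) = 0

/-- The third class: moreover zero if a variable is in the subring generated by the frame. -/
structure Gc (n s b : ℕ) (H : AddSubgroup R) (φ : (ℕ → R) → R) : Prop extends Gb n s b H φ where
  cf : ∀ v, Vec n s b v → ∀ k, k < b → v (s + k) ∈ NonUnitalSubring.closure (fs s v) → φ v = 0

/-- `v` with the entries in `A` replaced by `0`. -/
noncomputable def zr (A : Set ℕ) (v : ℕ → R) : ℕ → R :=
  open Classical in fun i => if i ∈ A then 0 else v i

/-- A nonzero value of `φ` at homogeneous arguments. -/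
structure Hv (n s b : ℕ) (φ : (ℕ → R) → R) (α β : ℕ → Option (Fin s)) (v : ℕ → R) : Prop where
  vec : Vec n s b v
  out : ∀ i, s + b ≤ i → v i = 0
  pc : ∀ k, k < b → Pc (fun i : Fin s => om n (v i)) (α k) (β k) (v (s + k))
  ne : φ v ≠ 0

/-- `x ∏ (x^l - e)`, `0 < l ≤ j`, `e` the idempotent power of `x`. -/
def dk (n : ℕ) (x : R) : ℕ → R
  | 0 => x
  | j + 1 => dk n x j * (pw x j - om n x)

/-- The detector: the idempotent power of `x ∏ (x^l - e)`, `0 < l < o`. -/
def DT (n o : ℕ) (x : R) : R := om n (dk n x (o - 1))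

/-- `o` is the order of `x` modulo the radical. -/
structure Ord (n o : ℕ) (x : R) : Prop where
  one : 1 ≤ o
  nl : Nl (pw x (o - 1) - om n x)
  min : ∀ l, 1 ≤ l → l < o → ¬ Nl (pw x (l - 1) - om n x)

/-- Orthogonal elements as terms in `v_0, v_1, ...`. -/
def ta (n K : ℕ) (v : ℕ → R) (i : ℕ) : R := pw (ct (Es n v i) (v i)) (K - 1)

/-- The detectors of the `ta i`. -/
def dv (n K : ℕ) (o : ℕ → ℕ) (v : ℕ → R) (i : ℕ) : R := DT n (o i) (ta n K v i)

/-- Component on the left. -/
def lc {s : ℕ} (d : ℕ → R) (a : Option (Fin s)) (y : R) : R :=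
  match a with
  | some i => d i * y
  | none => y - ∑ i : Fin s, d i * y

/-- Component on the right. -/
def rc {s : ℕ} (d : ℕ → R) (a : Option (Fin s)) (y : R) : R :=
  match a with
  | some i => y * d i
  | none => y - ∑ i : Fin s, y * d i

/-- The substituted sequence. -/
def gv (n K s b : ℕ) (o : ℕ → ℕ) (α β : ℕ → Option (Fin s)) (v : ℕ → R) : ℕ → R := fun i =>
  if i < s then ta n K v i else if i < s + b then
    rd n (rc (dv n K o v) (β (i - s)) (lc (dv n K o v) (α (i - s)) (v i)))
  else 0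

end defs

end Pool.Agent.CRL
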