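import Pool.Agent.CRL.St

/-!
Campaign CRL, module GVF: the substituted sequence starts with a frame if all detectors are nonzero.
-/

set_option autoImplicit false

namespace Pool.Agent.CRL

open Pool.Agent.CRR Pool.Agent.CRN Pool.Agent.CRK

theorem thm_Gvf (hFrt : St_Frt) (hDte : St_Dte) : St_Gvf := by
  intro n p K R _ _ hC h1 h2 s t hF o ho v hv
  have hd := (hDte.1 n p R hC).1
  refine hFrt n p R hC s t hF (fun i => o i) ho (fun i => ta n K v i) ?_ ?_ ?_ ?_ ?_
  · intro i j hij
    exact h1 v i j (fun e => hij (Fin.ext e))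
  · intro i
    exact (h2 v i).1
  · intro i
    exact (hd (o i) _ (hv i)).1
  · intro i l h3 h4
    exact (hd (o i) _ (hv i)).2 l h3 h4
  · intro i
    exact (h2 v i).2

end Pool.Agent.CRL
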