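import Pool.Agent.CRL.St

/-!
Campaign CRL, module Sel: the choice of the function.
-/

set_option autoImplicit false

namespace Pool.Agent.CRL

open Pool.Agent.CRR Pool.Agent.CRN Pool.Agent.CRK

theorem thm_Sel (hShf : St_Shf) (hSup : St_Sup) (hBdd : St_Bdd) (hMxa : St_Mxa) (hMnc : St_Mnc) :
    St_Sel := by
  intro n p R _ _ hC hcr H hH
  obtain ⟨s, m, φ, hφ⟩ := hShf n p R hC hcr H hH
  obtain ⟨b₀, ψ₀, hψ₀⟩ := hSup n R s m H φ hφ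
  obtain ⟨M, hM5, hM⟩ := hBdd n p R hC
  classical
  have h1 : ∃ b, (∃ ψ, Ga n s b H ψ) ∧ ∀ ψ, ¬ Ga n s (b + 1) H ψ := by
    by_contra hcon
    push Not at hcon
    have h2 : ∀ j, ∃ ψ, Ga n s (b₀ + j) H ψ := by
      intro j
      induction j with
      | zero => exact ⟨ψ₀, hψ₀⟩
      | succ j ih => exact hcon (b₀ + j) ih
    obtain ⟨ψ, hψ⟩ := h2 (M + 1)
    have := hM s _ H ψ hψ
    omega
  obtain ⟨b, ⟨ψ, hψ⟩, hb⟩ := h1
  have h3 : ∃ b', ∃ ψ, Gb n s b' H ψ := ⟨b, ψ, hMxa n p R hC s b H ψ hψ hb⟩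
  obtain ⟨χ, hχ⟩ := Nat.find_spec h3
  refine ⟨s, Nat.find h3, χ, fun h6 => ?_, hMnc n p R hC s _ H χ hχ fun b' ψ' hlt h => ?_⟩
  · have := hM s _ H χ hχ.toGa
    rw [hM5 h6] at this
    exact this
  · exact Nat.find_min h3 hlt ⟨ψ', h⟩

end Pool.Agent.CRL
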