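import Pool.Agent.CRL.Defs
import Pool.Agent.CRK.St

/-!
Campaign CRL (problem MP_1bb14d_al, stage 3): all critical rings in the varieties `x^3 = x^n`.  Frozen
statements.

Every module `Pool/Agent/CRL/<X>.lean` imports this file (and `Pool.Agent.CRN.<Y>`, `Pool.Agent.CRK.<Y>` if
theorems of these finished campaigns are used) and proves `theorem thm_<X> : St_<X>`; the hypotheses
(other statements `St_<Y>` of this file) named in the docstring may be used as arguments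
(`theorem thm_<X> (hY : St_<Y>) : St_<X>`).  Own lemmas have names which start with the name of the
module.  The docstrings contain the proofs.

Proved and usable (write `CRN.thm_Pws` etc.): `CRN`: `thm_Pws`, `thm_Prb`, `thm_Eof`, `thm_Jnl`,
`thm_Crg`, `thm_Sir`, `thm_Ppw`, `thm_Pca`, `thm_Opp`, `Sir_exists_quotient`, `Dlt_field`, `Dlt_pw`,
`Pws_mul`, `Pws_addj`, `Eof_ct_z`; `CRK`: `thm_Gda`, `thm_Sxb`, `Gdb_comp` (substitution in term
functions), `Gdb_upd`, `Gda_zero`, `Wrd_term` (terms as combinations of words), `Wrd_ev_*`,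
`Wrd_wp_append`, `Wrd_wp_zero`, `Gdc_hom`, `Cvm_tmf_*`.

Notation of the docstrings: `J = {x | Nl x}`, `x^k = pw x (k - 1)`, `N = n - 3`, `om x = om n x = x^(3N)`, which is
idempotent; nil = `Nl`.
-/

set_option autoImplicit false

namespace Pool.Agent.CRL

open Pool.Agent.CRR Pool.Agent.CRN Pool.Agent.CRK

/-! ### Part A: the radical -/

/-- **PRL.**  PROOF.  By `CRN.thm_Pws` `g = om n x` is idempotent, `e g = g` (from `e x = x`), `g e = g`.  `Prm R e`: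
`g = 0`, then `x x x = 0`; or `g = e`, then the last item of `thm_Pws` gives `y`. -/
def St_Prl : Prop := ∀ n : ℕ, 4 ≤ n → ∀ (R : Type) [NonUnitalRing R], InM n R → ∀ e : R, Prm R e →
  ∀ x, e * x = x → x * e = x → Nl x ∨ ∃ y, e * y = y ∧ y * e = y ∧ x * y = e ∧ y * x = e

/-- **SNL** (from `St_Prl`).  PROOF.  All elements in `eRe`.  (0) If `u x = e` and `x x x = 0` then
`0 = u u u x x x = e`, a contradiction; the same for `x u = e`.  (1) If `x y` is not nil, it has an inverse `z`,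
`x (y z) = e`, a contradiction to (0); `y x` in the same way.  (2) Let `x, y` be nil and suppose `x + y` has an
inverse `z`: `a = x z`, `b = y z` are nil by (1), `b = e - a`, `b (e + a + a a) = e - a a a = e`, a contradiction
to (0). -/
def St_Snl : Prop := ∀ n : ℕ, 4 ≤ n → ∀ (R : Type) [NonUnitalRing R], InM n R → ∀ e : R, Prm R e →
  ∀ x y, e * x = x → x * e = x → e * y = y → y * e = y → Nl x →
    (Nl (x * y) ∧ Nl (y * x)) ∧ (Nl y → Nl (x + y))

/-- **CHI** (from `St_Prl`).  PROOF.  `e x y e - e x e y e = a b` with `a = e x - e x e`, `b = y e - e y e`; `e a = a`,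
`a e = 0`, `e b = 0`, `b e = b`.  `a b` is in `eRe`; if it is not nil then `a b z = e` with `z ∈ eRe`, and
`a a = a e a = 0`, `a (b z) a = e a = a`, `a ≠ 0`, a contradiction to `¬ Twn R`. -/
def St_Chi : Prop := ∀ n : ℕ, 4 ≤ n → ∀ (R : Type) [NonUnitalRing R], InM n R → ¬ Twn R →
  ∀ e : R, Prm R e → ∀ x y, Nl (e * (x * y) * e - (e * x * e) * (e * y * e))

/-- **CHN** (from `St_Prl`, `St_Snl`, `St_Chi`).  PROOF.  (1) and (2): `St_Snl`; `e (r x) e` is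
`(e r e) (e x e)` plus a nil element of `eRe` (`St_Chi`).  (3) Let `x x x = 0`, `c = e x e`.  By `St_Chi`, applied twice,
`0 = e (x (x x)) e = c c c + w` with a nil `w ∈ eRe`, so `c c c` is nil.  If `c` is not nil it is invertible in `eRe`
(`St_Prl`), and so is `c c c`, a contradiction. -/
def St_Chn : Prop := ∀ n : ℕ, 4 ≤ n → ∀ (R : Type) [NonUnitalRing R], InM n R → ¬ Twn R →
  ∀ e : R, Prm R e →
    (∀ x y, Nl (e * x * e) → Nl (e * y * e) → Nl (e * (x + y) * e)) ∧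
    (∀ r x, Nl (e * x * e) → Nl (e * (r * x) * e) ∧ Nl (e * (x * r) * e)) ∧
    ∀ x, Nl x → Nl (e * x * e)

/-- **JIL** (from `St_Chn`).  PROOF.  `J` is the set of the `x` with `Nl (e x e)` for all primitive `e`: an ideal by
`St_Chn` (1), (2), and nil elements are in it by (3).  Let `x ∈ J` and not nil: `g = om n x ≠ 0`
(`CRN.thm_Pws`), `g = x y`, so `g ∈ J`; `CRN.thm_Prb` gives a primitive `e` with `g e = e = e g`; then
`e g e = e` is nil, so `e = e e e = 0`, a contradiction. -/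
def St_Jil : Prop := ∀ n : ℕ, 4 ≤ n → ∀ (R : Type) [NonUnitalRing R] [Finite R], InM n R →
  ¬ Twn R → ∃ J : AddSubgroup R, Idl R J ∧ ∀ x, x ∈ J ↔ Nl x

/-- **QUO** (from `St_Jil`).  PROOF.  `CRN.Sir_exists_quotient` for `J`.  `Q` is in the variety.  `y y y = 0` in `Q`,
`y = q x`: `x^3` is nil, so `x^9 = pw x 8 = 0` and `x` is nil (`CRN.thm_Pws`), `y = 0`.  By `y^(3 + j N) = y^3` (`Pws_addj`):
`(y - y^(n-2))^3 = y^3 - 3 y^n + 3 y^(2n-3) - y^(3n-6) = y^3 (1 - 3 + 3 - 1) = 0`, so `y^(n-2) = y`. -/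
def St_Quo : Prop := ∀ n : ℕ, 4 ≤ n → ∀ (R : Type) [NonUnitalRing R] [Finite R], InM n R →
  ¬ Twn R → ∃ (Q : Type) (_ : NonUnitalRing Q) (_ : Finite Q) (q : R →ₙ+* Q),
    Function.Surjective q ∧ (∀ x, q x = 0 ↔ Nl x) ∧ InM n Q ∧ ∀ y : Q, pw y (n - 3) = y

/-- **RDX.**  PROOF.  `g = om n x` commutes with `x`, `g g = g`, `x x x g = x x x` (`CRN.thm_Pws`); so
`(x - x g)^3 = x x x - x x x g = 0`.  If `x x x = 0` then `om n x = pw x (3 N - 1) = 0` (`3 N ≥ 3`).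
Term functions: `TmF.om`, `TmF.mul`, `TmF.sub`. -/
def St_Rdx : Prop := ∀ n : ℕ, 4 ≤ n → ∀ (R : Type) [NonUnitalRing R], InM n R →
  (∀ x : R, Nl (rd n x) ∧ (Nl x → rd n x = x ∧ om n x = 0)) ∧
  (∀ (S : NonUnitalSubring R), ∀ x ∈ S, rd n x ∈ S ∧ om n x ∈ S) ∧
  ∀ φ : (ℕ → R) → R, TmF φ → TmF (fun v => rd n (φ v))

/-- **MCH** (from `St_Snl`, `St_Prl`, `St_Chn`).  PROOF.  Let `J'` be the set of the `x` with `Nl (e_i x e_i)` for all
`i`; `x ∈ J'` implies `r x, x r ∈ J'` (`St_Chn` (2)).  Suppose `x ∈ J'` is not nil.  `g = om n x ≠ 0`, `g = x y ∈ J'`, and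
`g'` primitive with `g g' = g' = g' g` (`CRN.thm_Prb`), `g' ∈ J'`.  `a_i = g' e_i g'` is nil:
`a_i^4 = g' (e_i g' e_i)^3 g' = 0` (`CRN.thm_Pws`, `pw a_i 3 = 0`).  So `a = ∑ a_i` is nil (`St_Snl` in `g' R g'`,
`Finset.sum_induction`), so `v = g' - a` is not nil (otherwise `g' = v + a` is), and has an inverse `z` in
`g' R g'`.  `y' = g' - ∑ e_i g'`, `w = g' - ∑ g' e_i`; with `E = ∑ e_i`: `w y' = g' (1-E) (1-E) g' = g' (1-E) g' = v`,
`e_i y' = 0 = w e_i`.  `h = y' z w` is idempotent (`h h = y' z v z w = h`), orthogonal to all `e_i`, and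
`w h y' = v z v = v ≠ 0`, so `h ≠ 0`, a contradiction to `Pfm.max`. -/
def St_Mch : Prop := ∀ n : ℕ, 4 ≤ n → ∀ (R : Type) [NonUnitalRing R] [Finite R], InM n R →
  ¬ Twn R → ∀ (s : ℕ) (e : Fin s → R), Pfm R s e → ∀ x, (∀ i, Nl (e i * x * e i)) → Nl x

/-! ### Part B: frames -/

/-- **PFX.**  PROOF.  As `CRN.thm_Orf`: orthogonal families of primitive idempotents are injective, so `s` is
bounded; take a family with `s` maximal; if `g ≠ 0` is an idempotent orthogonal to all `e i`, a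
primitive `e'` below `g` (`CRN.thm_Prb`) can be added. -/
def St_Pfx : Prop := ∀ (R : Type) [NonUnitalRing R] [Finite R],
  ∃ (s : ℕ) (e : Fin s → R), Pfm R s e

/-- **CRD.**  PROOF.  The additive group is a finite `p`-group, so `card R = p^k`
(`IsPGroup.iff_card` for `Multiplicative R`, or: a prime divisor `q` of the order gives an element of
order `q`, so `q = p`; `Nat.eq_prime_pow_of_unique_prime_dvd`).  `k ≥ 1` if there is `x ≠ 0`. -/
def St_Crd : Prop := ∀ (R : Type) [NonUnitalRing R] [Finite R] (p r : ℕ), p.Prime →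
  (∀ x : R, (p ^ r) • x = 0) → (∀ m : ℕ, m.Coprime p → m.Coprime (Nat.card R)) ∧
  ((∃ x : R, x ≠ 0) → ∀ m : ℕ, m.Coprime (Nat.card R) → m.Coprime p)

/-- **PRF.**  PROOF.  `CRN.Dlt_field`: `eRe` is (the image of) a finite field `K`; `t` is the image of a
generator of the cyclic group of units; `p = 0` in `K` (`p^r = 0` in `K`), so `card K = p^f` and
`m = card K - 1` is prime to `p` and `t^(m+1) = t`. -/
def St_Prf : Prop := ∀ (R : Type) [NonUnitalRing R] [Finite R] (p r : ℕ), p.Prime →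
  (∀ x : R, (p ^ r) • x = 0) → ∀ e : R, Fld R e → ∃ (t : R) (m : ℕ), e * t = t ∧ t * e = t ∧
    t ≠ 0 ∧ 1 ≤ m ∧ m.Coprime p ∧ pw t m = t ∧ ∀ x, e * x = x → x * e = x → x = 0 ∨ ∃ k, x = pw t k

/-- **PRT** (from `St_Prf`, `St_Quo`, `St_Prl`).  PROOF.  `q : R → Q` from `St_Quo`.  `Fld Q (q e)`: an element
`y ≠ 0` of `q(e) Q q(e)` is `q x`, `x ∈ eRe` (replace `x` by `e x e`), not nil, so invertible in `eRe`
(`St_Prl`).  `St_Prf` for `Q` gives `t'`, `m`; let `t' = q t`, `t ∈ eRe`. -/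
def St_Prt : Prop := ∀ (n p : ℕ) (R : Type) [NonUnitalRing R] [Finite R], Cy R n p →
  ∀ e : R, Prm R e → ∃ (t : R) (m : ℕ), e * t = t ∧ t * e = t ∧ ¬ Nl t ∧ 1 ≤ m ∧ m.Coprime p ∧
    Nl (pw t m - t) ∧ ∀ x, e * x = x → x * e = x → Nl x ∨ ∃ k, Nl (x - pw t k)

/-- **TEI.**  PROOF.  `N = n - 3 = A B`, `A` a power of `p`, `B` prime to `p` (`Nat.ordProj`, `Nat.ordCompl`); choose
`K ≥ 3` with `K ≡ 0` modulo `A`, `K ≡ 1` modulo `B` (Chinese remainder theorem).  (1) `y = x^K`, `m = B ≥ 1`: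
`y^(B+1) = x^(K + K B)`, `K B` is a multiple of `A B = N`, and `x^(K + j N) = x^K` as `K ≥ 3` (`Pws_addj`).
(2) `x^(1+m) = x`, so `x^(1+a m) = x` for all `a`.  Also `x^(1+N) = x`: choose `a` with `1 + a m ≥ 3`,
`x = x^(1+a m) = x^(1 + a m + N) = x x^N`.  So `x^(1+d) = x` for `d = gcd(m, N)` (Bezout: `d + a m = b N` with
`a, b ≥ 0`).  `d` is prime to `p` and divides `A B`, so it divides `B`, so `K = 1 + l d` (`l ≥ 0`) and `x^K = x`.
(3) `om (x^K) = x^(3 N K) = (x^(3N))^K = om x` (idempotent). -/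
def St_Tei : Prop := ∀ n p : ℕ, 4 ≤ n → p.Prime → ∃ K : ℕ, 3 ≤ K ∧
  ∀ (R : Type) [NonUnitalRing R], InM n R →
    (∀ x : R, ∃ m, 1 ≤ m ∧ m.Coprime p ∧ pw (pw x (K - 1)) m = pw x (K - 1)) ∧
    (∀ (x : R) (m : ℕ), 1 ≤ m → m.Coprime p → pw x m = x → pw x (K - 1) = x) ∧
    ∀ x : R, om n (pw x (K - 1)) = om n x

/-- **FPR** (from `St_Quo`).  PROOF.  `t = t_i`, `e = om n t`.  (1) `t` is not nil: `t = t^(1 + a m)` for all `a`, which is
`0` for large `a` if `t^3 = 0`.  (2) `t e = t`: `t = t^(1 + 3 m)`, `m ≥ 1`, contains the factor `t^3`, `t^3 e = t^3`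
(`CRN.thm_Pws`); `e t = t e`.  (3) if `t^(m+1) = t`, `m ≥ 1`: `f = t^m` is idempotent, `f t = t = t f`; so
`f e = e` (`e` is a power of `t`) and `f e = f` (by (2)), `f = e`.  (4) `e_i t_j = 0`, `t_i e_j = 0` for `i ≠ j`:
powers (`CRN.thm_Pws`).  (5) `Prm R e`: `e ≠ 0` by (1); let `g` be idempotent in `eRe`; by `Frame.gen` `g` is nil, then
`g = g^3 = 0`, or `g ≡ t^(k+1)` modulo `J`; the same for `e - g` (nil: `g = e`); otherwise
`0 = g (e - g) ≡ t^(k+l+2)` (in `Q`), so a power of `t` is nil, so `t` is nil, a contradiction.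
(6) `Pfm.max`: an idempotent `g` orthogonal to `e_i` is orthogonal to `t_i = t_i e_i = e_i t_i`. -/
def St_Fpr : Prop := ∀ (n p : ℕ) (R : Type) [NonUnitalRing R] [Finite R], Cy R n p →
  ∀ (s : ℕ) (t : Fin s → R), Frame R n s t → Pfm R s (fun i => om n (t i)) ∧
    (∀ i, t i * om n (t i) = t i ∧ om n (t i) * t i = t i ∧ ¬ Nl (t i) ∧
      ∀ m, 1 ≤ m → pw (t i) m = t i → pw (t i) (m - 1) = om n (t i)) ∧
    ∀ i j, i ≠ j → om n (t i) * t j = 0 ∧ t i * om n (t j) = 0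

/-- **FRX** (from `St_Pfx`, `St_Prt`, `St_Tei`, `St_Quo`, `St_Crd`).  PROOF.  `e_i` from `St_Pfx`, `t_i'` from `St_Prt` for
`e_i`, `t_i = t_i'^K = pw (t_i') (K - 1)`.  In `Q` (`St_Quo`): `q(t_i')^(m+1) = q(t_i')`, so `q(t_i) = q(t_i')` by `St_Tei` (2)
for `Q`.  `e_i t_i = t_i = t_i e_i`, so `orth`; `t_i` is not nil, so `ne`; `per`: `St_Tei` (1), `St_Crd`.
`om n (t_i)` is an idempotent in `e_i R e_i`, not `0` (`CRN.thm_Pws`), so it is `e_i` (`Prm`).  `gen`: `q` of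
`x - pw (t_i) k` and `x - pw (t_i') k` are equal.  `max`: if `t_i g = 0 = g t_i` then
`e_i g = 0 = g e_i` (`CRN.thm_Pws`), `Pfm.max`. -/
def St_Frx : Prop := ∀ (n p : ℕ) (R : Type) [NonUnitalRing R] [Finite R], Cy R n p →
  ∃ (s : ℕ) (t : Fin s → R), Frame R n s t

/-- **GEN** (from `St_Fpr`, `St_Mch`).  PROOF.  `e_i = om n (t_i)`.  `Frame.gen` for `e_i x e_i` gives `c_i = 0` or
`c_i = pw (t_i) k` with `e_i x e_i - c_i` nil.  `e_i c_j = 0` for `j ≠ i`, so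
`e_i (x - ∑ c_j) e_i = e_i x e_i - c_i` is nil for all `i`; `St_Mch`. -/
def St_Gen : Prop := ∀ (n p : ℕ) (R : Type) [NonUnitalRing R] [Finite R], Cy R n p →
  ∀ (s : ℕ) (t : Fin s → R), Frame R n s t → ∀ x, ∃ c : Fin s → R,
    (∀ i, c i = 0 ∨ ∃ k, c i = pw (t i) k) ∧ Nl (x - ∑ i, c i)

/-- **ORE** (from `St_Fpr`).  PROOF.  `Frame.per` and `St_Fpr`: `pw (t_i) (m - 1) = om n (t_i)`, so the difference is `0`;
`Nat.find` for the least `o ≥ 1` with `Nl (pw (t_i) (o - 1) - om n (t_i))`. -/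
def St_Ore : Prop := ∀ (n p : ℕ) (R : Type) [NonUnitalRing R] [Finite R], Cy R n p →
  ∀ (s : ℕ) (t : Fin s → R), Frame R n s t → ∃ o : ℕ → ℕ, ∀ i : Fin s, Ord n (o i) (t i)

/-- **CNT** (from `St_Gen`, `St_Quo`, `St_Fpr`).  PROOF.  In `Q` (`St_Quo`).  Let `P` be the (finite) type of the functions
`f : (i : Fin s) → Fin (o i + 1)`, and for a family `u` let `C_u f = ∑ i, (0 if f i = 0, q(u_i)^(f i) otherwise)`.
(a) `C_t` is surjective: `St_Gen`; `q(t_i)^(o_i) = q(e_i)` (`Ord.nl`), so every power `q(t_i)^k`, `k ≥ 1`, is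
`q(t_i)^r` with `1 ≤ r ≤ o_i`.  So `card Q ≤ card P`.
(b) `C_τ` is injective: let `g_i = q(om n (τ_i))`, `y_i = q(τ_i)`: `y_i g_i = y_i = g_i y_i`, `g_i y_j = 0` for `j ≠ i`
(`g_i` is a power of `y_i`).  `C f = C f'` times `g_i`: the `i`-th items are equal.  If `f i = 0 ≠ f' i`:
`y_i^k = 0`, so a power of `τ_i` is nil and `τ_i` is nil, a contradiction.  If `1 ≤ a = f i < f' i = b ≤ o_i`:
`y_i^a = y_i^b`; multiply by `y_i^(3 N M - a)` with `3 N M > a`: `g_i = g_i y_i^(b-a) = y_i^(b-a)`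
(`y_i^(3 N M) = g_i`), with `1 ≤ b - a < o_i`, a contradiction to the hypothesis.
(c) So `C_τ` is bijective (finite sets), in particular surjective. -/
def St_Cnt : Prop := ∀ (n p : ℕ) (R : Type) [NonUnitalRing R] [Finite R], Cy R n p →
  ∀ (s : ℕ) (t : Fin s → R), Frame R n s t → ∀ o : Fin s → ℕ, (∀ i, Ord n (o i) (t i)) →
  ∀ τ : Fin s → R, (∀ i j, i ≠ j → τ i * τ j = 0) → (∀ i, τ i * om n (τ i) = τ i) →
    (∀ i, ¬ Nl (τ i)) → (∀ i l, 1 ≤ l → l < o i → ¬ Nl (pw (τ i) (l - 1) - om n (τ i))) →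
    ∀ x, ∃ c : Fin s → R, (∀ i, c i = 0 ∨ ∃ k, c i = pw (τ i) k) ∧ Nl (x - ∑ i, c i)

/-- **FRT** (from `St_Cnt`, `St_Jil`).  PROOF.  `ne`: `τ_i` is not nil.  `e_i = om n (τ_i)`; `e_i τ_j = 0` for `j ≠ i`.
`gen`: let `x = e_i x = x e_i`, `x - ∑ c_j` nil; multiply by `e_i` on both sides (`J` is an ideal): `x - c_i` is nil.
`max`: let `g` be idempotent, orthogonal to all `τ_i`, so to all `e_i`; `g - ∑ c_j` is nil, times `e_i`: `c_i` is nil
(`e_i g = 0`, `e_i c_j = 0`); so `g` is nil (`J` is a group), `g = g g g = 0`. -/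
def St_Frt : Prop := ∀ (n p : ℕ) (R : Type) [NonUnitalRing R] [Finite R], Cy R n p →
  ∀ (s : ℕ) (t : Fin s → R), Frame R n s t → ∀ o : Fin s → ℕ, (∀ i, Ord n (o i) (t i)) →
  ∀ τ : Fin s → R, (∀ i j, i ≠ j → τ i * τ j = 0) → (∀ i, τ i * om n (τ i) = τ i) →
    (∀ i, ¬ Nl (τ i)) → (∀ i l, 1 ≤ l → l < o i → ¬ Nl (pw (τ i) (l - 1) - om n (τ i))) →
    (∀ i, ∃ m, 1 ≤ m ∧ m.Coprime (Nat.card R) ∧ pw (τ i) m = τ i) → Frame R n s τ

/-- **DTE** (from `St_Jil`, `St_Prl`, `St_Fpr`).  PROOF.  (1) If `x` is nil, all `dk n x j` are nil (`J` is an ideal) and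
`om` of a nil element is `0`.  If `pw x (l-1) - om n x` is nil, `1 ≤ l < o`, then `dk n x l` is nil and so are
all `dk n x j`, `j ≥ l`.  (2) Let `e = om n (t_i)`, primitive (`St_Fpr`).  `t_i` and the factors
`t_i^l - e`, `0 < l < o`, are in `eRe` and not nil (`Ord.min`), so invertible in `eRe` (`St_Prl`); so the
product is invertible in `eRe`, and its `om` is an idempotent of `eRe`, not `0` (otherwise the product is
nil, and an invertible element is not nil), so it is `e`.  (3), (4): `TmF.om` etc., `mul_mem`, `sub_mem`. -/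
def St_Dte : Prop :=
  (∀ (n p : ℕ) (R : Type) [NonUnitalRing R] [Finite R], Cy R n p →
    (∀ (o : ℕ) (x : R), DT n o x ≠ 0 →
      ¬ Nl x ∧ ∀ l, 1 ≤ l → l < o → ¬ Nl (pw x (l - 1) - om n x)) ∧
    ∀ (s : ℕ) (t : Fin s → R), Frame R n s t → ∀ (i : Fin s) (o : ℕ), Ord n o (t i) →
      DT n o (t i) = om n (t i)) ∧
  ∀ (n o : ℕ) (R : Type) [NonUnitalRing R],
    (∀ (S : NonUnitalSubring R), ∀ x ∈ S, DT n o x ∈ S) ∧
    ∀ φ : (ℕ → R) → R, TmF φ → TmF (fun v => DT n o (φ v))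

/-! ### Part C: from critical rings to functions -/

/-- **TRM.**  PROOF.  `NonUnitalSubring.closure_induction`: generators `v_i` (`TmF.var`), `0` (`TmF.zero`), sums,
negatives, products. -/
def St_Trm : Prop := ∀ (R : Type) [NonUnitalRing R] (s : ℕ) (v : ℕ → R) (x : R),
  x ∈ NonUnitalSubring.closure (fs s v) → ∃ ψ : (ℕ → R) → R, TmF ψ ∧ ψ v = x ∧
    (∀ v' : ℕ → R, ψ v' ∈ NonUnitalSubring.closure (fs s v')) ∧
    ∀ v' v'' : ℕ → R, (∀ i, i < s → v' i = v'' i) → ψ v' = ψ v''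

/-- **SHF** (from `St_Frx`, `St_Gen`, `St_Trm`, `St_Jil`).  PROOF.  `CRK.thm_Gda` gives `m` and `φ₀` with `Gd H m φ₀`; let
`φ₀ v⁰ ≠ 0`.  `St_Frx`: a frame `t⁰`; let `w⁰ i = t⁰ i` for `i < s`, `0` otherwise.  `St_Gen`: for every `k < m` there is
`w_k` in the subring generated by `t⁰` with `v⁰_k - w_k` nil; `St_Trm` for `w⁰`: `ψ_k` with `ψ_k w⁰ = w_k`.
`φ v = φ₀ (u)`, `u_k = ψ_k v + v (s + k)` for `k < m`, `u_k = 0` for `k ≥ m` (`Gdb_comp`).  `val`: `Gd.val`.  `van`: if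
`v i ∈ S` for `i < s + m` then `u_k ∈ S` (`ψ_k v` is in the subring generated by the `v i`, `i < s`), `Gd.van`.
`ne`: `v = t⁰` on `i < s`, `v (s + k) = v⁰_k - w_k`, `0` otherwise; then `ψ_k v = ψ_k w⁰ = w_k`, `u_k = v⁰_k`
for `k < m` and `φ₀ u = φ₀ v⁰` (`Gd.dep`). -/
def St_Shf : Prop := ∀ (n p : ℕ) (R : Type) [NonUnitalRing R] [Finite R], Cy R n p → Critical R →
  ∀ H : AddSubgroup R, Lst R H → ∃ (s m : ℕ) (φ : (ℕ → R) → R), Gz n s m H φ

/-- **SUP.**  PROOF.  For `B ⊆ {0, ..., m-1}` let `v|B` be `v` with `v (s + k) = 0` for `k < m`, `k ∉ B`.  Take `B` of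
least cardinality `b` such that `φ (v|B) ≠ 0` for some `v` with `Vec n s m v` (`B = {0, ..., m-1}` is such a set).
`B = {β 0 < ... < β (b-1)}` (`Finset.orderEmbOfFin`).  `ψ v = φ w`, `w i = v i` for `i < s`, `w (s + β j) = v (s + j)`,
`w i = 0` otherwise.  If `Vec n s b v` then `Vec n s m w` (`0` is nil) and `w = w|B`.  `zer`: if `v (s + j) = 0`
then `w = w|(B \ {β j})`, so `φ w = 0` by minimality.  `van`: `0 ∈ S`.  `ne`: from `v'` with `φ (v'|B) ≠ 0` take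
`v i = v' i` for `i < s`, `v (s + j) = v' (s + β j)`. -/
def St_Sup : Prop := ∀ (n : ℕ) (R : Type) [NonUnitalRing R] (s m : ℕ) (H : AddSubgroup R)
  (φ : (ℕ → R) → R), Gz n s m H φ → ∃ (b : ℕ) (ψ : (ℕ → R) → R), Ga n s b H ψ

/-- **WRX.**  PROOF.  `CRK.Wrd_term`: `L₀` with nonempty words, `φ v = ev L₀ v` for all `v`.  Induction on `K`
(`Finset.induction_on`), with the hypothesis for this `K`, claim: `ev L v = φ v` for `L` the words of `L₀` which
contain all letters of `K`.  Step from `K` to `K ∪ {k}`: the part of `ev L_K v` of the words without `k` is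
`ev L_K (v[k := 0])` (the words with `k` vanish there); the hypothesis for `K` holds for `v[k := 0]` (zero entries in
`A` and `k`: the set `A ∪ {k}`), so this is `φ (v[k := 0]) = 0` (the hypothesis for `{k}`). -/
def St_Wrx : Prop := ∀ (R : Type) [NonUnitalRing R] (φ : (ℕ → R) → R), TmF φ → ∀ K : Finset ℕ,
  ∃ L : List (ℤ × List ℕ), (∀ p ∈ L, p.2 ≠ [] ∧ ∀ k ∈ K, k ∈ p.2) ∧ ∀ v : ℕ → R,
    (∀ A : Finset ℕ, A ⊆ K → A.Nonempty → φ (zr (A : Set ℕ) v) = 0) → φ v = ev L v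

/-- **LIS.**  PROOF.  Induction on the sublist relation; `a :: l` with `l' ≠ []` of the same length as `l1` and
`wp l' = wp l`: first letter not in `l1`: if `l' = y :: r` take `(a * y) :: r`; first letter in `l1`: `a :: l'`, and if
`l1 = [a]`: `[wp (a :: l)]`, `wp (a :: l) = a` or `a * wp l`, in `J`. -/
def St_Lis : Prop := ∀ (R : Type) [NonUnitalRing R] (J : AddSubgroup R), Idl R J → ∀ l1 l : List R,
  l1.Sublist l → l1 ≠ [] → (∀ x ∈ l1, x ∈ J) →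
  ∃ l' : List R, l'.length = l1.length ∧ (∀ x ∈ l', x ∈ J) ∧ wp l' = wp l

/-- **BND** (from `St_Jil`, `St_Lis`).  PROOF.  `J` from `St_Jil`.  By `St_Lis` it is enough that the product of a list of
length `> M` of elements of `J` is zero.  In general `CRN.thm_Jnl` (`prn x m` is the product of `m + 1` elements;
`M = m`; a longer product contains it).  If `card R` is prime to 6: `M = 5`, `CRK.thm_Sxb` for the
ring `J` (a `NonUnitalSubring`; `N6`: `6 • x = 0` implies `x = 0` as 6 is prime to `card R`). -/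
def St_Bnd : Prop := ∀ (n p : ℕ) (R : Type) [NonUnitalRing R] [Finite R], Cy R n p →
  ∃ M : ℕ, ((Nat.card R).Coprime 6 → M = 5) ∧ ∀ l1 l : List R, l1.Sublist l →
    (∀ x ∈ l1, Nl x) → M < l1.length → wp l = 0

/-- **BDD** (from `St_Bnd`, `St_Wrx`).  PROOF.  `St_Wrx` with `K = {s + k | k < b}`; let `Vec n s b v`, `φ v ≠ 0`.  For
`A ⊆ K` nonempty `zr A v` satisfies `Vec` and has an entry `0`, so `φ (zr A v) = 0` (`Ga.zer`).  So `φ v = ev L v`, and
some word `w` of `L` has `wp (w.map v) ≠ 0`.  It contains the `b` letters `s + k`; the sublist of `w.map v` of the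
letters `i` of `w` with `s ≤ i < s + b` consists of nil elements and has length `≥ b`; so `b ≤ M`. -/
def St_Bdd : Prop := ∀ (n p : ℕ) (R : Type) [NonUnitalRing R] [Finite R], Cy R n p →
  ∃ M : ℕ, ((Nat.card R).Coprime 6 → M = 5) ∧ ∀ (s b : ℕ) (H : AddSubgroup R) (φ : (ℕ → R) → R),
    Ga n s b H φ → b ≤ M

/-- **MXA** (from `St_Jil`).  PROOF.  As `CRK.thm_Gdb`.  `ψ v = φ (v[s+k := v (s+k) + v (s+b)]) - φ (v[s+k := v (s+k)])
- φ (v[s+k := v (s+b)])` depends on `v i`, `i < s + b + 1`; on `Vec n s (b+1)` the three arguments satisfy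
`Vec n s b` (`J` is a group); values in `H`; zero if some `v (s+j) = 0`, `j ≤ b` (`j ≠ k`, `j < b`: all three terms; `j = k`:
`φ(y) - 0 - φ(y)`; `j = b`: `φ(x) - φ(x) - 0`); zero on proper subrings.  So if `ψ v ≠ 0` for some `v` then
`Ga n s (b+1) H ψ`, a contradiction; apply to `v[s+k := y][s+b := z]` (`φ` does not depend on
`v (s+b)`).  `sq`: `ψ v = φ (v[s+k := v (s+k) * v (s+b)])` in the same way (`J` is an ideal). -/
def St_Mxa : Prop := ∀ (n p : ℕ) (R : Type) [NonUnitalRing R] [Finite R], Cy R n p →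
  ∀ (s b : ℕ) (H : AddSubgroup R) (φ : (ℕ → R) → R), Ga n s b H φ → (∀ ψ, ¬ Ga n s (b + 1) H ψ) →
  Gb n s b H φ

/-- **MNC** (from `St_Trm`, `St_Rdx`).  PROOF.  `cf`: suppose `Vec n s b v`, `k < b`, `v (s+k)` in the subring generated by
the `v i`, `i < s`, and `φ v ≠ 0`.  `St_Trm`: `ψ₀ v = v (s+k)`.  For `v'` let `w i = v' i` for `i < s + k`,
`w (s+k) = rd n (ψ₀ v')`, `w i = v' (i - 1)` for `i > s + k`, and `ψ v' = φ w`.  If `Vec n s (b-1) v'` then `Vec n s b w`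
(`rd` is nil, `St_Rdx`), and all conditions of `Gb n s (b-1) H ψ` follow from those of `φ` (`add`, `sq`: variable `j`
of `v'` is the variable `j` or `j + 1` of `w`; `ψ₀` does not depend on it; `van`: `ψ₀ v'`, so `rd n (ψ₀ v')`, is in
`S`).  `ne`: `v' i = v i` for `i < s + k`, `v' i = v (i+1)` for `i ≥ s + k`; then `ψ₀ v' = ψ₀ v = v (s+k)`, nil, so
`rd n` of it is `v (s+k)`, and `w = v`.  Contradiction to the minimality. -/
def St_Mnc : Prop := ∀ (n p : ℕ) (R : Type) [NonUnitalRing R] [Finite R], Cy R n p →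
  ∀ (s b : ℕ) (H : AddSubgroup R) (φ : (ℕ → R) → R), Gb n s b H φ →
  (∀ b' ψ, b' < b → ¬ Gb n s b' H ψ) → Gc n s b H φ

/-- **SEL** (from `St_Shf`, `St_Sup`, `St_Bdd`, `St_Mxa`, `St_Mnc`).  PROOF.  `St_Shf`, `St_Sup`: some `Ga n s b H ψ`; take
`b` maximal for this `s` (`St_Bdd`); `St_Mxa` gives `Gb n s b H ψ`.  Take `b'` minimal with some `Gb n s b' H ψ'`
(`Nat.find`); `St_Mnc`.  `b' ≤ 5` by `St_Bdd` if the order is prime to 6. -/
def St_Sel : Prop := ∀ (n p : ℕ) (R : Type) [NonUnitalRing R] [Finite R], Cy R n p → Critical R →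
  ∀ H : AddSubgroup R, Lst R H → ∃ (s b : ℕ) (φ : (ℕ → R) → R),
    ((Nat.card R).Coprime 6 → b ≤ 5) ∧ Gc n s b H φ

/-- **PCH** (from `St_Jil`, `St_Fpr`).  PROOF.  Let `φ v ≠ 0`, `Vec n s b v`; we may take `v i = 0` for `i ≥ s + b` (`dep`).
`e_i = om n (v i)`, orthogonal idempotents (`St_Fpr`).  By induction on `j ≤ b` we may assume that
`v (s + k)` is homogeneous for `k < j`: `v (s + j) = ∑ α, ∑ β, c α β` (`CRN.thm_Pca`, all `c α β ∈ J`), and `φ` is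
additive in this variable (`Gb.add`, finite sums, `φ = 0` at `0` by `Ga.zer`), so `φ (v[s+j := c α β]) ≠ 0`
for some `α, β`.  (The `v i`, `i < s`, do not change.) -/
def St_Pch : Prop := ∀ (n p : ℕ) (R : Type) [NonUnitalRing R] [Finite R], Cy R n p →
  ∀ (s b : ℕ) (H : AddSubgroup R) (φ : (ℕ → R) → R), Gb n s b H φ →
  ∃ (α β : ℕ → Option (Fin s)) (v : ℕ → R), Hv n s b φ α β v

/-- **ALV** (from `St_Fpr`).  PROOF.  `van` with `S` the subring generated by the `v j`, `j < s + b`: `φ v ≠ 0`, so `S = ⊤`.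
(*) Let `e = om n (v i)`, `i < s`, commute with all elements of `R`: `I₁ = {r | e r = r}`, `I₂ = {r | e r = 0}` are ideals
with intersection `0`, `e ∈ I₁`, `e ≠ 0`, so `H ≤ I₁`, so `I₂ = 0` (otherwise `H ≤ I₁ ⊓ I₂ = 0`).
(1) Let `1 ≤ b` and suppose `α k ≠ some i`, `β k ≠ some i` for all `k < b`.  Then `e v_(s+k) = 0 = v_(s+k) e` (`Hv.pc`),
`e v_j = 0 = v_j e` for `j < s`, `j ≠ i`, `e v_i = v_i = v_i e`; so `e` commutes with the generators, so with all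
elements.  By (*) `v_s ∈ I₂ = 0`, so `φ v = 0` (`zer`), a contradiction.
(2) `b = 0`: `s = 0` is impossible (`dep`: `φ v = φ 0`, and term functions are `0` at `0`: `Gda_zero`).  If `s ≥ 2`: `e = om n (v 0)`
commutes with the generators `v_j`, and `v_1 ∈ I₂`, `v_1 ≠ 0`, a contradiction to (*). -/
def St_Alv : Prop := ∀ (n p : ℕ) (R : Type) [NonUnitalRing R] [Finite R], Cy R n p →
  ∀ H : AddSubgroup R, Lst R H → ∀ (s b : ℕ) (φ : (ℕ → R) → R), Gb n s b H φ →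
  ∀ (α β : ℕ → Option (Fin s)) (v : ℕ → R), Hv n s b φ α β v →
    (1 ≤ b → ∀ i : Fin s, ∃ k, k < b ∧ (α k = some i ∨ β k = some i)) ∧ (b = 0 → s = 1)

/-- **FVX.**  PROOF.  (1) `x x = 0` for `x` in `e_α R e_β`, `α ≠ β` (`CRN.thm_Pca`), so `A, B, C` are nil, and so is
`A + B + C` (`J` is a group, hypothesis `hJ`).  Of the products of two of them only `A B` and `B C` can be
nonzero (`α, β, γ, δ` different), so `0 = (A + B + C)^3 = A B C`. -/
def St_Fvx : Prop := ∀ (R : Type) [NonUnitalRing R] (s : ℕ) (e : Fin s → R),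
  (∀ i, e i * e i = e i) → (∀ i j, i ≠ j → e i * e j = 0) →
  (∀ x y : R, Nl x → Nl y → Nl (x + y)) → ∀ (α β γ δ : Option (Fin s)) (A B C : R),
  α ≠ β → α ≠ γ → α ≠ δ → β ≠ γ → β ≠ δ → γ ≠ δ → Pc e α β A → Pc e β γ B → Pc e γ δ C →
  A * B * C = 0

/-- **WLK** (from `St_Fvx`).  PROOF.  `a, c` give the type of every letter (`Pc e (a w) (c w) (f w)`).  If
`wp (l.map f) ≠ 0` then `l` is composable (`c w = a w'` for consecutive letters; `CRN.thm_Pca`).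
Induction on `l` from the right (`List.reverseRecOn`): let `u₀ = a` of the first letter, `u` the end (`c` of
the last letter), `V(l)` the set of the `a w`, `c w`, `w ∈ l`.  Claim: for a composable nonempty `l` with
`wp (l.map f) ≠ 0` one of: (i) `V(l) ⊆ {u₀}`; (ii) `V(l) ⊆ {u₀, q}`, `q ≠ u₀`, `l = l₁ ++ l₂`, `l₁ ≠ []` a path from `u₀` to
`q`, `l₂` a path from `q` to `u` (or `l₂ = []`, `u = q`); (iii) `V(l) ⊆ {u₀, q, r}`, different, `l = l₁ ++ l₂ ++ l₃`,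
`l₁, l₂ ≠ []` paths from `u₀` to `q` and from `q` to `r`, `l₃` from `r` to `u` (or empty, `u = r`).  Step `l ++ [w]`,
`a w = u`, `u' = c w`: if `u' ∈ {u₀, q, r}` (the vertices so far) append `w` to the last part; otherwise
(i) becomes (ii) with `l₁ = l ++ [w]`, `l₂ = []`, (ii) becomes (iii) with `l₂ ++ [w]`, and in case (iii)
the products `A, B, C` of `l₁`, `l₂`, `l₃ ++ [w]` have the types `u₀ → q → r → u'`, all
different, so `A B C = 0` (`St_Fvx`), but `A B C = wp (l ++ [w])`, a contradiction. -/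
def St_Wlk : Prop := ∀ (R : Type) [NonUnitalRing R] (s : ℕ) (e : Fin s → R),
  (∀ i, e i * e i = e i) → (∀ i j, i ≠ j → e i * e j = 0) →
  (∀ x y : R, Nl x → Nl y → Nl (x + y)) → ∀ (f : ℕ → R) (a c : ℕ → Option (Fin s)) (l : List ℕ),
  l ≠ [] → (∀ w ∈ l, Pc e (a w) (c w) (f w)) → wp (l.map f) ≠ 0 →
  ∃ u₀ q r : Option (Fin s), ∀ w ∈ l, (a w = u₀ ∨ a w = q ∨ a w = r) ∧ (c w = u₀ ∨ c w = q ∨ c w = r)

/-- **THR** (from `St_Alv`, `St_Wlk`, `St_Wrx`, `St_Jil`, `St_Fpr`).  PROOF.  `b = 0`: `s = 1`.  `b ≥ 1`: as in `St_Bdd`, `φ v = ev L v`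
with words which contain all `s + k`, `k < b`; some word `w` of `L` has `wp (w.map v) ≠ 0`.  Its letters are
`< s + b` (the other values are `0`, `Hv.out`).  With `e_i = om n (v i)` the letter `i < s` has type
`(some i, some i)` (`St_Fpr`) and `s + k` has type `(α k, β k)`.  `St_Wlk` gives three vertices; by `St_Alv` every
`some i`, `i < s`, is one of them; so `s ≤ 3`. -/
def St_Thr : Prop := ∀ (n p : ℕ) (R : Type) [NonUnitalRing R] [Finite R], Cy R n p →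
  ∀ H : AddSubgroup R, Lst R H → ∀ (s b : ℕ) (φ : (ℕ → R) → R), Gb n s b H φ →
  ∀ (α β : ℕ → Option (Fin s)) (v : ℕ → R), Hv n s b φ α β v → s ≤ 3

/-- **MUL** (from `St_Bnd`, `St_Jil`).  PROOF.  By induction on `j ≤ b`: `φ v = ev L_j v` on `Vec`, `L_j` the words of `L` in which
all `s + k`, `k < j`, occur once.  Step (`j < b`): for `d ≥ 1` let `E_d v` be the part of `ev L_j v` of the words in
which `s + j` occurs `d` times; words with `d ≥ 6` vanish on `Vec` (`St_Bnd`, `M = 5`: they have 6 nil letters).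
For an integer `c` let `v[c] = v[s+j := c • v (s+j)]`: `E_d (v[c]) = c^d • E_d v` (`CRK.Gdc_hom`), and
`φ (v[c]) = c • φ v` (`Gb.add`, `Ga.zer`).  `c = -1`: `2 (E_2 + E_4) = 0`.  `c = 2` plus `c = -2`: `8 E_2 + 32 E_4 = 0`.  So
`E_4 = E_2 = 0` (no 2- and 3-torsion, the order is prime to 30).  `c = 2`: `6 E_3 + 30 E_5 = 0`; `c = 3`:
`24 E_3 + 240 E_5 = 0`; so `120 E_5 = 0`, `E_5 = 0`, `E_3 = 0`.  So `φ v = E_1 v = ev L_(j+1) v`. -/
def St_Mul : Prop := ∀ (n p : ℕ) (R : Type) [NonUnitalRing R] [Finite R], Cy R n p →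
  (Nat.card R).Coprime 30 → ∀ (s b : ℕ) (H : AddSubgroup R) (φ : (ℕ → R) → R), Gb n s b H φ →
  ∀ L : List (ℤ × List ℕ), (∀ p ∈ L, p.2 ≠ [] ∧ ∀ k, k < b → s + k ∈ p.2) →
  (∀ v, Vec n s b v → φ v = ev L v) → ∃ L' : List (ℤ × List ℕ),
    (∀ p ∈ L', p.2 ≠ [] ∧ ∀ k, k < b → p.2.count (s + k) = 1) ∧ ∀ v, Vec n s b v → φ v = ev L' v

/-- **WRF** (from `St_Wrx`, `St_Mul`).  PROOF.  `St_Wrx` with `K = {s + k | k < b}`, as in `St_Bdd`; if the order is prime to 30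
replace `L` by `L'` of `St_Mul`. -/
def St_Wrf : Prop := ∀ (n p : ℕ) (R : Type) [NonUnitalRing R] [Finite R], Cy R n p →
  ∀ (s b : ℕ) (H : AddSubgroup R) (φ : (ℕ → R) → R), Gb n s b H φ →
  ∃ L : List (ℤ × List ℕ), (∀ p ∈ L, p.2 ≠ [] ∧ ∀ k, k < b → s + k ∈ p.2) ∧
    ((Nat.card R).Coprime 30 → ∀ p ∈ L, ∀ k, k < b → p.2.count (s + k) = 1) ∧
    ∀ v, Vec n s b v → φ v = ev L v

/-- **VVX.**  PROOF.  Direct: `vv t x i = t i` for `i < s`, `vv t x (s + k) = x k` for `k < b`, `0` otherwise. -/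
def St_Vvx : Prop := ∀ (n : ℕ) (R : Type) [NonUnitalRing R] (s b : ℕ),
  (∀ (t : Fin s → R) (x : Fin b → R), (∀ i : Fin s, vv t x i = t i) ∧
    (∀ k : Fin b, vv t x (s + k) = x k) ∧ (∀ i, s + b ≤ i → vv t x i = 0) ∧
    (Frame R n s t → (∀ k, Nl (x k)) → Vec n s b (vv t x)) ∧ fs s (vv t x) = Set.range t ∧
    ∀ (k : Fin b) (y : R), vv t (Function.update x k y) = Function.update (vv t x) (s + k) y) ∧
  ∀ v : ℕ → R, (∀ i, i < s + b → vv (fun i : Fin s => v i) (fun k : Fin b => v (s + k)) i = v i)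

/-- **FWD** (from `St_Sel`, `St_Pch`, `St_Thr`, `St_Wrf`, `St_Vvx`).  PROOF.  `CRN.thm_Sir`: `H`.  `St_Sel`: `Gc n s b H φ`; `St_Pch`,
`St_Thr`: `s ≤ 3`; `St_Wrf`: `L`.  For a frame `t` and nil `x_k`: `Val L t x = φ (vv t x)`; the conditions are those
of `Gc`. -/
def St_Fwd : Prop := ∀ (n p : ℕ) (R : Type) [NonUnitalRing R] [Finite R], Cy R n p → Critical R →
  FunType R n

/-! ### Part D: the criterion -/

/-- **BGB** (from `St_Vvx`, `St_Jil`).  PROOF.  `φ v = Val L (fun i => v i) (fun k => v (s + k))`, which is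
`ev L (fun i => if i < s + b then v i else 0)`; a term function (`Cvm_tmf_*`; `0` is the term `x_0 - x_0`).
`zer`: all words contain `s + k` (`Wrd_ev_zero`).  `ne`: `v = vv t x`. -/
def St_Bgb : Prop := ∀ (n p : ℕ) (R : Type) [NonUnitalRing R] [Finite R], Cy R n p → FunType R n →
  ∃ (H : AddSubgroup R) (s b : ℕ) (φ : (ℕ → R) → R), Lst R H ∧ Gb n s b H φ

/-- **TAV** (from `St_Tei`, `St_Crd`).  PROOF.  `c_i = ct (Es n v i) (v i)`, `Eo n v i = om n (c_i) = om n (ta n K v i)` (`St_Tei` (3)).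
`c_i^K E = c_i^K` for `E = om n (c_i)`, since `K ≥ 3` and `c^3 om(c) = c^3` (`CRN.thm_Pws`).  `CRN.thm_Eof`: the
`Eo n v i` are orthogonal idempotents, so `ta i * ta j = 0` for `i ≠ j`.  `St_Tei` (1), `St_Crd`.  Term functions:
`TmF.ct`, `TmF.Es`, `TmF.pw`; subrings: `TmF.mem`. -/
def St_Tav : Prop := ∀ (n p : ℕ), 4 ≤ n → p.Prime → ∃ K : ℕ, 3 ≤ K ∧
  (∀ (R : Type) [NonUnitalRing R], InM n R → ∀ (x : R) (m : ℕ), 1 ≤ m → m.Coprime p →
    pw x m = x → pw x (K - 1) = x) ∧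
  ∀ (R : Type) [NonUnitalRing R] [Finite R], Cy R n p →
    (∀ (v : ℕ → R) (i j : ℕ), i ≠ j → ta n K v i * ta n K v j = 0) ∧
    (∀ (v : ℕ → R) (i : ℕ), ta n K v i * om n (ta n K v i) = ta n K v i ∧
      ∃ m, 1 ≤ m ∧ m.Coprime (Nat.card R) ∧ pw (ta n K v i) m = ta n K v i) ∧
    (∀ i, TmF (fun v : ℕ → R => ta n K v i)) ∧
    ∀ (S : NonUnitalSubring R) (v : ℕ → R), (∀ i, v i ∈ S) → ∀ i, ta n K v i ∈ S

/-- **GVT** (from `St_Tav`, `St_Dte`, `St_Rdx`).  PROOF.  For the `K` of `St_Tav`.  Term functions and subrings: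
compositions.  (3) `rd` is nil.  (4) `lc` or `rc` gives `0`, and `rd n 0 = 0`. -/
def St_Gvt : Prop := ∀ (n p K : ℕ) (R : Type) [NonUnitalRing R] [Finite R], Cy R n p →
  (∀ i, TmF (fun v : ℕ → R => ta n K v i)) →
  (∀ (S : NonUnitalSubring R) (v : ℕ → R), (∀ i, v i ∈ S) → ∀ i, ta n K v i ∈ S) →
  ∀ (s b : ℕ) (o : ℕ → ℕ) (α β : ℕ → Option (Fin s)),
    (∀ i, TmF (fun v : ℕ → R => gv n K s b o α β v i)) ∧
    (∀ (S : NonUnitalSubring R) (v : ℕ → R), (∀ i, v i ∈ S) → ∀ i, gv n K s b o α β v i ∈ S) ∧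
    (∀ (v : ℕ → R) (k : ℕ), k < b → Nl (gv n K s b o α β v (s + k))) ∧
    (∀ (v : ℕ → R) (k : ℕ) (i : Fin s), k < b → (α k = some i ∨ β k = some i) →
      dv n K o v i = 0 → gv n K s b o α β v (s + k) = 0) ∧
    (∀ i, TmF (fun v : ℕ → R => dv n K o v i)) ∧
    ∀ (S : NonUnitalSubring R) (v : ℕ → R), (∀ i, v i ∈ S) → ∀ i, dv n K o v i ∈ S

/-- **GVF** (from `St_Frt`, `St_Dte`).  PROOF.  `τ_i = ta n K v i`, `dv i = DT n (o i) (τ_i) ≠ 0`: `St_Dte` (1) gives the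
hypotheses of `St_Frt`. -/
def St_Gvf : Prop := ∀ (n p K : ℕ) (R : Type) [NonUnitalRing R] [Finite R], Cy R n p →
  (∀ (v : ℕ → R) (i j : ℕ), i ≠ j → ta n K v i * ta n K v j = 0) →
  (∀ (v : ℕ → R) (i : ℕ), ta n K v i * om n (ta n K v i) = ta n K v i ∧
    ∃ m, 1 ≤ m ∧ m.Coprime (Nat.card R) ∧ pw (ta n K v i) m = ta n K v i) →
  ∀ (s : ℕ) (t : Fin s → R), Frame R n s t → ∀ o : ℕ → ℕ, (∀ i : Fin s, Ord n (o i) (t i)) →
  ∀ v : ℕ → R, (∀ i : Fin s, dv n K o v i ≠ 0) → Frame R n s (fun i => ta n K v i)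

/-- **RTN** (from `St_Fpr`, `St_Dte`, `St_Crd`, `St_Rdx`).  PROOF.  `t_i = v i`, `e_i = om n (v i)`.  By induction on `i < s`:
`Es n v i = ∑ j < i, e_j` (in the form: `Es n v i * v_i = 0 = v_i * Es n v i` and `Es n v (i+1) = Es n v i + e_i`,
with `Es n v i` in the group generated by the `e_j`, `j < i`); `ct (Es n v i) (v i) = v i` (`Eof_ct_z`),
`ta n K v i = pw (v i) (K - 1) = v i` (`Frame.per`, `St_Crd`, hypothesis on `K`).  `dv i = DT n (o i) (v i) = e_i`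
(`St_Dte` (2)).  By `Hv.pc` `lc` and `rc` with the `e_i` do not change `v (s + k)`, and `rd n` neither
(`St_Rdx`).  For `i ≥ s + b` both are `0` (`Hv.out`). -/
def St_Rtn : Prop := ∀ (n p K : ℕ) (R : Type) [NonUnitalRing R] [Finite R], Cy R n p →
  (∀ (x : R) (m : ℕ), 1 ≤ m → m.Coprime p → pw x m = x → pw x (K - 1) = x) →
  ∀ (s b : ℕ) (φ : (ℕ → R) → R) (α β : ℕ → Option (Fin s)) (v : ℕ → R), Hv n s b φ α β v →
  ∀ o : ℕ → ℕ, (∀ i : Fin s, Ord n (o i) (v i)) →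
  (∀ i, gv n K s b o α β v i = v i) ∧ ∀ i : Fin s, dv n K o v i = om n (v i)

/-- **BKW** (from `St_Wrx`, `St_Pch`, `St_Alv`, `St_Ore`, `St_Tav`, `St_Gvt`, `St_Gvf`, `St_Rtn`).  PROOF.  `St_Pch`: `Hv n s b φ α β v⁰`; `o` from
`St_Ore`, `K` from `St_Tav`; `L` from `St_Wrx` (`K = {s + k | k < b}`): `φ v = ev L v` on `Vec` (as in `St_Bdd`), all words
contain all `s + k`.  `G v = ev L (gv v)` is a term function.  `thm_Crg`: let `v` be arbitrary.  If `dv v i ≠ 0` for all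
`i < s` then `gv v` satisfies `Vec` (`St_Gvf`, `St_Gvt` (3)), `G v = φ (gv v) ∈ H`, and it is `0` if all `v i` are in
`S ≠ ⊤` (`van`, `St_Gvt` (2)).  If `dv v i = 0` for some `i < s`: by `St_Alv` (1) there is `k < b` with `α k = some i` or
`β k = some i`, so `gv v (s + k) = 0`, and `G v = 0` (`Wrd_ev_zero`).  `G v⁰ = φ v⁰ ≠ 0` (`St_Rtn`). -/
def St_Bkw : Prop := ∀ (n p : ℕ) (R : Type) [NonUnitalRing R] [Finite R], Cy R n p →
  ∀ (H : AddSubgroup R) (s b : ℕ) (φ : (ℕ → R) → R), Lst R H → Gb n s b H φ → 1 ≤ b → Critical R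

/-- **BKZ** (from `St_Pch`, `St_Alv`, `St_Ore`, `St_Tav`, `St_Gvt`, `St_Gvf`, `St_Rtn`).  PROOF.  `s = 1` (`St_Alv`).
`G v = dv v 0 * φ (gv v)`.  If `dv v 0 ≠ 0` then `gv v` satisfies `Vec n 1 0`, so `φ (gv v) ∈ H` and `G v ∈ H` (`H` an
ideal), zero on `S ≠ ⊤` (`van`).  If `dv v 0 = 0` then `G v = 0`.  `G v⁰ = om n (v⁰ 0) * φ v⁰ = φ v⁰ ≠ 0`: `φ v⁰` is
in the subring generated by `v⁰ 0` (`TmF.mem`; `v⁰ i = 0` for `i ≥ 1`), on which `om n (v⁰ 0)` acts as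
identity (`St_Fpr`). -/
def St_Bkz : Prop := ∀ (n p : ℕ) (R : Type) [NonUnitalRing R] [Finite R], Cy R n p →
  ∀ (H : AddSubgroup R) (s : ℕ) (φ : (ℕ → R) → R), Lst R H → Gb n s 0 H φ → Critical R

/-- **MAI** (from `St_Fwd`, `St_Bgb`, `St_Bkw`, `St_Bkz`).  The theorem.  PROOF.  `R` with a least nonzero ideal: `CRN.thm_Ppw`
gives `p, r`, so `Cy R n p` if `¬ Twn R`.  From left to right: `CRN.thm_Sir`; `Twn R`: `CRN.thm_Twg` (all theorems
of CRN are proved, see `CRN/All.lean`); otherwise `St_Fwd`.  From right to left: `CRN.thm_Cm2`, `thm_Cm3`, `thm_Ctr`,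
`thm_Opp`; `FunType`: `St_Bgb`, `St_Bkw`, `St_Bkz`. -/
def St_Mai : Prop := ∀ n : ℕ, 4 ≤ n → ∀ (R : Type) [NonUnitalRing R] [Finite R], InM n R →
  (Critical R ↔ MatType R 2 ∨ MatType R 3 ∨ TriType R ∨ TriType Rᵐᵒᵖ ∨ (¬ Twn R ∧ FunType R n))

end Pool.Agent.CRL
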